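import Mathlib

/-!
# Extension of a derivation to an algebraic extension
-/

open Polynomial

namespace Pool.Agent.Helper19.LU

/-- the ring `Ω[ε]`, without its standard algebra structures -/
def TS (Ω : Type*) : Type _ := TrivSqZeroExt Ω Ω

instance (Ω : Type*) [Field Ω] : CommRing (TS Ω) := inferInstanceAs (CommRing (TrivSqZeroExt Ω Ω))

section Extend

variable {K Ω : Type*} [Field K] [Field Ω] [Algebra ℂ K] [Algebra ℂ Ω] [Algebra K Ω]
  [IsScalarTower ℂ K Ω] (D : Derivation ℂ K K)

/-- `a ↦ a + ε D a` -/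
def TSmap (D : Derivation ℂ K K) : K →+* TS Ω where
  toFun a := ((algebraMap K Ω a, algebraMap K Ω (D a)) : TrivSqZeroExt Ω Ω)
  map_one' := by
    apply TrivSqZeroExt.ext
    · change algebraMap K Ω 1 = 1
      exact map_one _
    · change algebraMap K Ω (D 1) = 0
      rw [Derivation.map_one_eq_zero, map_zero]
  map_mul' a b := by
    apply TrivSqZeroExt.ext
    · change algebraMap K Ω (a * b) = algebraMap K Ω a * algebraMap K Ω b
      exact map_mul _ _ _
    · change algebraMap K Ω (D (a * b)) = algebraMap K Ω a • algebraMap K Ω (D b) +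
        MulOpposite.op (algebraMap K Ω b) • algebraMap K Ω (D a)
      rw [Derivation.leibniz, map_add, smul_eq_mul, smul_eq_mul, map_mul, map_mul,
        op_smul_eq_mul, smul_eq_mul]
      ring
  map_zero' := by
    apply TrivSqZeroExt.ext
    · change algebraMap K Ω 0 = 0
      exact map_zero _
    · change algebraMap K Ω (D 0) = 0
      rw [map_zero, map_zero]
  map_add' a b := by
    apply TrivSqZeroExt.ext
    · change algebraMap K Ω (a + b) = algebraMap K Ω a + algebraMap K Ω b
      exact map_add _ _ _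
    · change algebraMap K Ω (D (a + b)) = algebraMap K Ω (D a) + algebraMap K Ω (D b)
      rw [map_add, map_add]

theorem exists_extend [Algebra.IsAlgebraic K Ω] : ∃ D' : Derivation ℂ Ω Ω,
    ∀ a : K, D' (algebraMap K Ω a) = algebraMap K Ω (D a) := by
  let _ : Algebra K (TS Ω) := (TSmap D).toAlgebra
  let g : TS Ω →ₐ[K] Ω :=
    { (TrivSqZeroExt.fstHom Ω Ω Ω : TrivSqZeroExt Ω Ω →+* Ω) with
      commutes' := fun a => rfl }
  have hg : Function.Surjective g := fun x => ⟨TrivSqZeroExt.inl x, rfl⟩
  have hker : IsNilpotent (RingHom.ker g) := by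
    refine ⟨2, ?_⟩
    rw [sq, Ideal.zero_eq_bot, eq_bot_iff, Ideal.mul_le]
    intro x hx y hy
    rw [Ideal.mem_bot]
    have hx' : TrivSqZeroExt.fst (show TrivSqZeroExt Ω Ω from x) = 0 := hx
    have hy' : TrivSqZeroExt.fst (show TrivSqZeroExt Ω Ω from y) = 0 := hy
    apply TrivSqZeroExt.ext
    · change TrivSqZeroExt.fst (show TrivSqZeroExt Ω Ω from x) *
        TrivSqZeroExt.fst (show TrivSqZeroExt Ω Ω from y) = 0
      rw [hx', zero_mul]
    · change TrivSqZeroExt.fst (show TrivSqZeroExt Ω Ω from x) •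
        TrivSqZeroExt.snd (show TrivSqZeroExt Ω Ω from y) +
        MulOpposite.op (TrivSqZeroExt.fst (show TrivSqZeroExt Ω Ω from y)) •
        TrivSqZeroExt.snd (show TrivSqZeroExt Ω Ω from x) = 0
      rw [hx', hy', zero_smul, MulOpposite.op_zero, zero_smul, add_zero]
  have : CharZero K := charZero_of_injective_algebraMap (algebraMap ℂ K).injective
  have : Algebra.FormallyEtale K Ω := Algebra.FormallyEtale.of_isSeparable K Ω
  let l : Ω →ₐ[K] TS Ω := Algebra.FormallySmooth.liftOfSurjective (AlgHom.id K Ω) g hg hker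
  have hl : ∀ x, g (l x) = x := fun x =>
    Algebra.FormallySmooth.liftOfSurjective_apply (AlgHom.id K Ω) g hg hker x
  have hl1 : ∀ x, TrivSqZeroExt.fst (show TrivSqZeroExt Ω Ω from l x) = x := hl
  let d : Ω → Ω := fun x => TrivSqZeroExt.snd (show TrivSqZeroExt Ω Ω from l x)
  have hadd : ∀ x y, d (x + y) = d x + d y := by
    intro x y
    change TrivSqZeroExt.snd (show TrivSqZeroExt Ω Ω from l (x + y)) = _
    rw [map_add]
    rfl
  have hmul : ∀ x y, d (x * y) = x * d y + y * d x := by
    intro x y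
    change TrivSqZeroExt.snd (show TrivSqZeroExt Ω Ω from l (x * y)) = _
    rw [map_mul]
    change TrivSqZeroExt.fst (show TrivSqZeroExt Ω Ω from l x) • d y +
      MulOpposite.op (TrivSqZeroExt.fst (show TrivSqZeroExt Ω Ω from l y)) • d x = _
    rw [hl1, hl1]
    simp [mul_comm]
  have hbase : ∀ a : K, d (algebraMap K Ω a) = algebraMap K Ω (D a) := by
    intro a
    change TrivSqZeroExt.snd (show TrivSqZeroExt Ω Ω from l (algebraMap K Ω a)) = _
    rw [l.commutes]
    rfl
  have hC : ∀ c : ℂ, d (algebraMap ℂ Ω c) = 0 := by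
    intro c
    rw [IsScalarTower.algebraMap_apply ℂ K Ω, hbase, Derivation.map_algebraMap, map_zero]
  let lin : Ω →ₗ[ℂ] Ω :=
    { toFun := d
      map_add' := hadd
      map_smul' := by
        intro c x
        rw [Algebra.smul_def, hmul, hC, mul_zero, add_zero, RingHom.id_apply, Algebra.smul_def] }
  exact ⟨Derivation.mk' lin (fun x y => by
    change d (x * y) = x * d y + y * d x
    exact hmul x y), hbase⟩

end Extend

end Pool.Agent.Helper19.LU
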