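import Mathlib

/-!
# Finite `2`-groups acting on the solutions of a Riccati equation
-/

open scoped commutatorElement

namespace Pool.Agent.Helper19.LU

/-- a group with an orbit of at most two points -/
theorem commutator_fixes {S α : Type*} [Group S] [MulAction S α] {x x' : α}
    (h : ∀ s : S, s • x = x ∨ s • x = x') : ∀ g ∈ derivedSeries S 1, g • x = x := by
  have hcomm : ∀ s s' : S, s • s' • x = s' • s • x := by
    have key : ∀ s s' : S, s • x = x → s' • x = x' → s • s' • x = s' • s • x := by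
      intro s s' h1 h2
      rw [h1, h2]
      have h3 := h (s * s')
      rw [mul_smul, h2] at h3
      rcases h3 with h3 | h3
      · have h4 : s • x' = s • x := by rw [h3, h1]
        have h5 : x' = x := smul_left_cancel s h4
        rw [h5, h1]
      · exact h3
    intro s s'
    rcases h s with h1 | h1 <;> rcases h s' with h2 | h2
    · rw [h1, h2, h1]
    · exact key s s' h1 h2
    · exact (key s' s h2 h1).symm
    · rw [h1, h2]
      have h3 := h (s * s)
      rw [mul_smul, h1] at h3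
      have h4 := h (s' * s')
      rw [mul_smul, h2] at h4
      rcases h3 with h3 | h3 <;> rcases h4 with h4 | h4
      · rw [h3, h4]
      · have h5 : x' = x := smul_left_cancel s' (h4.trans h2.symm)
        rw [h3, h4, h5]
      · have h5 : x' = x := smul_left_cancel s (h3.trans h1.symm)
        rw [h3, h4, h5]
      · rw [h3, h4]
  have h1 : derivedSeries S 1 ≤ MulAction.stabilizer S x := by
    rw [derivedSeries_succ, derivedSeries_zero, Subgroup.commutator_le]
    intro s _ s' _
    rw [MulAction.mem_stabilizer_iff, commutatorElement_def, mul_smul, mul_smul, mul_smul,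
      hcomm s⁻¹ s'⁻¹, smul_inv_smul, smul_inv_smul]
  exact fun g hg => h1 hg

/-- a central involution of the image of a `2`-group in the permutations of an orbit -/
theorem exists_involution {S α : Type*} [Group S] [Finite S] [MulAction S α] (hp : IsPGroup 2 S)
    {t : α} (h : ∃ s : S, s • t ≠ t) :
    ∃ z : S, z • t ≠ t ∧ z • z • t = t ∧ ∀ s : S, z • s • t = s • z • t := by
  set N := (MulAction.stabilizer S t).normalCore with hN
  have hmem : ∀ k ∈ N, ∀ s : S, k • s • t = s • t := by
    intro k hk s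
    have h1 := (inferInstance : N.Normal).conj_mem k hk s⁻¹
    have h2 := Subgroup.normalCore_le _ h1
    rw [MulAction.mem_stabilizer_iff, inv_inv, mul_smul, mul_smul, inv_smul_eq_iff] at h2
    exact h2
  have hmem' : ∀ k : S, (∀ s : S, k • s • t = s • t) → k ∈ N := by
    intro k hk b
    rw [MulAction.mem_stabilizer_iff, mul_smul, mul_smul, hk b⁻¹, smul_inv_smul]
  have hnt : Nontrivial (S ⧸ N) := by
    obtain ⟨s, hs⟩ := h
    refine ⟨(s : S ⧸ N), 1, fun h1 => hs ?_⟩
    have h2 : s ∈ N := (QuotientGroup.eq_one_iff s).mp h1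
    have h3 := hmem s h2 1
    rwa [one_smul] at h3
  have hpQ : IsPGroup 2 (S ⧸ N) := hp.to_quotient N
  have hcen : Nontrivial (Subgroup.center (S ⧸ N)) := hpQ.center_nontrivial
  have hpC : IsPGroup 2 (Subgroup.center (S ⧸ N)) := hpQ.to_subgroup _
  have h2 : 2 ∣ Nat.card (Subgroup.center (S ⧸ N)) := by
    obtain ⟨n, hn, hn'⟩ := hpC.nontrivial_iff_card.mp hcen
    rw [hn']
    exact dvd_pow_self 2 hn.ne'
  obtain ⟨ζ, hζ⟩ := exists_prime_orderOf_dvd_card' 2 h2
  obtain ⟨z, hz⟩ := QuotientGroup.mk_surjective (ζ : S ⧸ N)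
  have hζ1 : (ζ : S ⧸ N) ≠ 1 := by
    intro h1
    have h3 : ζ = 1 := Subtype.ext h1
    rw [h3, orderOf_one] at hζ
    norm_num at hζ
  have hzN : z ∉ N := fun h1 => hζ1 (by rw [← hz]; exact (QuotientGroup.eq_one_iff z).mpr h1)
  have hz2 : z * z ∈ N := by
    rw [← QuotientGroup.eq_one_iff, QuotientGroup.mk_mul, hz, ← sq]
    have h3 : ζ ^ 2 = 1 := by rw [← hζ]; exact pow_orderOf_eq_one ζ
    exact congrArg (fun w : Subgroup.center (S ⧸ N) => (w : S ⧸ N)) h3
  have hzc : ∀ s : S, z * s * z⁻¹ * s⁻¹ ∈ N := by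
    intro s
    rw [← QuotientGroup.eq_one_iff, QuotientGroup.mk_mul, QuotientGroup.mk_mul,
      QuotientGroup.mk_mul, QuotientGroup.mk_inv, QuotientGroup.mk_inv, hz]
    have h3 := (Subgroup.mem_center_iff.mp ζ.2) (s : S ⧸ N)
    rw [← h3]
    group
  have hcomm : ∀ s : S, z • s • t = s • z • t := by
    intro s
    have h3 := hmem _ (hzc s) (s * z)
    rw [← mul_smul, ← mul_smul] at *
    have h4 : z * s * z⁻¹ * s⁻¹ * (s * z) = z * s := by group
    rw [h4] at h3
    exact h3
  refine ⟨z, fun h1 => hzN (hmem' z fun s => ?_), ?_, hcomm⟩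
  · rw [hcomm, h1]
  · have h3 := hmem _ hz2 1
    rw [one_smul, mul_smul] at h3
    exact h3

variable {Λ : Type*} [Field Λ] [Algebra ℂ Λ] {D : Derivation ℂ Λ Λ}

/-- solutions of the Riccati equation -/
def Sol (D : Derivation ℂ Λ Λ) (a b c x : Λ) : Prop := D x = a * x ^ 2 + b * x + c

theorem Sol.D_sub {a b c x y : Λ} (hx : Sol D a b c x) (hy : Sol D a b c y) :
    D (x - y) = (x - y) * (a * (x + y) + b) := by
  rw [map_sub, hx, hy]
  ring

/-- the cross-ratio of four solutions is constant -/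
theorem exists_cross (hconst : ∀ x : Λ, D x = 0 → ∃ c : ℂ, algebraMap ℂ Λ c = x)
    {a b c x y z w : Λ} (hx : Sol D a b c x) (hy : Sol D a b c y) (hz : Sol D a b c z)
    (hw : Sol D a b c w) (hxw : x ≠ w) (hyz : y ≠ z) :
    ∃ k : ℂ, (x - z) * (y - w) = algebraMap ℂ Λ k * ((x - w) * (y - z)) := by
  have h0 : (x - w) * (y - z) ≠ 0 := mul_ne_zero (sub_ne_zero.mpr hxw) (sub_ne_zero.mpr hyz)
  obtain ⟨k, hk⟩ := hconst ((x - z) * (y - w) / ((x - w) * (y - z))) (by
    rw [Derivation.leibniz_div, Derivation.leibniz, Derivation.leibniz, hx.D_sub hz,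
      hy.D_sub hw, hx.D_sub hw, hy.D_sub hz]
    simp only [smul_eq_mul]
    ring)
  refine ⟨k, ?_⟩
  rw [hk, div_mul_cancel₀ _ h0]

section Main

variable {S : Type*} [Group S] [MulSemiringAction S Λ]

theorem Sol.smul (hD : ∀ (s : S) (x : Λ), D (s • x) = s • D x) {a b c x : Λ}
    (ha : ∀ s : S, s • a = a) (hb : ∀ s : S, s • b = b) (hc : ∀ s : S, s • c = c)
    (hx : Sol D a b c x) (s : S) : Sol D a b c (s • x) := by
  rw [Sol, hD, hx, smul_add, smul_add, smul_mul', smul_mul', smul_pow', ha, hb, hc]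

/-- the pairs of an involution: the quadratic polynomials of the pairs `{s t, s t'}` -/
theorem rel_pairs (hconst : ∀ x : Λ, D x = 0 → ∃ c : ℂ, algebraMap ℂ Λ c = x)
    (hD : ∀ (s : S) (x : Λ), D (s • x) = s • D x)
    (hℂ : ∀ (s : S) (c : ℂ), s • algebraMap ℂ Λ c = algebraMap ℂ Λ c) {a b c t t' : Λ}
    (ha : ∀ s : S, s • a = a) (hb : ∀ s : S, s • b = b) (hc : ∀ s : S, s • c = c)
    (ht : Sol D a b c t) {z : S} (hz : z • t = t') (hz' : z • t' = t)
    (h1 : ∀ s : S, z • s • t = s • t') (r s : S) :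
    (t - r • t) * (t - r • t') * ((t' - s • t) * (t' - s • t')) =
      (t' - r • t) * (t' - r • t') * ((t - s • t) * (t - s • t')) := by
  by_cases h3 : t = s • t
  · have h4 : t' = s • t' := by
      have h5 := h1 s
      rw [← h3, hz] at h5
      exact h5
    rw [← h3, ← h4]
    ring
  by_cases h4 : t' = r • t
  · have h5 : t = r • t' := by
      have h6 := h1 r
      rw [← h4, hz'] at h6
      exact h6
    rw [← h5, ← h4]
    ring
  have ht' : Sol D a b c t' := hz ▸ ht.smul hD ha hb hc z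
  obtain ⟨k, hk⟩ := exists_cross hconst ht ht' (ht.smul hD ha hb hc r) (ht.smul hD ha hb hc s)
    h3 h4
  have hk2 := congrArg (fun x => z • x) hk
  simp only [smul_mul', smul_sub, hz, hz', h1, hℂ] at hk2
  linear_combination (t - r • t') * (t' - s • t') * hk - (t' - r • t) * (t - s • t) * hk2

/-- the second derived group fixes every solution in an orbit -/
theorem derivedSeries_two_fixes [Finite S] (hp : IsPGroup 2 S)
    (hconst : ∀ x : Λ, D x = 0 → ∃ c : ℂ, algebraMap ℂ Λ c = x)
    (hD : ∀ (s : S) (x : Λ), D (s • x) = s • D x)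
    (hℂ : ∀ (s : S) (c : ℂ), s • algebraMap ℂ Λ c = algebraMap ℂ Λ c) {a b c t : Λ}
    (ha : ∀ s : S, s • a = a) (hb : ∀ s : S, s • b = b) (hc : ∀ s : S, s • c = c)
    (ht : Sol D a b c t) : ∀ g ∈ derivedSeries S 2, g • t = t := by
  have h20 : (2 : Λ) ≠ 0 := by
    have : CharZero Λ := charZero_of_injective_algebraMap (algebraMap ℂ Λ).injective
    exact two_ne_zero
  by_cases hmove : ∃ s : S, s • t ≠ t
  swap
  · push Not at hmove
    exact fun g _ => hmove g
  obtain ⟨z, hzt, hzz, hcomm⟩ := exists_involution hp hmove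
  obtain ⟨t', hz⟩ : ∃ t', z • t = t' := ⟨_, rfl⟩
  rw [hz] at hzz hzt
  have h1 : ∀ s : S, z • s • t = s • t' := fun s => by rw [hcomm, hz]
  have h2 : ∀ s : S, z • s • t' = s • t := fun s => by
    have := hcomm (s * z)
    rw [mul_smul, mul_smul, hz, hzz] at this
    exact this
  by_cases horb : ∀ s : S, s • t = t ∨ s • t = t'
  · intro g hg
    exact commutator_fixes horb g (derivedSeries_antitone S (by norm_num : 1 ≤ 2) hg)
  push Not at horb
  obtain ⟨r, hr1, hr2⟩ := horb
  have hr3 : r • t' ≠ t := by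
    intro h
    apply hr2
    rw [← h2, h, hz]
  have hr4 : r • t' ≠ t' := by
    intro h
    apply hr1
    rw [← h2, h, hzz]
  have ht' : Sol D a b c t' := hz ▸ ht.smul hD ha hb hc z
  obtain ⟨T, hT⟩ : ∃ T, r • t = T := ⟨_, rfl⟩
  obtain ⟨T', hT'⟩ : ∃ T', r • t' = T' := ⟨_, rfl⟩
  have hTs : Sol D a b c T := hT ▸ ht.smul hD ha hb hc r
  have hTs' : Sol D a b c T' := hT' ▸ ht'.smul hD ha hb hc r
  rw [hT] at hr1 hr2
  rw [hT'] at hr3 hr4
  have d1 : t - T ≠ 0 := sub_ne_zero.mpr hr1.symm
  have d2 : t' - T ≠ 0 := sub_ne_zero.mpr hr2.symm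
  have d3 : t - T' ≠ 0 := sub_ne_zero.mpr hr3.symm
  have d4 : t' - T' ≠ 0 := sub_ne_zero.mpr hr4.symm
  have d5 : t - t' ≠ 0 := sub_ne_zero.mpr hzt.symm
  -- the involution
  obtain ⟨α, hα⟩ : ∃ α, α = (T + T') - (t + t') := ⟨_, rfl⟩
  obtain ⟨β, hβ⟩ : ∃ β, β = t * t' - T * T' := ⟨_, rfl⟩
  obtain ⟨γ, hγ⟩ : ∃ γ, γ = T * T' * (t + t') - t * t' * (T + T') := ⟨_, rfl⟩
  have hdisc : β ^ 2 - α * γ = (t - T) * (t - T') * ((t' - T) * (t' - T')) := by
    rw [hα, hβ, hγ]
    ring
  have hdisc0 : β ^ 2 - α * γ ≠ 0 := by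
    rw [hdisc]
    exact mul_ne_zero (mul_ne_zero d1 d3) (mul_ne_zero d2 d4)
  obtain ⟨k, hk⟩ := exists_cross hconst ht ht' hTs hTs' hr3.symm hr2.symm
  obtain ⟨κ, hκ⟩ := IsAlgClosed.exists_pow_nat_eq k (n := 2) (by norm_num)
  have hκ' : algebraMap ℂ Λ κ ^ 2 = algebraMap ℂ Λ k := by rw [← map_pow, hκ]
  -- a fixed point of the involution
  obtain ⟨u, hu⟩ : ∃ u, α * u ^ 2 + 2 * β * u + γ = 0 := by
    by_cases h0 : α = 0
    · have hβ0 : β ≠ 0 := by
        intro h
        apply hdisc0
        rw [h, h0]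
        ring
      refine ⟨-γ / (2 * β), ?_⟩
      rw [h0]
      field_simp
      ring
    · refine ⟨(-β + algebraMap ℂ Λ κ * ((t - T') * (t' - T))) / α, ?_⟩
      field_simp
      linear_combination ((t - T') * (t' - T)) ^ 2 * hκ' - hdisc -
        ((t - T') * (t' - T)) * hk
  have hu0 : α * u + β ≠ 0 := by
    intro h
    apply hdisc0
    linear_combination (α * u + β) * h - α * hu
  have hus : Sol D a b c u := by
    have h3 : D (α * u ^ 2 + (β * u + β * u) + γ) = 0 := by
      have : α * u ^ 2 + (β * u + β * u) + γ = 0 := by linear_combination hu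
      rw [this, map_zero]
    have h4 : (2 * (α * u + β)) * (D u - (a * u ^ 2 + b * u + c)) = 0 := by
      have et : D t = a * t ^ 2 + b * t + c := ht
      have et' : D t' = a * t' ^ 2 + b * t' + c := ht'
      have eT : D T = a * T ^ 2 + b * T + c := hTs
      have eT' : D T' = a * T' ^ 2 + b * T' + c := hTs'
      rw [hα, hβ, hγ] at h3
      simp only [map_add, map_sub, Derivation.leibniz, Derivation.leibniz_pow, smul_eq_mul,
        nsmul_eq_mul, et, et', eT, eT'] at h3
      rw [hα, hβ, hγ] at hu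
      rw [hα, hβ]
      push_cast at h3
      linear_combination h3 - (2 * a * u + a * (t + t' + T + T') + 3 * b) * hu
    have h5 := (mul_eq_zero.mp h4).resolve_left (mul_ne_zero h20 hu0)
    exact sub_eq_zero.mp h5
  have htu : t - u ≠ 0 := by
    intro h
    have h3 : u = t := (sub_eq_zero.mp h).symm
    rw [h3] at hu
    have h4 : (t - t') * ((t - T) * (t - T')) = 0 := by
      rw [hα, hβ, hγ] at hu
      linear_combination -hu
    exact (mul_ne_zero d5 (mul_ne_zero d1 d3)) h4
  -- invariance of the involution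
  have hlam : ∀ s : S, ∃ l : Λ, s • t + s • t' = l * (T + T') + (1 - l) * (t + t') ∧
      s • t * s • t' = l * (T * T') + (1 - l) * (t * t') := by
    intro s
    have h3 := rel_pairs hconst hD hℂ ha hb hc ht hz hzz h1 r s
    rw [hT, hT'] at h3
    have h4 : (t - T) * (t - T') ≠ 0 := mul_ne_zero d1 d3
    obtain ⟨l, hl⟩ : ∃ l, l = ((t - s • t) * (t - s • t')) / ((t - T) * (t - T')) := ⟨_, rfl⟩
    have h5 : (t - s • t) * (t - s • t') = l * ((t - T) * (t - T')) := by
      rw [hl, div_mul_cancel₀ _ h4]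
    have h6 : (t' - s • t) * (t' - s • t') = l * ((t' - T) * (t' - T')) := by
      apply mul_left_cancel₀ h4
      rw [h3, h5]
      ring
    have h7 : (s • t + s • t' - (l * (T + T') + (1 - l) * (t + t'))) * (t - t') = 0 := by
      linear_combination h6 - h5
    have h8 := (mul_eq_zero.mp h7).resolve_right d5
    refine ⟨l, sub_eq_zero.mp h8, ?_⟩
    linear_combination h5 + t * h8
  have hroot : ∀ s : S, α * (s • u) ^ 2 + 2 * β * s • u + γ = 0 := by
    intro s
    obtain ⟨l, hl1, hl2⟩ := hlam s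
    obtain ⟨l', hl3, hl4⟩ := hlam (s * r)
    rw [mul_smul, mul_smul, hT, hT'] at hl3 hl4
    have e1 : s • α = (l' - l) * α := by
      rw [hα, smul_sub, smul_add, smul_add, hl3, hl1]
      ring
    have e2 : s • β = (l' - l) * β := by
      rw [hβ, smul_sub, smul_mul', smul_mul', hl2, hl4]
      ring
    have e3 : s • γ = (l' - l) * γ := by
      rw [hγ, smul_sub, smul_mul', smul_mul', smul_mul', smul_mul', smul_add, smul_add,
        hl1, hl2, hl3, hl4]
      ring
    have e4 : s • (2 : Λ) = 2 := by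
      have := hℂ s 2
      rwa [map_ofNat] at this
    have h3 := congrArg (fun x => s • x) hu
    simp only [smul_add, smul_mul', smul_pow', smul_zero, e1, e2, e3, e4] at h3
    have h4 : (l' - l) * (α * (s • u) ^ 2 + 2 * β * s • u + γ) = 0 := by
      linear_combination h3
    refine (mul_eq_zero.mp h4).resolve_left fun h5 => hdisc0 ?_
    rw [h5, zero_mul] at e1 e2
    have e5 : α = 0 := by
      have := congrArg (fun x => s⁻¹ • x) e1
      simpa using this
    have e6 : β = 0 := by
      have := congrArg (fun x => s⁻¹ • x) e2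
      simpa using this
    rw [e5, e6]
    ring
  have hufix : ∀ g ∈ derivedSeries S 1, g • u = u := by
    apply commutator_fixes (x' := -(2 * β) / α - u)
    intro s
    have h3 : (s • u - u) * (α * (s • u + u) + 2 * β) = 0 := by
      linear_combination hroot s - hu
    rcases mul_eq_zero.mp h3 with h4 | h4
    · exact Or.inl (sub_eq_zero.mp h4)
    · right
      have hα0 : α ≠ 0 := by
        intro h0
        apply hdisc0
        rw [h0, zero_mul, zero_add] at h4
        have h5 : β = 0 := (mul_eq_zero.mp h4).resolve_left h20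
        rw [h5, h0]
        ring
      field_simp
      linear_combination h4
  -- the linear equation
  obtain ⟨v, hv⟩ : ∃ v, v = (t - u)⁻¹ := ⟨_, rfl⟩
  have hv1 : v * (t - u) = 1 := by rw [hv, inv_mul_cancel₀ htu]
  have hDv : D v = -(2 * a * u + b) * v - a := by
    rw [hv, Derivation.leibniz_inv, ht.D_sub hus, ← hv]
    simp only [smul_eq_mul]
    linear_combination (-(v * (a * (t + u) + b)) - a) * hv1
  classical
  have hfin : Fintype (derivedSeries S 1) := Fintype.ofFinite _
  obtain ⟨w, hw⟩ : ∃ w : Λ, w = ∑ h : derivedSeries S 1, (h : S) • v := ⟨_, rfl⟩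
  obtain ⟨n, hn⟩ : ∃ n : ℕ, n = Fintype.card (derivedSeries S 1) := ⟨_, rfl⟩
  have hn0 : (n : Λ) ≠ 0 := by
    have : CharZero Λ := charZero_of_injective_algebraMap (algebraMap ℂ Λ).injective
    rw [Nat.cast_ne_zero, hn]
    exact Fintype.card_ne_zero
  have hnfix : ∀ g : S, g • (n : Λ) = n := by
    intro g
    have := hℂ g n
    rwa [map_natCast] at this
  have hwfix : ∀ g ∈ derivedSeries S 1, g • w = w := by
    intro g hg
    rw [hw, Finset.smul_sum]
    refine Fintype.sum_equiv (Equiv.mulLeft (⟨g, hg⟩ : derivedSeries S 1)) _ _ fun h => ?_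
    rw [Equiv.coe_mulLeft, Subgroup.coe_mul, mul_smul]
  obtain ⟨y, hy⟩ : ∃ y : Λ, y = n * v - w := ⟨_, rfl⟩
  have hgy : ∀ g ∈ derivedSeries S 1, g • y = n * g • v - w := by
    intro g hg
    rw [hy, smul_sub, smul_mul', hnfix, hwfix g hg]
  -- it is enough that `g` fixes `y`
  have hend : ∀ g ∈ derivedSeries S 1, g • y = y → g • t = t := by
    intro g hg h3
    rw [hgy g hg, hy] at h3
    have h4 : (n : Λ) * (g • v - v) = 0 := by linear_combination h3
    have h5 : g • v = v := sub_eq_zero.mp ((mul_eq_zero.mp h4).resolve_left hn0)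
    have h6 : t = u + v⁻¹ := by rw [hv, inv_inv]; ring
    rw [h6, smul_add, smul_inv'', h5, hufix g hg]
  intro g hg
  have hg1 : g ∈ derivedSeries S 1 := derivedSeries_antitone S (by norm_num : 1 ≤ 2) hg
  apply hend g hg1
  by_cases hy0 : y = 0
  · rw [hy0, smul_zero]
  have hDy : D y = -(2 * a * u + b) * y := by
    have h3 : D w = ∑ h : derivedSeries S 1, (-(2 * a * u + b) * (h : S) • v - a) := by
      rw [hw, map_sum]
      refine Finset.sum_congr rfl fun h _ => ?_
      have e4 : (h : S) • (2 : Λ) = 2 := by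
        have := hℂ h 2
        rwa [map_ofNat] at this
      rw [hD, hDv, smul_sub, smul_mul', smul_neg, smul_add, smul_mul', smul_mul', ha, hb,
        hufix h h.2, e4]
    have h4 : D (n : Λ) = 0 := by simp
    rw [Finset.sum_sub_distrib, ← Finset.mul_sum, ← hw, Finset.sum_const, Finset.card_univ,
      ← hn, nsmul_eq_mul] at h3
    rw [hy, map_sub, Derivation.leibniz, h3, h4, hDv]
    simp only [smul_eq_mul]
    ring
  have hcy : ∀ g ∈ derivedSeries S 1, ∃ k : ℂ, g • y = algebraMap ℂ Λ k * y := by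
    intro g hg
    have e4 : g • (2 : Λ) = 2 := by
      have := hℂ g 2
      rwa [map_ofNat] at this
    have h3 : D (g • y) = -(2 * a * u + b) * g • y := by
      rw [hD, hDy, smul_mul', smul_neg, smul_add, smul_mul', smul_mul', ha, hb, hufix g hg, e4]
    obtain ⟨k, hk⟩ := hconst (g • y / y) (by
      rw [Derivation.leibniz_div, h3, hDy]
      simp only [smul_eq_mul]
      ring)
    refine ⟨k, ?_⟩
    rw [hk, div_mul_cancel₀ _ hy0]
  have hcomm2 : ∀ g ∈ derivedSeries S 1, ∀ g' ∈ derivedSeries S 1, g • g' • y = g' • g • y := by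
    intro g hg g' hg'
    obtain ⟨k, hk⟩ := hcy g hg
    obtain ⟨k', hk'⟩ := hcy g' hg'
    rw [hk, hk', smul_mul', smul_mul', hℂ, hℂ, hk, hk']
    ring
  have hle : derivedSeries S 2 ≤ MulAction.stabilizer S y := by
    rw [derivedSeries_succ, Subgroup.commutator_le]
    intro g hg g' hg'
    rw [MulAction.mem_stabilizer_iff, commutatorElement_def, mul_smul, mul_smul, mul_smul,
      hcomm2 g⁻¹ (inv_mem hg) g'⁻¹ (inv_mem hg'), smul_inv_smul, smul_inv_smul]
  exact hle hg

end Main

end Pool.Agent.Helper19.LU
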