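import Pool.Agent.Helper19.LU.Gal
import Pool.Agent.Helper19.LU.Ric
import Pool.Agent.Helper19.LU.Dtil

/-!
# Algebraic extensions of differential fields
-/

open Polynomial IntermediateField
open scoped commutatorElement

namespace Pool.Agent.Helper19.LU

section Dif

variable {E L : Type*} [Field E] [Field L] [Algebra E L] [Algebra ℂ L] {D : Derivation ℂ L L}
  {d : E →+ E}

/-- derivative of the coefficients -/
noncomputable def Dcc (d : E →+ E) (p : E[X]) : E[X] :=
  ∑ i ∈ Finset.range (p.natDegree + 1), monomial i (d (p.coeff i))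

theorem Dcc_coeff (p : E[X]) (n : ℕ) : (Dcc d p).coeff n = d (p.coeff n) := by
  rw [Dcc, finsetSum_coeff]
  simp_rw [coeff_monomial]
  by_cases hn : n ≤ p.natDegree
  · rw [Finset.sum_ite_eq' (Finset.range (p.natDegree + 1)) n, if_pos]
    exact Finset.mem_range.mpr (by omega)
  · rw [Finset.sum_ite_eq' (Finset.range (p.natDegree + 1)) n, if_neg,
      coeff_eq_zero_of_natDegree_lt (by omega), map_zero]
    rw [Finset.mem_range]
    omega

theorem Dcc_add (p q : E[X]) : Dcc d (p + q) = Dcc d p + Dcc d q := by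
  ext n
  rw [Dcc_coeff, coeff_add, coeff_add, Dcc_coeff, Dcc_coeff, map_add]

theorem Dcc_monomial (n : ℕ) (a : E) : Dcc d (monomial n a) = monomial n (d a) := by
  ext m
  rw [Dcc_coeff, coeff_monomial, coeff_monomial]
  split_ifs
  · rfl
  · rw [map_zero]

theorem D_aeval' (hd : ∀ a, D (algebraMap E L a) = algebraMap E L (d a)) (t : L) (p : E[X]) :
    D (aeval t p) = aeval t (Dcc d p) + aeval t (derivative p) * D t := by
  induction p using Polynomial.induction_on' with
  | add p q hp hq =>
    rw [map_add, map_add, hp, hq, Dcc_add, derivative_add, map_add, map_add]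
    ring
  | monomial n a =>
    rw [Dcc_monomial, derivative_monomial, aeval_monomial, aeval_monomial, aeval_monomial,
      Derivation.leibniz, Derivation.leibniz_pow, hd, map_mul, map_natCast]
    simp only [smul_eq_mul, nsmul_eq_mul]
    ring

variable [CharZero E]

theorem D_eq_div (hd : ∀ a, D (algebraMap E L a) = algebraMap E L (d a)) {t : L}
    (ht : IsIntegral E t) :
    D t = -aeval t (Dcc d (minpoly E t)) / aeval t (derivative (minpoly E t)) := by
  have h1 := D_aeval' hd t (minpoly E t)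
  rw [minpoly.aeval, map_zero] at h1
  have h2 : aeval t (derivative (minpoly E t)) ≠ 0 :=
    (minpoly.irreducible ht).separable.aeval_derivative_ne_zero (minpoly.aeval E t)
  rw [eq_div_iff h2]
  linear_combination -h1

theorem D_mem_adjoin (hd : ∀ a, D (algebraMap E L a) = algebraMap E L (d a)) {t : L}
    (ht : IsIntegral E t) : D t ∈ E⟮t⟯ := by
  rw [D_eq_div hd ht]
  have h1 : ∀ p : E[X], aeval t p ∈ E⟮t⟯ := by
    intro p
    have h2 : aeval t p = ((aeval (⟨t, mem_adjoin_simple_self E t⟩ : E⟮t⟯) p : E⟮t⟯) : L) :=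
      aeval_algHom_apply (E⟮t⟯).val (⟨t, mem_adjoin_simple_self E t⟩ : E⟮t⟯) p
    rw [h2]
    exact SetLike.coe_mem _
  exact div_mem (neg_mem (h1 _)) (h1 _)

theorem D_algEquiv (hd : ∀ a, D (algebraMap E L a) = algebraMap E L (d a)) (σ : L ≃ₐ[E] L) {t : L}
    (ht : IsIntegral E t) : D (σ t) = σ (D t) := by
  have hσ : IsIntegral E (σ t) := ht.map σ.toAlgHom
  have h1 : minpoly E (σ t) = minpoly E t := minpoly.algEquiv_eq σ t
  have h2 : ∀ p : E[X], aeval (σ t) p = σ (aeval t p) := fun p => aeval_algHom_apply σ.toAlgHom t p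
  rw [D_eq_div hd hσ, D_eq_div hd ht, h1, h2, h2, map_div₀, map_neg]

theorem const_of_algebraic [Algebra ℂ E] [IsScalarTower ℂ E L]
    (hd : ∀ a, D (algebraMap E L a) = algebraMap E L (d a))
    (hconst : ∀ a, d a = 0 → ∃ c : ℂ, algebraMap ℂ E c = a) {t : L} (ht : IsIntegral E t)
    (h0 : D t = 0) : ∃ c : ℂ, algebraMap ℂ L c = t := by
  have h1 := D_aeval' hd t (minpoly E t)
  rw [minpoly.aeval, map_zero, h0, mul_zero, add_zero] at h1
  have hd1 : d 1 = 0 := by
    apply (algebraMap E L).injective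
    rw [← hd, map_one, Derivation.map_one_eq_zero, map_zero]
  have h2 : Dcc d (minpoly E t) = 0 := by
    by_contra hne
    have h3 := minpoly.degree_le_of_ne_zero E t hne h1.symm
    have h4 : (Dcc d (minpoly E t)).degree < (minpoly E t).degree := by
      rw [degree_eq_natDegree (minpoly.ne_zero ht), degree_lt_iff_coeff_zero]
      intro m hm
      rw [Dcc_coeff]
      rcases hm.eq_or_lt with rfl | hm
      · rw [(minpoly.monic ht).coeff_natDegree, hd1]
      · rw [coeff_eq_zero_of_natDegree_lt hm, map_zero]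
    exact absurd h4 (not_lt.mpr h3)
  have h3 : ∀ i, ∃ c : ℂ, algebraMap ℂ E c = (minpoly E t).coeff i := by
    intro i
    apply hconst
    rw [← Dcc_coeff, h2, coeff_zero]
  choose f hf using h3
  set p : ℂ[X] := ∑ i ∈ Finset.range ((minpoly E t).natDegree + 1), monomial i (f i) with hp
  have h4 : p.map (algebraMap ℂ E) = minpoly E t := by
    rw [hp, Polynomial.map_sum]
    simp_rw [map_monomial, hf]
    exact (as_sum_range' _ _ (Nat.lt_succ_self _)).symm
  have h5 : aeval t p = 0 := by
    rw [← aeval_map_algebraMap E, h4, minpoly.aeval]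
  have h6 : p ≠ 0 := by
    intro h
    rw [h, Polynomial.map_zero] at h4
    exact minpoly.ne_zero ht h4.symm
  have h7 : IsAlgebraic ℂ t := ⟨p, h6, h5⟩
  have h8 : Algebra.IsAlgebraic ℂ ℂ⟮t⟯ := isAlgebraic_adjoin_simple h7.isIntegral
  have h9 : ℂ⟮t⟯ = ⊥ := IntermediateField.eq_bot_of_isAlgClosed_of_isAlgebraic ℂ⟮t⟯
  have h10 : t ∈ ℂ⟮t⟯ := mem_adjoin_simple_self ℂ t
  rw [h9, IntermediateField.mem_bot] at h10
  exact h10

end Dif

end Pool.Agent.Helper19.LU
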