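import Mathlib

/-!
# Finite groups acting on the solutions of the differential equation of elliptic functions
-/

open scoped commutatorElement WeierstrassCurve.Affine WeierstrassCurve

namespace Pool.Agent.Helper19.LU

section Ell

variable {Λ : Type*} [Field Λ] [Algebra ℂ Λ] {D : Derivation ℂ Λ Λ}

/-- the derivative of the `x`-coordinate of the difference of two solutions -/
theorem D_addX {a p q x₁ x₂ y₁ y₂ l : Λ} (hp : D p = 0) (hq : D q = 0)
    (e₁ : y₁ ^ 2 = x₁ ^ 3 + p * x₁ + q) (e₂ : y₂ ^ 2 = x₂ ^ 3 + p * x₂ + q)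
    (d₁ : D x₁ = a * y₁) (d₂ : D x₂ = a * y₂) (hy₁ : y₁ ≠ 0) (hy₂ : y₂ ≠ 0) (hx : x₁ ≠ x₂)
    (hl : l * (x₁ - x₂) = y₁ + y₂) : D (l ^ 2 - x₁ - x₂) = 0 := by
  have hD : ∀ x y : Λ, y ^ 2 = x ^ 3 + p * x + q → D x = a * y → y ≠ 0 →
      2 * D y = a * (3 * x ^ 2 + p) := by
    intro x y e d hy
    have h1 := congrArg D e
    simp only [map_add, Derivation.leibniz, Derivation.leibniz_pow, smul_eq_mul, nsmul_eq_mul,
      hp, hq, d] at h1
    push_cast at h1
    apply mul_right_cancel₀ hy
    linear_combination h1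
  have h1 := hD x₁ y₁ e₁ d₁ hy₁
  have h2' := hD x₂ y₂ e₂ d₂ hy₂
  have hx0 : x₁ - x₂ ≠ 0 := sub_ne_zero.mpr hx
  have h3 := congrArg D hl
  simp only [map_add, map_sub, Derivation.leibniz, smul_eq_mul, d₁, d₂] at h3
  have h4 : 2 * D l = a * (x₁ - x₂) := by
    apply mul_right_cancel₀ (pow_ne_zero 2 hx0)
    linear_combination 2 * (x₁ - x₂) * h3 + (x₁ - x₂) * h1 + (x₁ - x₂) * h2' -
      2 * a * (y₁ - y₂) * hl - 2 * a * e₁ + 2 * a * e₂
  simp only [map_sub, Derivation.leibniz_pow, smul_eq_mul, nsmul_eq_mul, d₁, d₂]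
  push_cast
  linear_combination l * h4 + a * hl

variable {S : Type*} [Group S] [MulSemiringAction S Λ]

theorem fix_of_comm {α : Type*} [MulAction S α] {x : α}
    (h : ∀ s s' : S, s • s' • x = s' • s • x) : ∀ g ∈ derivedSeries S 1, g • x = x := by
  have h1 : derivedSeries S 1 ≤ MulAction.stabilizer S x := by
    rw [derivedSeries_succ, derivedSeries_zero, Subgroup.commutator_le]
    intro s _ s' _
    rw [MulAction.mem_stabilizer_iff, commutatorElement_def, mul_smul, mul_smul, mul_smul,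
      h s⁻¹ s'⁻¹, smul_inv_smul, smul_inv_smul]
  exact fun g hg => h1 hg

theorem derivedSeries_one_fixes (hconst : ∀ x : Λ, D x = 0 → ∃ c : ℂ, algebraMap ℂ Λ c = x)
    (hD : ∀ (s : S) (x : Λ), D (s • x) = s • D x)
    (hℂ : ∀ (s : S) (c : ℂ), s • algebraMap ℂ Λ c = algebraMap ℂ Λ c) {a t y : Λ} {p q : ℂ}
    (ha : ∀ s : S, s • a = a) (e : y ^ 2 = t ^ 3 + algebraMap ℂ Λ p * t + algebraMap ℂ Λ q)
    (d : D t = a * y) : ∀ g ∈ derivedSeries S 1, g • t = t ∧ g • y = y := by
  classical
  have h20 : (2 : Λ) ≠ 0 := by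
    have : CharZero Λ := charZero_of_injective_algebraMap (algebraMap ℂ Λ).injective
    exact two_ne_zero
  have hfix : ∀ x : Λ, D x = 0 → ∀ s : S, s • x = x := by
    intro x hx s
    obtain ⟨c, rfl⟩ := hconst x hx
    exact hℂ s c
  have hpq : ∀ c : ℂ, D (algebraMap ℂ Λ c) = 0 := fun c => D.map_algebraMap c
  have hy' : ∀ x z : Λ, D x = 0 →
      z ^ 2 = x ^ 3 + algebraMap ℂ Λ p * x + algebraMap ℂ Λ q → D z = 0 := by
    intro x z hx hz
    have h1 := congrArg D hz
    simp only [map_add, Derivation.leibniz, Derivation.leibniz_pow, smul_eq_mul, nsmul_eq_mul,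
      hpq, hx] at h1
    push_cast at h1
    have h2 : (2 * z) * D z = 0 := by linear_combination h1
    rcases mul_eq_zero.mp h2 with h3 | h3
    · have h4 := (mul_eq_zero.mp h3).resolve_left h20
      rw [h4, map_zero]
    · exact h3
  by_cases ht0 : D t = 0
  · intro g _
    exact ⟨hfix t ht0 g, hfix y (hy' t y ht0 e) g⟩
  have ha0 : a ≠ 0 := by
    intro h
    apply ht0
    rw [d, h, zero_mul]
  have hy0 : y ≠ 0 := by
    intro h
    apply ht0
    rw [d, h, mul_zero]
  -- the curve
  let W : WeierstrassCurve ℂ := ⟨0, 0, 0, p, q⟩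
  have c1 : (W⁄Λ).a₁ = 0 := by simp [W, WeierstrassCurve.baseChange]
  have c2 : (W⁄Λ).a₂ = 0 := by simp [W, WeierstrassCurve.baseChange]
  have c3 : (W⁄Λ).a₃ = 0 := by simp [W, WeierstrassCurve.baseChange]
  have c4 : (W⁄Λ).a₄ = algebraMap ℂ Λ p := by simp [W, WeierstrassCurve.baseChange]
  have c6 : (W⁄Λ).a₆ = algebraMap ℂ Λ q := by simp [W, WeierstrassCurve.baseChange]
  have hns : ∀ x z : Λ, z ≠ 0 → z ^ 2 = x ^ 3 + algebraMap ℂ Λ p * x + algebraMap ℂ Λ q →
      (W⁄Λ).toAffine.Nonsingular x z := by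
    intro x z hz h1
    rw [WeierstrassCurve.Affine.nonsingular_iff]
    refine ⟨?_, Or.inr ?_⟩
    · rw [WeierstrassCurve.Affine.equation_iff, c1, c2, c3, c4, c6]
      linear_combination h1
    · rw [c1, c3]
      intro h2
      have h3 : 2 * z = 0 := by linear_combination h2
      exact hz ((mul_eq_zero.mp h3).resolve_left h20)
  let f : S → (Λ →ₐ[ℂ] Λ) := fun s =>
    { MulSemiringAction.toRingHom S Λ s with commutes' := fun c => hℂ s c }
  have hf : ∀ s x, f s x = s • x := fun s x => rfl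
  -- transport of the equations
  have es : ∀ s : S, (s • y) ^ 2 =
      (s • t) ^ 3 + algebraMap ℂ Λ p * s • t + algebraMap ℂ Λ q := by
    intro s
    have := congrArg (fun x => s • x) e
    simpa only [smul_add, smul_mul', smul_pow', hℂ] using this
  have ds : ∀ s : S, D (s • t) = a * s • y := by
    intro s
    rw [hD, d, smul_mul', ha]
  have ys0 : ∀ s : S, s • y ≠ 0 := by
    intro s h
    apply hy0
    have := congrArg (fun x => s⁻¹ • x) h
    simpa using this
  let P : (W⁄Λ).toAffine.Point := .some t y (hns t y hy0 e)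
  have hconstpt : ∀ (x₃ y₃ : Λ) (h₃ : (W⁄Λ).toAffine.Nonsingular x₃ y₃), D x₃ = 0 → ∀ r : S,
      WeierstrassCurve.Affine.Point.map (W' := W) (f r) (.some x₃ y₃ h₃) = .some x₃ y₃ h₃ := by
    intro x₃ y₃ h₃ hd3 r
    have e3 : y₃ ^ 2 = x₃ ^ 3 + algebraMap ℂ Λ p * x₃ + algebraMap ℂ Λ q := by
      have h4 := h₃.1
      rw [WeierstrassCurve.Affine.equation_iff, c1, c2, c3, c4, c6] at h4
      linear_combination h4
    rw [WeierstrassCurve.Affine.Point.map_some]
    simp only [hf, hfix x₃ hd3 r, hfix y₃ (hy' x₃ y₃ hd3 e3) r]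
  -- the differences are constant
  have hdiff : ∀ (s r : S), WeierstrassCurve.Affine.Point.map (W' := W) (f r)
      (WeierstrassCurve.Affine.Point.map (W' := W) (f s) P - P) =
      WeierstrassCurve.Affine.Point.map (W' := W) (f s) P - P := by
    intro s r
    by_cases hx : s • t = t
    · have h1 : s • y = y := by
        have h2 := ds s
        rw [hx, d] at h2
        exact (mul_left_cancel₀ ha0 h2).symm
      have h2 : WeierstrassCurve.Affine.Point.map (W' := W) (f s) P = P := by
        rw [WeierstrassCurve.Affine.Point.map_some]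
        simp only [P, hf, hx, h1]
      rw [h2, sub_self, WeierstrassCurve.Affine.Point.map_zero]
    · have h1 : (W⁄Λ).toAffine.Nonsingular (s • t) (s • y) := hns _ _ (ys0 s) (es s)
      have hm : WeierstrassCurve.Affine.Point.map (W' := W) (f s) P = .some (s • t) (s • y) h1 :=
        rfl
      have h2 : (W⁄Λ).toAffine.Nonsingular t ((W⁄Λ).toAffine.negY t y) :=
        (WeierstrassCurve.Affine.nonsingular_neg ..).mpr (hns t y hy0 e)
      have hn : -P = .some t ((W⁄Λ).toAffine.negY t y) h2 := rfl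
      have h3 := WeierstrassCurve.Affine.Point.add_of_X_ne (h₁ := h1) (h₂ := h2) hx
      rw [← hm, ← hn, ← sub_eq_add_neg] at h3
      rw [h3]
      apply hconstpt
      rw [WeierstrassCurve.Affine.slope_of_X_ne hx]
      have h4 : (W⁄Λ).toAffine.addX (s • t) t ((s • y - (W⁄Λ).toAffine.negY t y) / (s • t - t)) =
          ((s • y + y) / (s • t - t)) ^ 2 - s • t - t := by
        simp only [WeierstrassCurve.Affine.addX, WeierstrassCurve.Affine.negY, c1, c2, c3]
        ring
      rw [h4]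
      exact D_addX (hpq p) (hpq q) (es s) e (ds s) d (ys0 s) hy0 hx
        (div_mul_cancel₀ _ (sub_ne_zero.mpr hx))
  have hcomm : ∀ s r : S, WeierstrassCurve.Affine.Point.map (W' := W) (f s)
      (WeierstrassCurve.Affine.Point.map (W' := W) (f r) P) =
      WeierstrassCurve.Affine.Point.map (W' := W) (f r)
        (WeierstrassCurve.Affine.Point.map (W' := W) (f s) P) := by
    intro s r
    have h1 := hdiff s r
    have h2 := hdiff r s
    rw [map_sub] at h1 h2
    rw [sub_eq_iff_eq_add] at h1 h2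
    rw [h1, h2]
    abel
  have hcomm2 : ∀ s r : S, s • r • t = r • s • t ∧ s • r • y = r • s • y := by
    intro s r
    have h1 := hcomm s r
    simp only [P, WeierstrassCurve.Affine.Point.map_some] at h1
    rw [WeierstrassCurve.Affine.Point.some.injEq] at h1
    exact h1
  intro g hg
  exact ⟨fix_of_comm (fun s r => (hcomm2 s r).1) g hg, fix_of_comm (fun s r => (hcomm2 s r).2) g hg⟩

end Ell

end Pool.Agent.Helper19.LU
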