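import Pool.Agent.Helper19.LU.Word
import Pool.Agent.Helper89.Germ.R1

/-!
# `x - x²` is undistorted in groups of classical germs
-/

open Filter Topology Set

open Pool.Agent.Germ

namespace Pool.Agent.Helper19.LU

/-- near `0+` the function `f` is real analytic and belongs to a classical tower -/
def ClassicalSide (f : ℝ → ℝ) : Prop :=
  ∃ h : ∀ᶠ x in 𝓝[>] (0 : ℝ), AnalyticAt ℝ f x, ∃ E, IsClassicalTower E ∧ ofR f h ∈ E

/-- a germ which is given by classical functions on both sides of `0` -/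
def IsClassical (s : GermDiff 1) : Prop :=
  ∃ f : LD 1, GermDiff.mk f = s ∧ ClassicalSide f.toFun ∧ ClassicalSide (fun x => f.toFun (-x))

theorem Loc.of_LD (f : LD 1) : Loc f.toFun where
  zero := f.map_zero'
  cont := by
    have h := f.smooth'.eventually (by simp)
    filter_upwards [h] with x hx using hx.continuousAt
  inj := by
    obtain ⟨h, h1, _⟩ := f.exists_inv
    refine ⟨_, h1, ?_⟩
    intro x hx y hy hxy
    have hx' : h.toFun (f.toFun x) = x := hx
    have hy' : h.toFun (f.toFun y) = y := hy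
    rw [← hx', hxy, hy']

theorem ClassicalSide.inTower {f : ℝ → ℝ} (h : ClassicalSide f) : ∃ C, InTower C f := by
  obtain ⟨h1, E, h2, h3⟩ := h
  obtain ⟨c, hc⟩ := h2.exists_tower
  exact ⟨c, h1, c, le_rfl, E, hc, h3⟩

theorem InTower.mono {C C' : ℕ} (h : C ≤ C') {f : ℝ → ℝ} (hf : InTower C f) : InTower C' f := by
  obtain ⟨h1, c, hc, h2⟩ := hf
  exact ⟨h1, c, hc.trans h, h2⟩

theorem IsClassical.exists_rep {s : GermDiff 1} (h : IsClassical s) :
    ∃ f : LD 1, ∃ C : ℕ, GermDiff.mk f = s ∧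
      ∀ η : ℝ, (η = 1 ∨ η = -1) → InTower C (fun x => f.toFun (η * x)) := by
  obtain ⟨f, hf, h1, h2⟩ := h
  obtain ⟨C1, hC1⟩ := h1.inTower
  obtain ⟨C2, hC2⟩ := h2.inTower
  refine ⟨f, max C1 C2, hf, ?_⟩
  rintro η (rfl | rfl)
  · simp only [one_mul]
    exact hC1.mono (le_max_left _ _)
  · simp only [neg_one_mul]
    exact hC2.mono (le_max_right _ _)

theorem exists_pow_rep {g : GermDiff 1} {f : LD 1} (hf : GermDiff.mk f = g)
    (hq : ∀ᶠ x in 𝓝 (0 : ℝ), f.toFun x = q x) (n : ℕ) :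
    ∃ G : LD 1, GermDiff.mk G = g ^ n ∧ ∀ᶠ x in 𝓝 (0 : ℝ), G.toFun x = q^[n] x := by
  induction n with
  | zero => exact ⟨LD.id 1, rfl, Eventually.of_forall fun x => rfl⟩
  | succ n ih =>
    obtain ⟨G, hG, h1⟩ := ih
    refine ⟨G.comp f, ?_, ?_⟩
    · rw [pow_succ, ← hG, ← hf]
      rfl
    · filter_upwards [hq, f.tendsto.eventually h1] with x hx hx2
      change G.toFun (f.toFun x) = _
      rw [hx2, hx, Function.iterate_succ_apply]

theorem exists_word_rep {F : GermDiff 1 → LD 1} (l : List (GermDiff 1))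
    (hl : ∀ s ∈ l, GermDiff.mk (F s) = s) :
    ∃ w : LD 1, GermDiff.mk w = l.prod ∧
      w.toFun = (l.map fun s => (F s).toFun).foldr (· ∘ ·) id := by
  induction l with
  | nil => exact ⟨LD.id 1, rfl, rfl⟩
  | cons s l ih =>
    obtain ⟨w, hw, hw2⟩ := ih fun s' hs' => hl s' (List.mem_cons_of_mem _ hs')
    refine ⟨(F s).comp w, ?_, ?_⟩
    · rw [List.prod_cons, ← hw]
      nth_rewrite 2 [← hl s List.mem_cons_self]
      rfl
    · rw [List.map_cons, List.foldr_cons, ← hw2]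
      rfl

/-- words in classical germs which represent the iterates of `x - x²` are long -/
theorem word_length {g : GermDiff 1} {f : LD 1} (hf : GermDiff.mk f = g)
    (hq : ∀ᶠ x in 𝓝 (0 : ℝ), f.toFun x = q x) (S : Finset (GermDiff 1))
    (hS : ∀ s ∈ S, IsClassical s ∧ IsClassical s⁻¹) :
    ∃ C : ℕ, ∀ (n : ℕ) (l : List (GermDiff 1)), (∀ s ∈ l, s ∈ S ∨ s⁻¹ ∈ S) → l.prod = g ^ n →
      n ≤ C * l.length := by
  classical
  have hT : ∀ s : GermDiff 1, ∃ F : LD 1, ∃ C : ℕ, (s ∈ S ∨ s⁻¹ ∈ S) → GermDiff.mk F = s ∧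
      ∀ η : ℝ, (η = 1 ∨ η = -1) → InTower C (fun x => F.toFun (η * x)) := by
    intro s
    by_cases hs : s ∈ S ∨ s⁻¹ ∈ S
    · have h1 : IsClassical s := by
        rcases hs with hs | hs
        · exact (hS s hs).1
        · have := (hS _ hs).2
          rwa [inv_inv] at this
      obtain ⟨F, C, h2, h3⟩ := h1.exists_rep
      exact ⟨F, C, fun _ => ⟨h2, h3⟩⟩
    · exact ⟨LD.id 1, 0, fun h => absurd h hs⟩
  choose F C hFC using hT
  set T : Finset (GermDiff 1) := S ∪ S.image (fun s => s⁻¹) with hTdef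
  have hmemT : ∀ s, (s ∈ S ∨ s⁻¹ ∈ S) → s ∈ T := by
    intro s hs
    rw [hTdef, Finset.mem_union, Finset.mem_image]
    rcases hs with hs | hs
    · exact Or.inl hs
    · exact Or.inr ⟨s⁻¹, hs, inv_inv s⟩
  refine ⟨∑ s ∈ T, C s, fun n l hl hprod => ?_⟩
  -- the inverse word
  set l' : List (GermDiff 1) := (l.map fun s => s⁻¹).reverse with hl'
  have hlen : l'.length = l.length := by simp [hl']
  have hprod' : l'.prod = (g ^ n)⁻¹ := by
    rw [← hprod, List.prod_inv_reverse]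
  have hl2 : ∀ s ∈ l', s ∈ S ∨ s⁻¹ ∈ S := by
    intro s hs
    rw [hl', List.mem_reverse, List.mem_map] at hs
    obtain ⟨s', hs', rfl⟩ := hs
    rw [inv_inv]
    exact (hl s' hs').symm
  obtain ⟨w, hw, hw2⟩ := exists_word_rep (F := F) l' fun s hs => (hFC s (hl2 s hs)).1
  obtain ⟨G, hG, hG2⟩ := exists_pow_rep hf hq n
  have h1 : GermDiff.mk (G.comp w) = 1 := by
    have h2 : GermDiff.mk (G.comp w) = GermDiff.mk G * GermDiff.mk w := rfl
    rw [h2, hG, hw, hprod', mul_inv_cancel]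
  rw [GermDiff.mk_one] at h1
  have h2 : ∀ᶠ x in 𝓝 (0 : ℝ), q^[n] (w.toFun x) = x := by
    filter_upwards [h1, w.tendsto.eventually hG2] with x hx hx2
    rw [← hx2]
    exact hx
  rw [hw2] at h2
  have h3 := word_bound (P := fun f => ∃ s, (s ∈ S ∨ s⁻¹ ∈ S) ∧ f = (F s).toFun)
    (C := ∑ s ∈ T, C s) ?_ (l'.map fun s => (F s).toFun) ?_ (n := n)
    (h2.filter_mono nhdsWithin_le_nhds)
  · rw [List.length_map, hlen] at h3
    exact h3
  · rintro _ ⟨s, hs, rfl⟩
    refine ⟨Loc.of_LD _, fun η hη => ((hFC s hs).2 η hη).mono ?_⟩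
    exact Finset.single_le_sum (f := C) (fun _ _ => Nat.zero_le _) (hmemT s hs)
  · intro f hf
    rw [List.mem_map] at hf
    obtain ⟨s, hs, rfl⟩ := hf
    exact ⟨s, hl2 s hs, rfl⟩

theorem undistorted {g : GermDiff 1} {f : LD 1} (hf : GermDiff.mk f = g)
    (hq : ∀ᶠ x in 𝓝 (0 : ℝ), f.toFun x = x - x ^ 2) (S : Finset (GermDiff 1))
    (hS : ∀ s ∈ S, IsClassical s ∧ IsClassical s⁻¹) :
    ∃ c : ℝ, 0 < c ∧ ∀ n : ℕ, g ^ n ∈ Subgroup.closure (S : Set (GermDiff 1)) →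
      c * n ≤ wordLen S (g ^ n) := by
  obtain ⟨C, hC⟩ := word_length hf hq S hS
  refine ⟨1 / (C + 1), by positivity, fun n hn => ?_⟩
  obtain ⟨l, hl1, hl2, hl3⟩ := exists_word S (g ^ n) hn
  have h1 := hC n l hl2 hl3
  rw [hl1] at h1
  have h2 : (n : ℝ) ≤ C * wordLen S (g ^ n) := by exact_mod_cast h1
  have h3 : (0 : ℝ) ≤ wordLen S (g ^ n) := Nat.cast_nonneg _
  rw [one_div, inv_mul_le_iff₀ (by positivity)]
  nlinarith

end Pool.Agent.Helper19.LU
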