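import Mathlib

/-!
# The field of germs at `0+` of meromorphic functions

`K` is the field of germs at `0+` of complex valued functions that are meromorphic on an interval
`(0, ε)`; poles and zeros may accumulate at `0`, two functions are identified if they agree on some
`(0, ε)` outside a set without accumulation points in `(0, ε)`.
-/

open Filter Topology

namespace Pool.Agent.Helper19.LU

/-- a set belongs to `nz` iff for all small `x > 0` it contains a punctured neighbourhood of `x` -/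
def nz : Filter ℝ := (𝓝[>] (0:ℝ)).bind (fun x => 𝓝[≠] x)

theorem eventually_nz {p : ℝ → Prop} :
    (∀ᶠ x in nz, p x) ↔ ∀ᶠ x in 𝓝[>] (0:ℝ), ∀ᶠ y in 𝓝[≠] x, p y := Iff.rfl

instance : NeBot nz := by
  rw [neBot_iff]
  intro h
  have h1 : ∀ᶠ x in nz, False := by rw [h]; simp
  rw [eventually_nz] at h1
  obtain ⟨x, hx⟩ := h1.exists
  exact (hx.exists).choose_spec

/-- a property that holds near `0+` on a set of points, holds along `nz` -/
theorem eventually_nz_of {p : ℝ → Prop} (h : ∀ᶠ x in 𝓝[>] (0:ℝ), p x) : ∀ᶠ x in nz, p x := by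
  rw [eventually_nz]
  have h1 := eventually_nhdsWithin_iff.mp h
  rw [Metric.eventually_nhds_iff] at h1
  obtain ⟨ε, hε, h1⟩ := h1
  have h2 : ∀ᶠ x in 𝓝[>] (0:ℝ), x < ε := by
    apply eventually_nhdsWithin_of_eventually_nhds
    exact eventually_lt_nhds hε
  filter_upwards [h2, self_mem_nhdsWithin] with x hx hx0
  have h3 : ∀ᶠ y in 𝓝 x, y < ε ∧ 0 < y := (eventually_lt_nhds hx).and (eventually_gt_nhds hx0)
  filter_upwards [eventually_nhdsWithin_of_eventually_nhds h3] with y hy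
  exact h1 (by rw [Real.dist_eq, sub_zero, abs_of_pos hy.2]; exact hy.1) hy.2

/-- meromorphic at all small `x > 0` -/
def Mer (f : ℝ → ℂ) : Prop := ∀ᶠ x in 𝓝[>] (0:ℝ), MeromorphicAt f x

theorem Mer.add {f g : ℝ → ℂ} (hf : Mer f) (hg : Mer g) : Mer (f + g) := by
  filter_upwards [hf, hg] with x h1 h2 using h1.add h2

theorem Mer.mul {f g : ℝ → ℂ} (hf : Mer f) (hg : Mer g) : Mer (f * g) := by
  filter_upwards [hf, hg] with x h1 h2 using h1.mul h2

theorem Mer.neg {f : ℝ → ℂ} (hf : Mer f) : Mer (-f) := by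
  filter_upwards [hf] with x h1 using h1.neg

theorem Mer.inv {f : ℝ → ℂ} (hf : Mer f) : Mer (f⁻¹) := by
  filter_upwards [hf] with x h1 using h1.inv

theorem Mer.deriv {f : ℝ → ℂ} (hf : Mer f) : Mer (deriv f) := by
  filter_upwards [hf] with x h1 using h1.deriv

theorem Mer.const (c : ℂ) : Mer (fun _ => c) := Eventually.of_forall fun x => .const _ _

theorem Mer.analytic {f : ℝ → ℂ} (hf : Mer f) : ∀ᶠ x in nz, AnalyticAt ℝ f x := by
  rw [eventually_nz]
  filter_upwards [hf] with x h1 using h1.eventually_analyticAt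

theorem dichotomy_Ioo {f : ℝ → ℂ} {ε : ℝ} (h2 : ∀ x ∈ Set.Ioo 0 ε, MeromorphicAt f x) :
    (∀ x ∈ Set.Ioo 0 ε, ∀ᶠ y in 𝓝[≠] x, f y = 0) ∨
      (∀ x ∈ Set.Ioo 0 ε, ∀ᶠ y in 𝓝[≠] x, f y ≠ 0) := by
  have hop : ∀ p : ℝ → Prop, IsOpen {x | ∀ᶠ y in 𝓝[≠] x, p y} := by
    intro p
    rw [isOpen_iff_mem_nhds]
    intro x hx
    have h3 : ∀ᶠ y in 𝓝[≠] x, ∀ᶠ z in 𝓝 y, p z := by
      have hx' : ∀ᶠ y in 𝓝[≠] x, p y := hx
      rw [eventually_nhdsWithin_iff] at hx'
      have h4 := eventually_eventually_nhds.mpr hx'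
      rw [eventually_nhdsWithin_iff]
      filter_upwards [h4] with y hy hyx
      have h5 : ∀ᶠ z in 𝓝 y, z ≠ x := isOpen_ne.eventually_mem hyx
      filter_upwards [hy, h5] with z hz hz2 using hz hz2
    rw [eventually_nhdsWithin_iff] at h3
    filter_upwards [h3] with y hy
    by_cases hyx : y = x
    · rw [hyx]
      exact hx
    · exact eventually_nhdsWithin_of_eventually_nhds (hy hyx)
  have h3 : Set.Ioo 0 ε ⊆ {x | ∀ᶠ y in 𝓝[≠] x, f y = 0} ∪ {x | ∀ᶠ y in 𝓝[≠] x, f y ≠ 0} := by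
    intro x hx
    exact (h2 x hx).eventually_eq_zero_or_eventually_ne_zero
  have h4 : Disjoint {x | ∀ᶠ y in 𝓝[≠] x, f y = 0} {x | ∀ᶠ y in 𝓝[≠] x, f y ≠ 0} := by
    rw [Set.disjoint_left]
    intro x hx hx'
    have h1 : ∀ᶠ y in 𝓝[≠] x, f y = 0 := hx
    have h2 : ∀ᶠ y in 𝓝[≠] x, f y ≠ 0 := hx'
    obtain ⟨y, hy⟩ := (h1.and h2).exists
    exact hy.2 hy.1
  rcases isPreconnected_Ioo.subset_or_subset (hop _) (hop _) h4 h3 with h | h
  · exact Or.inl fun x hx => h hx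
  · exact Or.inr fun x hx => h hx

theorem Mer.exists_Ioo {p : ℝ → Prop} (h : ∀ᶠ x in 𝓝[>] (0:ℝ), p x) :
    ∃ ε > 0, ∀ x ∈ Set.Ioo 0 ε, p x := by
  have h1 := eventually_nhdsWithin_iff.mp h
  rw [Metric.eventually_nhds_iff] at h1
  obtain ⟨ε, hε, h1⟩ := h1
  refine ⟨ε, hε, fun x hx => ?_⟩
  exact h1 (by rw [Real.dist_eq, sub_zero, abs_of_pos hx.1]; exact hx.2) hx.1

theorem Mer.dichotomy {f : ℝ → ℂ} (hf : Mer f) :
    (∀ᶠ x in nz, f x = 0) ∨ (∀ᶠ x in nz, f x ≠ 0) := by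
  obtain ⟨ε, hε, h2⟩ := Mer.exists_Ioo hf
  have h5 : Set.Ioo 0 ε ∈ 𝓝[>] (0:ℝ) := Ioo_mem_nhdsGT hε
  rcases dichotomy_Ioo h2 with h | h
  · left
    rw [eventually_nz]
    filter_upwards [h5] with x hx using h x hx
  · right
    rw [eventually_nz]
    filter_upwards [h5] with x hx using h x hx

/-- the ring of germs of meromorphic functions -/
def Kring : Subring (Germ nz ℂ) where
  carrier := {φ | ∃ f, Mer f ∧ (f : Germ nz ℂ) = φ}
  mul_mem' := by
    rintro _ _ ⟨f, hf, rfl⟩ ⟨g, hg, rfl⟩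
    exact ⟨f * g, hf.mul hg, rfl⟩
  one_mem' := ⟨fun _ => 1, Mer.const 1, rfl⟩
  add_mem' := by
    rintro _ _ ⟨f, hf, rfl⟩ ⟨g, hg, rfl⟩
    exact ⟨f + g, hf.add hg, rfl⟩
  zero_mem' := ⟨fun _ => 0, Mer.const 0, rfl⟩
  neg_mem' := by
    rintro _ ⟨f, hf, rfl⟩
    exact ⟨-f, hf.neg, rfl⟩

/-- the class of a meromorphic function -/
def mk' (f : ℝ → ℂ) (hf : Mer f) : Kring := ⟨f, f, hf, rfl⟩

theorem mk'_eq {f g : ℝ → ℂ} {hf : Mer f} {hg : Mer g} :
    mk' f hf = mk' g hg ↔ f =ᶠ[nz] g := by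
  refine Iff.trans ?_ (Germ.coe_eq (l := nz) (f := f) (g := g))
  exact Subtype.ext_iff

theorem exists_mk' (a : Kring) : ∃ f, ∃ hf : Mer f, mk' f hf = a := by
  obtain ⟨_, f, hf, rfl⟩ := a
  exact ⟨f, hf, rfl⟩

theorem Kring_isField : IsField Kring where
  exists_pair_ne := by
    refine ⟨mk' (fun _ => 0) (Mer.const 0), mk' (fun _ => 1) (Mer.const 1), fun h => ?_⟩
    rw [mk'_eq] at h
    obtain ⟨x, hx⟩ := h.exists
    exact zero_ne_one hx
  mul_comm := mul_comm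
  mul_inv_cancel := by
    intro a ha
    obtain ⟨f, hf, rfl⟩ := exists_mk' a
    refine ⟨mk' f⁻¹ hf.inv, ?_⟩
    have h1 : mk' f hf * mk' f⁻¹ hf.inv = mk' (f * f⁻¹) (hf.mul hf.inv) := rfl
    have h2 : (1 : Kring) = mk' (fun _ => 1) (Mer.const 1) := rfl
    rw [h1, h2, mk'_eq]
    rcases hf.dichotomy with h | h
    · exfalso
      apply ha
      have h3 : (0 : Kring) = mk' (fun _ => 0) (Mer.const 0) := rfl
      rw [h3, mk'_eq]
      exact h
    · filter_upwards [h] with x hx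
      simp [hx]

/-- The field of germs at `0+` of meromorphic functions. -/
def K : Type := Kring

instance : CommRing K := inferInstanceAs (CommRing Kring)

theorem exists_inv (a : K) (ha : a ≠ 0) : ∃ b : K, a * b = 1 := Kring_isField.mul_inv_cancel ha

open Classical in
/-- the inverse in `K` -/
noncomputable def Kinv (a : K) : K := if h : a = 0 then 0 else (exists_inv a h).choose

theorem mul_Kinv (a : K) (ha : a ≠ 0) : a * Kinv a = 1 := by
  unfold Kinv
  rw [dif_neg ha]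
  exact (exists_inv a ha).choose_spec

noncomputable instance : Field K where
  exists_pair_ne := Kring_isField.exists_pair_ne
  inv := Kinv
  mul_inv_cancel := mul_Kinv
  inv_zero := by
    unfold Kinv
    rw [dif_pos rfl]
  nnqsmul := _
  nnqsmul_def := fun _ _ => rfl
  qsmul := _
  qsmul_def := fun _ _ => rfl

/-- the class in `K` of a function -/
def mk (f : ℝ → ℂ) (hf : Mer f) : K := mk' f hf

theorem mk_eq {f g : ℝ → ℂ} {hf : Mer f} {hg : Mer g} : mk f hf = mk g hg ↔ f =ᶠ[nz] g := mk'_eq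

theorem exists_mk (a : K) : ∃ f, ∃ hf : Mer f, mk f hf = a := exists_mk' a

theorem mk_add {f g : ℝ → ℂ} (hf : Mer f) (hg : Mer g) :
    mk f hf + mk g hg = mk (f + g) (hf.add hg) := rfl

theorem mk_mul {f g : ℝ → ℂ} (hf : Mer f) (hg : Mer g) :
    mk f hf * mk g hg = mk (f * g) (hf.mul hg) := rfl

theorem mk_one : mk (fun _ => 1) (Mer.const 1) = 1 := rfl

theorem mk_zero : mk (fun _ => 0) (Mer.const 0) = 0 := rfl

/-- the constants -/
def cst : ℂ →+* K where
  toFun c := mk (fun _ => c) (Mer.const c)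
  map_one' := rfl
  map_zero' := rfl
  map_add' _ _ := rfl
  map_mul' _ _ := rfl

noncomputable instance : Algebra ℂ K := cst.toAlgebra

theorem algebraMap_eq (c : ℂ) : algebraMap ℂ K c = mk (fun _ => c) (Mer.const c) := rfl

instance : CharZero K := charZero_of_injective_algebraMap (algebraMap ℂ K).injective

theorem deriv_congr {f g : ℝ → ℂ} (h : f =ᶠ[nz] g) : deriv f =ᶠ[nz] deriv g := by
  rw [EventuallyEq, eventually_nz] at h ⊢
  filter_upwards [h] with x hx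
  have h4 := eventually_eventually_nhds.mpr (eventually_nhdsWithin_iff.mp hx)
  rw [eventually_nhdsWithin_iff]
  filter_upwards [h4] with y hy hyx
  apply EventuallyEq.deriv_eq
  have h5 : ∀ᶠ z in 𝓝 y, z ≠ x := isOpen_ne.eventually_mem hyx
  filter_upwards [hy, h5] with z hz hz2 using hz hz2

/-- the derivation of `K` -/
noncomputable def Dfun (a : K) : K := mk _ (exists_mk a).choose_spec.choose.deriv

theorem Dfun_mk {f : ℝ → ℂ} (hf : Mer f) : Dfun (mk f hf) = mk (deriv f) hf.deriv := by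
  rw [Dfun, mk_eq]
  exact deriv_congr (mk_eq.mp (exists_mk (mk f hf)).choose_spec.choose_spec)

theorem Dfun_add (a b : K) : Dfun (a + b) = Dfun a + Dfun b := by
  obtain ⟨f, hf, rfl⟩ := exists_mk a
  obtain ⟨g, hg, rfl⟩ := exists_mk b
  rw [mk_add, Dfun_mk, Dfun_mk, Dfun_mk, mk_add, mk_eq]
  filter_upwards [hf.analytic, hg.analytic] with x h1 h2
  rw [Pi.add_apply, deriv_add h1.differentiableAt h2.differentiableAt]

theorem Dfun_mul (a b : K) : Dfun (a * b) = a * Dfun b + b * Dfun a := by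
  obtain ⟨f, hf, rfl⟩ := exists_mk a
  obtain ⟨g, hg, rfl⟩ := exists_mk b
  rw [mk_mul, Dfun_mk, Dfun_mk, Dfun_mk, mk_mul, mk_mul, mk_add, mk_eq]
  filter_upwards [hf.analytic, hg.analytic] with x h1 h2
  rw [Pi.add_apply, Pi.mul_apply, Pi.mul_apply,
    deriv_mul h1.differentiableAt h2.differentiableAt]
  ring

theorem Dfun_cst (c : ℂ) : Dfun (algebraMap ℂ K c) = 0 := by
  rw [algebraMap_eq, Dfun_mk, ← mk_zero, mk_eq]
  refine Eventually.of_forall fun x => ?_
  simp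

/-- the derivation of `K` as a linear map -/
noncomputable def Dlin : K →ₗ[ℂ] K where
  toFun := Dfun
  map_add' := Dfun_add
  map_smul' := fun c a => by
    rw [Algebra.smul_def, Dfun_mul, Dfun_cst, mul_zero, add_zero, RingHom.id_apply,
      Algebra.smul_def]

/-- the derivation of `K` -/
noncomputable def D : Derivation ℂ K K := Derivation.mk' Dlin Dfun_mul

theorem D_mk {f : ℝ → ℂ} (hf : Mer f) : D (mk f hf) = mk (deriv f) hf.deriv := Dfun_mk hf

/-- the constants of `K` are the complex numbers -/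
theorem const_of_D_eq_zero {a : K} (h : D a = 0) : ∃ c : ℂ, a = algebraMap ℂ K c := by
  obtain ⟨f, hf, rfl⟩ := exists_mk a
  rw [D_mk, ← mk_zero, mk_eq] at h
  have h1 : ∀ᶠ x in nz, AnalyticAt ℝ f x ∧ deriv f x = 0 := hf.analytic.and h
  rw [eventually_nz] at h1
  obtain ⟨ε, hε, h2⟩ := Mer.exists_Ioo (h1.and hf)
  have hx : ε / 2 ∈ Set.Ioo 0 ε := ⟨by linarith, by linarith⟩
  have h3 : ∀ᶠ y in 𝓝[≠] (ε / 2), ∀ᶠ z in 𝓝 y, AnalyticAt ℝ f z ∧ deriv f z = 0 := by
    have h4 := eventually_eventually_nhds.mpr (eventually_nhdsWithin_iff.mp (h2 _ hx).1)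
    rw [eventually_nhdsWithin_iff]
    filter_upwards [h4] with y hy hyx
    have h5 : ∀ᶠ z in 𝓝 y, z ≠ ε / 2 := isOpen_ne.eventually_mem hyx
    filter_upwards [hy, h5] with z hz hz2 using hz hz2
  have h4 : ∀ᶠ y in 𝓝[≠] (ε / 2), y ∈ Set.Ioo 0 ε :=
    eventually_nhdsWithin_of_eventually_nhds (isOpen_Ioo.eventually_mem hx)
  obtain ⟨y, hy, hyI⟩ := (h3.and h4).exists
  rw [Metric.eventually_nhds_iff] at hy
  obtain ⟨δ, hδ, hy⟩ := hy
  have h5 : ∀ z ∈ Metric.ball y δ, f z = f y := by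
    intro z hz
    refine Metric.isOpen_ball.is_const_of_deriv_eq_zero (𝕜 := ℝ)
      (convex_ball y δ).isPreconnected (fun w hw => ?_) (fun w hw => ?_) hz
      (Metric.mem_ball_self hδ)
    · exact (hy hw).1.differentiableAt.differentiableWithinAt
    · exact (hy hw).2
  refine ⟨f y, ?_⟩
  rw [algebraMap_eq, mk_eq, EventuallyEq, eventually_nz]
  have h6 : ∀ x ∈ Set.Ioo 0 ε, MeromorphicAt (fun x => f x - f y) x := fun x hx =>
    (h2 x hx).2.sub (.const _ _)
  have h7 : Set.Ioo 0 ε ∈ 𝓝[>] (0:ℝ) := Ioo_mem_nhdsGT hε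
  rcases dichotomy_Ioo h6 with h8 | h8
  · filter_upwards [h7] with x hx
    filter_upwards [h8 x hx] with z hz using sub_eq_zero.mp hz
  · exfalso
    have h9 : ∀ᶠ z in 𝓝[≠] y, f z = f y :=
      eventually_nhdsWithin_of_eventually_nhds
        (Metric.eventually_nhds_iff.mpr ⟨δ, hδ, fun z hz => h5 z hz⟩)
    obtain ⟨z, hz1, hz2⟩ := (h9.and (h8 y hyI)).exists
    exact hz2 (sub_eq_zero.mpr hz1)

/-! ### Composition -/

/-- real functions near `0+` with which one may compose -/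
structure Adm (t : ℝ → ℝ) : Prop where
  analytic : ∀ᶠ x in 𝓝[>] (0:ℝ), AnalyticAt ℝ t x
  tendsto : Tendsto t (𝓝[>] 0) (𝓝[>] 0)
  inj : ∀ᶠ x in 𝓝[>] (0:ℝ), Tendsto t (𝓝[≠] x) (𝓝[≠] (t x))

theorem Adm.tendsto_nz {t : ℝ → ℝ} (ht : Adm t) : Tendsto t nz nz := by
  rw [Tendsto, Filter.le_def]
  intro s hs
  have h1 : ∀ᶠ x in 𝓝[>] (0:ℝ), ∀ᶠ y in 𝓝[≠] x, y ∈ s := hs
  have h2 : ∀ᶠ x in 𝓝[>] (0:ℝ), ∀ᶠ y in 𝓝[≠] x, t y ∈ s := by
    filter_upwards [ht.tendsto.eventually h1, ht.inj] with x hx hx2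
    exact hx2.eventually hx
  exact h2

theorem Mer.comp {t : ℝ → ℝ} (ht : Adm t) {f : ℝ → ℂ} (hf : Mer f) : Mer (f ∘ t) := by
  filter_upwards [ht.tendsto.eventually hf, ht.analytic] with x h1 h2
  exact h1.comp_analyticAt h2

theorem Mer.ofReal {t : ℝ → ℝ} (ht : ∀ᶠ x in 𝓝[>] (0:ℝ), AnalyticAt ℝ t x) :
    Mer (fun x => (t x : ℂ)) := by
  filter_upwards [ht] with x hx
  exact (Complex.ofRealCLM.analyticAt (t x)).comp hx |>.meromorphicAt

/-- the element of `K` given by a real function -/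
def ofR (t : ℝ → ℝ) (ht : ∀ᶠ x in 𝓝[>] (0:ℝ), AnalyticAt ℝ t x) : K := mk _ (Mer.ofReal ht)

/-- composition with `t` -/
noncomputable def pullFun {t : ℝ → ℝ} (ht : Adm t) (a : K) : K :=
  mk _ ((exists_mk a).choose_spec.choose.comp ht)

theorem pullFun_mk {t : ℝ → ℝ} (ht : Adm t) {f : ℝ → ℂ} (hf : Mer f) :
    pullFun ht (mk f hf) = mk (f ∘ t) (hf.comp ht) := by
  rw [pullFun, mk_eq]
  exact ht.tendsto_nz.eventually (mk_eq.mp (exists_mk (mk f hf)).choose_spec.choose_spec)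

/-- composition with `t` -/
noncomputable def pull {t : ℝ → ℝ} (ht : Adm t) : K →ₐ[ℂ] K where
  toFun := pullFun ht
  map_one' := by rw [← mk_one, pullFun_mk]; rfl
  map_zero' := by rw [← mk_zero, pullFun_mk]; rfl
  map_add' a b := by
    obtain ⟨f, hf, rfl⟩ := exists_mk a
    obtain ⟨g, hg, rfl⟩ := exists_mk b
    rw [mk_add, pullFun_mk, pullFun_mk, pullFun_mk]
    rfl
  map_mul' a b := by
    obtain ⟨f, hf, rfl⟩ := exists_mk a
    obtain ⟨g, hg, rfl⟩ := exists_mk b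
    rw [mk_mul, pullFun_mk, pullFun_mk, pullFun_mk]
    rfl
  commutes' c := by rw [algebraMap_eq, pullFun_mk]; rfl

theorem pull_mk {t : ℝ → ℝ} (ht : Adm t) {f : ℝ → ℂ} (hf : Mer f) :
    pull ht (mk f hf) = mk (f ∘ t) (hf.comp ht) := pullFun_mk ht hf

theorem D_pull {t : ℝ → ℝ} (ht : Adm t) (a : K) :
    D (pull ht a) = pull ht (D a) * D (ofR t ht.analytic) := by
  obtain ⟨f, hf, rfl⟩ := exists_mk a
  rw [pull_mk, D_mk, D_mk, pull_mk, ofR, D_mk, mk_mul, mk_eq]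
  filter_upwards [ht.tendsto_nz.eventually hf.analytic, eventually_nz_of ht.analytic]
    with x h1 h2
  have h3 : HasDerivAt (f ∘ t) (deriv t x • deriv f (t x)) x :=
    h1.differentiableAt.hasDerivAt.scomp x h2.differentiableAt.hasDerivAt
  have h4 : HasDerivAt (fun x => (t x : ℂ)) ((deriv t x : ℝ) : ℂ) x :=
    h2.differentiableAt.hasDerivAt.ofReal_comp
  rw [h3.deriv, Pi.mul_apply, h4.deriv, Function.comp_apply, Complex.real_smul, mul_comm]

end Pool.Agent.Helper19.LU
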