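import Pool.Agent.Helper19.LU.Trans

/-!
# The Galois group of `q^[n] Y = x` over `ℂ(x)` is the full automorphism group of the tree
-/

open Polynomial IntermediateField
open scoped commutatorElement

namespace Pool.Agent.Helper19.LU

/-- the Galois group -/
abbrev GG := Z ≃ₐ[FF] Z

/-- an element algebraic over the complex numbers is a complex number -/
theorem eq_const_of_algebraic {B : Type*} [Field B] [Algebra ℂ B] {z : B}
    (hz : IsAlgebraic ℂ z) : ∃ c : ℂ, algebraMap ℂ B c = z := by
  have : Algebra.IsAlgebraic ℂ ℂ⟮z⟯ := isAlgebraic_adjoin_simple hz.isIntegral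
  have h1 : ℂ⟮z⟯ = ⊥ := IntermediateField.eq_bot_of_isAlgClosed_of_isAlgebraic ℂ⟮z⟯
  have h2 : z ∈ ℂ⟮z⟯ := mem_adjoin_simple_self ℂ z
  rw [h1, IntermediateField.mem_bot] at h2
  exact h2

theorem not_const (c : ℂ) : algebraMap ℂ FF c ≠ RatFunc.X := by
  intro h
  exact RatFunc.transcendental_X (K := ℂ) (h ▸ isAlgebraic_algebraMap c)

theorem xZ_ne (c : ℂ) : algebraMap ℂ Z c ≠ xZ := by
  intro h
  rw [IsScalarTower.algebraMap_apply ℂ FF Z, xZ] at h
  exact not_const c ((algebraMap FF Z).injective h)

theorem root_ne_const {n : ℕ} {z : Z} (hz : q^[n] z = xZ) (c : ℂ) : algebraMap ℂ Z c ≠ z := by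
  rintro rfl
  rw [← iter_map] at hz
  exact xZ_ne _ hz

theorem root_transcendental {n : ℕ} {z : Z} (hz : q^[n] z = xZ) : Transcendental ℂ z := by
  intro h
  obtain ⟨c, hc⟩ := eq_const_of_algebraic h
  exact root_ne_const hz c hc

theorem root_ne_one_sub {n : ℕ} {z : Z} (hz : q^[n] z = xZ) : z ≠ 1 - z := by
  intro h
  apply root_ne_const hz (1 / 2)
  have h2 : (algebraMap ℂ Z (1 / 2)) * 2 = 1 := by
    have : (2 : Z) = algebraMap ℂ Z 2 := (map_ofNat _ 2).symm
    rw [this, ← map_mul]
    norm_num
  linear_combination (-(algebraMap ℂ Z (1 / 2))) * h + z * h2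

/-- evaluation of rational functions -/
noncomputable def ev {B : Type*} [Field B] [Algebra ℂ B] (z : B) (h : Transcendental ℂ z) :
    FF →ₐ[ℂ] B :=
  (ℂ⟮z⟯).val.comp (RatFunc.algEquivOfTranscendental z h).toAlgHom

theorem ev_X {B : Type*} [Field B] [Algebra ℂ B] (z : B) (h : Transcendental ℂ z) :
    ev z h RatFunc.X = z := RatFunc.algEquivOfTranscendental_X z h

/-- the Galois group acts transitively on the roots -/
theorem exists_conj {n : ℕ} {z z' : Z} (hz : q^[n] z = xZ) (hz' : q^[n] z' = xZ) :
    ∃ g : GG, g z = z' := by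
  have h1 : Transcendental ℂ (q^[n] (RatFunc.X : FF)) := by
    intro h
    have h2 := h.algHom (ev z (root_transcendental hz))
    have h3 : ev z (root_transcendental hz) (q^[n] RatFunc.X) = xZ := by
      have := iter_map (ev z (root_transcendental hz)).toRingHom n (RatFunc.X : FF)
      rw [AlgHom.toRingHom_eq_coe, RingHom.coe_coe, ev_X, hz] at this
      exact this
    rw [h3] at h2
    obtain ⟨c, hc⟩ := eq_const_of_algebraic h2
    exact xZ_ne c hc
  -- the substitution `x ↦ q^[n] x`
  set ψ : FF →ₐ[ℂ] FF := ev _ h1 with hψ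
  have key : ∀ (w : Z) (hw : q^[n] w = xZ), algebraMap FF Z =
      ((ev w (root_transcendental hw)).toRingHom).comp ψ.toRingHom := by
    intro w hw
    apply ratFunc_hom_ext
    · intro c
      change _ = ev w (root_transcendental hw) (ψ (algebraMap ℂ FF c))
      rw [AlgHom.commutes, AlgHom.commutes]
      exact (IsScalarTower.algebraMap_apply ℂ FF Z c).symm
    · change _ = ev w (root_transcendental hw) (ψ RatFunc.X)
      rw [hψ, ev_X]
      have := iter_map (ev w (root_transcendental hw)).toRingHom n (RatFunc.X : FF)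
      rw [AlgHom.toRingHom_eq_coe, RingHom.coe_coe, ev_X, hw] at this
      rw [this]
      rfl
  have h2 : ∀ (w : Z) (hw : q^[n] w = xZ) (p : FF[X]), aeval w p =
      ev w (root_transcendental hw) (eval₂ ψ.toRingHom RatFunc.X p) := by
    intro w hw p
    have h3 := hom_eval₂ p ψ.toRingHom (ev w (root_transcendental hw)).toRingHom RatFunc.X
    rw [← key w hw] at h3
    have h4 : (ev w (root_transcendental hw)).toRingHom RatFunc.X = w := ev_X _ _
    rw [h4] at h3
    rw [aeval_def, ← h3]
    rfl
  have h3 : aeval z' (minpoly FF z) = 0 := by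
    have h4 : aeval z (minpoly FF z) = 0 := minpoly.aeval _ _
    rw [h2 z hz, map_eq_zero] at h4
    rw [h2 z' hz', h4, map_zero]
  have hzint : IsIntegral FF z := Algebra.IsIntegral.isIntegral z
  have h4 : minpoly FF z' = minpoly FF z :=
    (minpoly.eq_of_irreducible_of_monic (minpoly.irreducible hzint) h3
      (minpoly.monic hzint)).symm
  obtain ⟨g, hg⟩ := (Normal.minpoly_eq_iff_mem_orbit Z).mp h4
  exact ⟨g, hg⟩

theorem GG_iter (σ : GG) (n : ℕ) (z : Z) : σ (q^[n] z) = q^[n] (σ z) :=
  iter_map (σ : Z →+* Z) n z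

theorem GG_x (σ : GG) : σ xZ = xZ := σ.commutes _

theorem GG_root (σ : GG) {n : ℕ} {z : Z} (hz : q^[n] z = xZ) : q^[n] (σ z) = xZ := by
  rw [← GG_iter, hz, GG_x]

/-- the transposition that swaps the two preimages of `u` -/
theorem exists_swap {n : ℕ} {u : Z} (hu : q^[n] u = xZ) : ∃ τ : GG,
    (∀ z, q z = u → τ z = 1 - z) ∧ ∀ z, q^[n + 1] z = xZ → q z ≠ u → τ z = z := by
  obtain ⟨τ, z₀, h1, h2, h3⟩ := exists_transposition (Nat.succ_pos n)
  rw [Nat.succ_eq_add_one] at h1 h3
  have hq0 : q^[n] (q z₀) = xZ := by rw [← Function.iterate_succ_apply]; exact h1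
  obtain ⟨g, hg⟩ := exists_conj hq0 hu
  have hcancel : ∀ w : Z, g (g⁻¹ w) = w := fun w => by
    rw [← AlgEquiv.mul_apply, mul_inv_cancel]
    rfl
  have hcancel' : ∀ w : Z, g⁻¹ (g w) = w := fun w => by
    rw [← AlgEquiv.mul_apply, inv_mul_cancel]
    rfl
  refine ⟨g * τ * g⁻¹, ?_, ?_⟩
  · intro z hz
    have h4 : q (g⁻¹ z) = q z₀ := by
      have := GG_iter g⁻¹ 1 z
      rw [Function.iterate_one] at this
      rw [← this, hz, ← hg, hcancel']
    change g (τ (g⁻¹ z)) = 1 - z
    rcases q_eq_iff.mp h4 with h5 | h5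
    · rw [h5, h2, map_sub, map_one, ← h5, hcancel]
    · have h6 : τ (g⁻¹ z) = z₀ := by
        rw [h5, map_sub, map_one, h2]
        ring
      have h7 : z₀ = 1 - g⁻¹ z := by rw [h5]; ring
      rw [h6, h7, map_sub, map_one, hcancel]
  · intro z hz hne
    have h4 : q^[n + 1] (g⁻¹ z) = xZ := GG_root _ hz
    have h5 : q (g⁻¹ z) ≠ q z₀ := by
      intro h
      apply hne
      have := GG_iter g 1 (g⁻¹ z)
      rw [Function.iterate_one, hcancel, h, hg] at this
      exact this.symm
    change g (τ (g⁻¹ z)) = z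
    rw [h3 _ h4, hcancel]
    · intro h
      exact h5 (by rw [h])
    · intro h
      exact h5 (by rw [h, q_one_sub])

/-- tree automorphisms of the set of `z` with `q^[k] z = w` -/
def TreeMap (w : Z) (k : ℕ) (π : Z → Z) : Prop :=
  (∀ z, q^[k] z = w → q^[k] (π z) = w) ∧
    ∀ z z', q^[k] z = w → q^[k] z' = w → ∀ i ≤ k, (q^[i] z = q^[i] z' ↔ q^[i] (π z) = q^[i] (π z'))

/-- the group `H` contains all tree automorphisms below `w` -/
def Full (H : Subgroup GG) (w : Z) (k : ℕ) : Prop :=
  ∀ π, TreeMap w k π → ∃ σ ∈ H, ∀ z, q^[k] z = w → σ z = π z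

/-- preimages under `q` exist -/
theorem exists_q (u : Z) : ∃ z, q z = u := by
  obtain ⟨s, hs⟩ := IsAlgClosed.exists_pow_nat_eq (1 - 4 * u) (n := 2) (by norm_num)
  refine ⟨(1 + s) / 2, ?_⟩
  rw [q]
  field_simp
  linear_combination -hs

theorem exists_iter (k : ℕ) (u : Z) : ∃ z, q^[k] z = u := by
  induction k generalizing u with
  | zero => exact ⟨u, rfl⟩
  | succ k ih =>
    obtain ⟨w, hw⟩ := ih u
    obtain ⟨z, hz⟩ := exists_q w
    exact ⟨z, by rw [Function.iterate_succ_apply, hz, hw]⟩

theorem finite_roots (n : ℕ) : {z : Z | q^[n] z = xZ}.Finite := by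
  refine ((Pn n).rootSet_finite Z).subset ?_
  intro z hz
  rw [mem_rootSet]
  refine ⟨Pn_ne_zero n, ?_⟩
  rw [aeval_Pn]
  exact sub_eq_zero.mpr hz

/-- products of transpositions -/
theorem exists_swaps (n : ℕ) (W : Finset Z) (hW : ∀ u ∈ W, q^[n] u = xZ) : ∃ τ : GG,
    ∀ z, q^[n + 1] z = xZ → (q z ∈ W → τ z = 1 - z) ∧ (q z ∉ W → τ z = z) := by
  classical
  induction W using Finset.induction_on with
  | empty => exact ⟨1, fun z _ => ⟨fun h => absurd h (Finset.notMem_empty _), fun _ => rfl⟩⟩
  | insert u W hu ih =>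
    obtain ⟨ρ, hρ⟩ := ih fun w hw => hW w (Finset.mem_insert_of_mem hw)
    obtain ⟨τ, h1, h2⟩ := exists_swap (hW u (Finset.mem_insert_self _ _))
    refine ⟨τ * ρ, fun z hz => ⟨fun h => ?_, fun h => ?_⟩⟩
    · change τ (ρ z) = 1 - z
      rcases Finset.mem_insert.mp h with h3 | h3
      · rw [(hρ z hz).2 (by rw [h3]; exact hu), h1 z h3]
      · rw [(hρ z hz).1 h3, map_sub, map_one, h2 z hz]
        rintro rfl
        exact hu h3
    · change τ (ρ z) = z
      rw [Finset.mem_insert, not_or] at h
      rw [(hρ z hz).2 h.2, h2 z hz h.1]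

/-- the Galois group contains all tree automorphisms -/
theorem full_top (n : ℕ) : Full ⊤ xZ n := by
  classical
  induction n with
  | zero =>
    intro π hπ
    refine ⟨1, trivial, fun z hz => ?_⟩
    have h1 := hπ.1 z hz
    change z = π z
    rw [Function.iterate_zero, id] at h1 hz
    rw [hz, ← hz, h1, hz]
  | succ n ih =>
    intro π hπ
    choose c hc using exists_q
    -- the induced map one level up
    set π' : Z → Z := fun u => q (π (c u)) with hπ'
    have hlev : ∀ z, q^[n + 1] z = xZ → q (π z) = π' (q z) := by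
      intro z hz
      have h1 : q^[n + 1] (c (q z)) = xZ := by
        rw [Function.iterate_succ_apply, hc, ← Function.iterate_succ_apply, hz]
      have h2 := (hπ.2 z (c (q z)) hz h1 1 (by omega)).mp (by
        rw [Function.iterate_one, hc])
      rw [Function.iterate_one] at h2
      exact h2
    have htree : TreeMap xZ n π' := by
      constructor
      · intro u hu
        have h1 : q^[n + 1] (c u) = xZ := by rw [Function.iterate_succ_apply, hc, hu]
        have h2 := hπ.1 _ h1
        rw [Function.iterate_succ_apply] at h2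
        exact h2
      · intro u u' hu hu' i hi
        have h1 : q^[n + 1] (c u) = xZ := by rw [Function.iterate_succ_apply, hc, hu]
        have h2 : q^[n + 1] (c u') = xZ := by rw [Function.iterate_succ_apply, hc, hu']
        have h3 := hπ.2 _ _ h1 h2 (i + 1) (by omega)
        rw [Function.iterate_succ_apply, Function.iterate_succ_apply, hc, hc,
          Function.iterate_succ_apply, Function.iterate_succ_apply] at h3
        exact h3
    obtain ⟨σ, -, hσ⟩ := ih π' htree
    have hcancel : ∀ w : Z, σ (σ⁻¹ w) = w := fun w => by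
      rw [← AlgEquiv.mul_apply, mul_inv_cancel]
      rfl
    have hcancel' : ∀ w : Z, σ⁻¹ (σ w) = w := fun w => by
      rw [← AlgEquiv.mul_apply, inv_mul_cancel]
      rfl
    -- the remaining map preserves all sibling pairs
    have h4 : ∀ z, q^[n + 1] z = xZ → σ⁻¹ (π z) = z ∨ σ⁻¹ (π z) = 1 - z := by
      intro z hz
      apply q_eq_iff.mp
      have h5 := GG_iter σ⁻¹ 1 (π z)
      rw [Function.iterate_one, hlev z hz, ← hσ (q z) (by
        rw [← Function.iterate_succ_apply]; exact hz), hcancel'] at h5
      exact h5.symm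
    set W : Finset Z := ((finite_roots n).toFinset).filter
      (fun u => ∀ z, q z = u → σ⁻¹ (π z) = 1 - z) with hW
    obtain ⟨τ, hτ⟩ := exists_swaps n W (by
      intro u hu
      rw [hW, Finset.mem_filter, Set.Finite.mem_toFinset] at hu
      exact hu.1)
    refine ⟨σ * τ, trivial, fun z hz => ?_⟩
    change σ (τ z) = π z
    have hqz : q^[n] (q z) = xZ := by rw [← Function.iterate_succ_apply]; exact hz
    by_cases hzW : q z ∈ W
    · rw [(hτ z hz).1 hzW]
      rw [hW, Finset.mem_filter] at hzW
      rw [← hzW.2 z rfl, hcancel]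
    · rw [(hτ z hz).2 hzW]
      have h5 : ¬ ∀ z', q z' = q z → σ⁻¹ (π z') = 1 - z' := by
        intro h
        apply hzW
        rw [hW, Finset.mem_filter, Set.Finite.mem_toFinset]
        exact ⟨hqz, h⟩
      push Not at h5
      obtain ⟨z', hz', hne⟩ := h5
      have hz'r : q^[n + 1] z' = xZ := by
        rw [Function.iterate_succ_apply, hz', hqz]
      have h6 : σ⁻¹ (π z') = z' := (h4 z' hz'r).resolve_right hne
      have h7 : σ⁻¹ (π z) = z := by
        rcases h4 z hz with h8 | h8
        · exact h8
        · exfalso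
          rcases q_eq_iff.mp hz' with h9 | h9
          · rw [h9] at h6
            rw [h6] at h8
            exact root_ne_one_sub hz h8
          · -- `z' = 1 - z`, both mapped to `z'`
            have h10 : π z = π z' := by
              have : σ⁻¹ (π z) = σ⁻¹ (π z') := by rw [h8, h6, h9]
              exact σ⁻¹.injective this
            have h11 := (hπ.2 z z' hz hz'r 0 (by omega)).mpr h10
            rw [Function.iterate_zero, id, id] at h11
            rw [h9] at h11
            exact root_ne_one_sub hz h11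
      rw [← hcancel (π z), h7]

theorem treeMap_of_fibres {w : Z} {k : ℕ} {f : Z → Z} (φ : Z → Z)
    (hφ : ∀ v, q v = w → q (φ v) = w)
    (hinj : ∀ v v', q v = w → q v' = w → φ v = φ v' → v = v')
    (h1 : ∀ v z, q v = w → q^[k] z = v → q^[k] (f z) = φ v)
    (h2 : ∀ v z z', q v = w → q^[k] z = v → q^[k] z' = v →
      ∀ i ≤ k, (q^[i] z = q^[i] z' ↔ q^[i] (f z) = q^[i] (f z'))) : TreeMap w (k + 1) f := by
  have hup : ∀ (i : ℕ) (a b : Z), i ≤ k → q^[i] a = q^[i] b → q^[k] a = q^[k] b := by
    intro i a b hi h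
    obtain ⟨m, rfl⟩ := Nat.exists_eq_add_of_le' hi
    rw [Function.iterate_add_apply, Function.iterate_add_apply, h]
  have h3 : ∀ z, q^[k + 1] z = w → q^[k + 1] (f z) = w := by
    intro z hz
    rw [Function.iterate_succ_apply'] at hz ⊢
    rw [h1 (q^[k] z) z hz rfl]
    exact hφ _ hz
  refine ⟨h3, fun z z' hz hz' i hi => ?_⟩
  rcases hi.lt_or_eq with hi | rfl
  · have hi' : i ≤ k := Nat.lt_succ_iff.mp hi
    have hz1 := hz
    have hz1' := hz'
    rw [Function.iterate_succ_apply'] at hz1 hz1'
    by_cases h4 : q^[k] z = q^[k] z'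
    · exact h2 _ z z' hz1 rfl h4.symm i hi'
    · constructor
      · intro h5
        exact absurd (hup i _ _ hi' h5) h4
      · intro h5
        have h6 := hup i _ _ hi' h5
        rw [h1 _ z hz1 rfl, h1 _ z' hz1' rfl] at h6
        exact absurd (hinj _ _ hz1 hz1' h6) h4
  · rw [hz, hz', h3 z hz, h3 z' hz']

/-- the commutator step -/
theorem Full.commutator {H : Subgroup GG} {k j : ℕ} {u : Z} (hu : q^[j + 1] u = xZ)
    (h : Full H (q u) (k + 1)) : Full ⁅H, H⁆ u k := by
  intro π hπ
  classical
  have hu' : q^[j + 1] (1 - u) = xZ := by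
    rw [Function.iterate_succ_apply, q_one_sub, ← Function.iterate_succ_apply, hu]
  have hne : u ≠ 1 - u := root_ne_one_sub hu
  have hne' : 1 - u ≠ u := hne.symm
  obtain ⟨g, hg⟩ := exists_conj hu hu'
  have hcancel : ∀ w : Z, g (g⁻¹ w) = w := fun w => by
    rw [← AlgEquiv.mul_apply, mul_inv_cancel]
    rfl
  have hcancel' : ∀ w : Z, g⁻¹ (g w) = w := fun w => by
    rw [← AlgEquiv.mul_apply, inv_mul_cancel]
    rfl
  have hg' : g⁻¹ (1 - u) = u := by rw [← hg, hcancel']
  have hfib : ∀ v, q v = q u → v = u ∨ v = 1 - u := fun v hv => by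
    rcases q_eq_iff.mp hv with h1 | h1
    · exact Or.inl h1
    · exact Or.inr h1
  -- the first map
  have hα : TreeMap (q u) (k + 1) (fun z => if q^[k] z = u then π z else z) := by
    apply treeMap_of_fibres id
    · intro v hv
      exact hv
    · intro v v' _ _ hvv
      exact hvv
    · intro v z _ hz
      by_cases hv : v = u
      · rw [if_pos (hz.trans hv), id, hv]
        exact hπ.1 z (hz.trans hv)
      · rw [if_neg (by rw [hz]; exact hv), id, hz]
    · intro v z z' _ hz hz' i hi
      by_cases hv : v = u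
      · rw [if_pos (hz.trans hv), if_pos (hz'.trans hv)]
        exact hπ.2 z z' (hz.trans hv) (hz'.trans hv) i hi
      · rw [if_neg (by rw [hz]; exact hv), if_neg (by rw [hz']; exact hv)]
  -- the second map
  have hβ : TreeMap (q u) (k + 1)
      (fun z => if q^[k] z = u then g z else if q^[k] z = 1 - u then g⁻¹ z else z) := by
    apply treeMap_of_fibres (fun v => 1 - v)
    · intro v hv
      rw [q_one_sub, hv]
    · intro v v' _ _ hvv
      exact sub_right_injective hvv
    · intro v z hv hz
      rcases hfib v hv with rfl | rfl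
      · rw [if_pos hz, ← GG_iter, hz, hg]
      · rw [if_neg (by rw [hz]; exact hne'), if_pos hz, ← GG_iter, hz, hg']
        ring
    · intro v z z' hv hz hz' i hi
      rcases hfib v hv with rfl | rfl
      · rw [if_pos hz, if_pos hz', ← GG_iter, ← GG_iter]
        exact g.injective.eq_iff.symm
      · rw [if_neg (by rw [hz]; exact hne'), if_pos hz, if_neg (by rw [hz']; exact hne'),
          if_pos hz', ← GG_iter, ← GG_iter]
        exact g⁻¹.injective.eq_iff.symm
  obtain ⟨σa, hσa, ha⟩ := h _ hα
  obtain ⟨σb, hσb, hb⟩ := h _ hβ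
  refine ⟨⁅σa, σb⁆, Subgroup.commutator_mem_commutator hσa hσb, fun z hz => ?_⟩
  have hz1 : q^[k + 1] z = q u := by rw [Function.iterate_succ_apply', hz]
  have hgz : q^[k] (g z) = 1 - u := by rw [← GG_iter, hz, hg]
  have hgz1 : q^[k + 1] (g z) = q u := by
    rw [Function.iterate_succ_apply', hgz, q_one_sub]
  have e1 : σb (g z) = z := by
    have := hb (g z) hgz1
    simp only [hgz, if_neg hne', if_true] at this
    rw [this, hcancel']
  have e2 : σa (g z) = g z := by
    have := ha (g z) hgz1
    simp only [hgz, if_neg hne'] at this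
    exact this
  have e3 : σa z = π z := by
    have := ha z hz1
    simp only [hz, if_true] at this
    exact this
  have c1 : ∀ (σ : GG) (a b : Z), σ a = b → σ⁻¹ b = a := by
    rintro σ a b rfl
    rw [← AlgEquiv.mul_apply, inv_mul_cancel]
    rfl
  rw [commutatorElement_def]
  change σa (σb (σa⁻¹ (σb⁻¹ z))) = π z
  rw [c1 σb _ _ e1, c1 σa _ _ e2, e1, e3]

/-- the derived series is full on the subtrees -/
theorem full_derivedSeries (j : ℕ) : ∀ (k : ℕ) (u : Z), q^[j] u = xZ →
    Full (derivedSeries GG j) u k := by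
  induction j with
  | zero =>
    intro k u hu
    rw [Function.iterate_zero, id] at hu
    rw [hu, derivedSeries_zero]
    exact full_top k
  | succ j ih =>
    intro k u hu
    rw [derivedSeries_succ]
    apply Full.commutator hu
    apply ih
    rw [← Function.iterate_succ_apply]
    exact hu

/-- the derived series moves roots -/
theorem exists_mem_derivedSeries (n : ℕ) :
    ∃ σ ∈ derivedSeries GG n, ∃ z, q^[n + 1] z = xZ ∧ σ z ≠ z := by
  obtain ⟨u, hu⟩ := exists_iter n xZ
  obtain ⟨z, hz⟩ := exists_q u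
  have hz1 : q^[n + 1] z = xZ := by rw [Function.iterate_succ_apply, hz, hu]
  obtain ⟨σ, hσ, h⟩ := full_derivedSeries n 1 u hu (fun z => 1 - z) (by
    constructor
    · intro z hz
      rw [Function.iterate_one] at hz ⊢
      rw [q_one_sub, hz]
    · intro z z' hz hz' i hi
      interval_cases i
      · simp only [Function.iterate_zero, id]
        exact ⟨fun h => by rw [h], fun h => sub_right_injective h⟩
      · simp only [Function.iterate_one]
        rw [q_one_sub, q_one_sub])
  refine ⟨σ, hσ, z, hz1, ?_⟩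
  rw [h z (by rw [Function.iterate_one, hz])]
  exact (root_ne_one_sub hz1).symm

/-- the derived series acts trivially on the first levels -/
theorem derivedSeries_fixes (n : ℕ) : ∀ σ ∈ derivedSeries GG n, ∀ z, q^[n] z = xZ → σ z = z := by
  induction n with
  | zero =>
    intro σ _ z hz
    rw [Function.iterate_zero, id] at hz
    rw [hz, GG_x]
  | succ n ih =>
    have key : derivedSeries GG (n + 1) ≤
        { carrier := {σ : GG | ∀ z, q^[n + 1] z = xZ → σ z = z}
          mul_mem' := by
            intro a b ha hb z hz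
            change a (b z) = z
            rw [hb z hz, ha z hz]
          one_mem' := fun z _ => rfl
          inv_mem' := by
            intro a ha z hz
            have h1 := ha z hz
            nth_rewrite 1 [← h1]
            rw [← AlgEquiv.mul_apply, inv_mul_cancel]
            rfl : Subgroup GG } := by
      rw [derivedSeries_succ, Subgroup.commutator_le]
      intro σ hσ τ hτ z hz
      have h1 : ∀ ρ ∈ derivedSeries GG n, ρ z = z ∨ ρ z = 1 - z := by
        intro ρ hρ
        have h2 := ih ρ hρ (q z) (by rw [← Function.iterate_succ_apply]; exact hz)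
        have h3 := GG_iter ρ 1 z
        rw [Function.iterate_one, h2] at h3
        rcases q_eq_iff.mp h3.symm with h4 | h4
        · exact Or.inl h4
        · exact Or.inr h4
      have h2 : σ (τ z) = τ (σ z) := by
        rcases h1 σ hσ with h3 | h3 <;> rcases h1 τ hτ with h4 | h4 <;>
          simp only [h3, h4, map_sub, map_one]
      have h3 : (σ * τ) z = (τ * σ) z := h2
      have h4 : ⁅σ, τ⁆ * (τ * σ) = σ * τ := by
        rw [commutatorElement_def]
        group
      have h5 : ⁅σ, τ⁆ ((τ * σ) z) = (τ * σ) z := by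
        rw [← AlgEquiv.mul_apply, h4, h3]
      have h6 : (τ * σ) z = z ∨ (τ * σ) z = 1 - z := by
        change τ (σ z) = z ∨ τ (σ z) = 1 - z
        rcases h1 σ hσ with h3 | h3 <;> rcases h1 τ hτ with h4 | h4 <;>
          simp [h3, h4]
      rcases h6 with h6 | h6
      · rw [h6] at h5
        exact h5
      · rw [h6, map_sub, map_one] at h5
        exact sub_right_injective h5
    intro σ hσ
    exact key hσ

end Pool.Agent.Helper19.LU
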