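import Mathlib

/-!
# Galois groups and towers

`M / F` is a finite Galois extension inside an algebraically closed field `Ω`; for an intermediate
field `E` of `Ω / F` the subgroup `NN M E` of `Gal(M/F)` consists of the automorphisms which fix
`M ∩ E`.
-/

open IntermediateField Polynomial

namespace Pool.Agent.Helper19.LU

section Grp

variable {G : Type*} [Group G]

theorem derivedSeries_eq_bot_of_card {Q : Type*} [Group Q] [Finite Q] [Group.IsSolvable Q] {m : ℕ}
    (h : Nat.card Q ≤ m) : derivedSeries Q m = ⊥ := by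
  by_contra hne
  have key : ∀ i, i ≤ m → Nat.card (derivedSeries Q i) + i ≤ Nat.card Q := by
    intro i
    induction i with
    | zero =>
      intro _
      rw [derivedSeries_zero, add_zero]
      simp
    | succ i ih =>
      intro hi
      have h1 := ih (by omega)
      have h2 : derivedSeries Q i ≠ ⊥ := by
        intro h3
        apply hne
        have := derivedSeries_antitone (G := Q) (show i ≤ m by omega)
        rw [h3] at this
        exact le_bot_iff.mp this
      have h3 : derivedSeries Q (i + 1) < derivedSeries Q i := by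
        rw [derivedSeries_succ]
        exact Group.IsSolvable.commutator_lt_of_ne_bot h2
      have h4 : Nat.card (derivedSeries Q (i + 1)) < Nat.card (derivedSeries Q i) := by
        have h5 : ((derivedSeries Q (i + 1) : Subgroup Q) : Set Q) ⊂ derivedSeries Q i := h3
        exact Set.ncard_lt_ncard h5 (Set.toFinite _)
      omega
  have h1 := key m le_rfl
  have h2 : 0 < Nat.card (derivedSeries Q m) := Nat.card_pos
  have h3 : Nat.card (derivedSeries Q m) ≠ 1 := by
    intro h
    exact hne (Subgroup.card_eq_one.mp h)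
  omega

theorem derivedSeries_add_le (c m : ℕ) : derivedSeries G (c + m) ≤
    (derivedSeries (derivedSeries G c) m).map (derivedSeries G c).subtype := by
  induction m with
  | zero =>
    rw [add_zero, derivedSeries_zero, ← MonoidHom.range_eq_map, Subgroup.range_subtype]
  | succ m ih =>
    rw [← add_assoc, derivedSeries_succ, derivedSeries_succ, Subgroup.map_commutator]
    exact Subgroup.commutator_mono ih ih

theorem derivedSeries_le_of_relIndex [Finite G] [Group.IsSolvable G] {c d : ℕ} {A B : Subgroup G}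
    (hA : derivedSeries G c ≤ A) (hd : B.relIndex A ≤ d) :
    derivedSeries G (c + d.factorial) ≤ B := by
  set H := derivedSeries G c with hH
  have h1 : B.relIndex H ≤ d := by
    refine le_trans ?_ hd
    exact Subgroup.relIndex_le_of_le_right hA (Subgroup.index_ne_zero_of_finite)
  set B' := B.subgroupOf H with hB'
  have h2 : Nat.card (H ⧸ B') ≤ d := h1
  have h3 : Nat.card (H ⧸ B'.normalCore) ≤ d.factorial := by
    have h4 : B'.normalCore = (MulAction.toPermHom H (H ⧸ B')).ker := Subgroup.normalCore_eq_ker B'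
    have h5 : Nat.card (H ⧸ B'.normalCore) = Nat.card (MulAction.toPermHom H (H ⧸ B')).range := by
      rw [h4]
      exact Nat.card_congr (QuotientGroup.quotientKerEquivRange _).toEquiv
    rw [h5]
    refine (Nat.card_le_card_of_injective _ (Subgroup.subtype_injective _)).trans ?_
    rw [Nat.card_perm]
    exact Nat.factorial_le h2
  have h4 := derivedSeries_eq_bot_of_card h3
  have h5 : derivedSeries H d.factorial ≤ B' := by
    refine le_trans ?_ (Subgroup.normalCore_le B')
    have h6 := map_derivedSeries_eq (f := QuotientGroup.mk' B'.normalCore)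
      (QuotientGroup.mk'_surjective _) d.factorial
    rw [h4, Subgroup.map_eq_bot_iff, QuotientGroup.ker_mk'] at h6
    exact h6
  refine (derivedSeries_add_le c _).trans ?_
  rw [Subgroup.map_le_iff_le_comap]
  exact h5

end Grp

section Field

variable {F Ω : Type*} [Field F] [Field Ω] [Algebra F Ω] [IsAlgClosed Ω]
variable (M : IntermediateField F Ω)

/-- the automorphisms of `M / F` which fix `M ∩ E` -/
def NN (E : IntermediateField F Ω) : Subgroup (M ≃ₐ[F] M) where
  carrier := {σ | ∀ z : M, (z : Ω) ∈ E → σ z = z}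
  mul_mem' := by
    intro a b ha hb z hz
    rw [AlgEquiv.mul_apply, hb z hz, ha z hz]
  one_mem' := fun z _ => rfl
  inv_mem' := by
    intro a ha z hz
    have h := ha z hz
    calc a⁻¹ z = a⁻¹ (a z) := by rw [h]
      _ = z := by rw [← AlgEquiv.mul_apply, inv_mul_cancel]; rfl

variable {M}

theorem mem_NN {E : IntermediateField F Ω} {σ : M ≃ₐ[F] M} :
    σ ∈ NN M E ↔ ∀ z : M, (z : Ω) ∈ E → σ z = z := Iff.rfl

theorem NN_le_of_forall {E E' : IntermediateField F Ω}
    (h : ∀ z : M, (z : Ω) ∈ E' → (z : Ω) ∈ E) : NN M E ≤ NN M E' := fun _ hσ z hz => hσ z (h z hz)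

variable [FiniteDimensional F M] [Normal F M]

theorem coeff_minpoly_mem (E : IntermediateField F Ω) (z : M) (i : ℕ) :
    ((minpoly E (z : Ω)).coeff i : Ω) ∈ M := by
  have hz : IsIntegral F (z : Ω) := by
    have := IsIntegral.of_finite F z
    exact this.map M.val
  have hzE : IsIntegral E (z : Ω) := hz.tower_top
  set p := (minpoly E (z : Ω)).map (algebraMap E Ω) with hp
  have hsp : p.Splits := IsAlgClosed.splits p
  have hm : p.Monic := (minpoly.monic hzE).map _
  have hroots : ∀ a ∈ p.roots, a ∈ (algebraMap M Ω).range := by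
    intro a ha
    have h1 : aeval a (minpoly E (z : Ω)) = 0 := by
      rw [mem_roots hm.ne_zero, IsRoot.def, hp, eval_map_algebraMap] at ha
      exact ha
    have h2 : aeval a (minpoly F (z : Ω)) = 0 := by
      obtain ⟨q, hq⟩ := minpoly.dvd_map_of_isScalarTower F E (z : Ω)
      have h3 : aeval a ((minpoly F (z : Ω)).map (algebraMap F E)) = 0 := by
        rw [hq, map_mul, h1, zero_mul]
      rwa [aeval_map_algebraMap] at h3
    have h3 : minpoly F (z : Ω) = minpoly F z := minpoly.algHom_eq M.val M.val.injective z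
    rw [h3] at h2
    have h4 := Normal.splits (inferInstance : Normal F M) z
    refine h4.mem_range_of_isRoot ?_ (i := algebraMap M Ω) (x := a) ?_
    · exact Polynomial.map_ne_zero (minpoly.ne_zero (IsIntegral.of_finite F z))
    · rw [IsRoot.def, eval_map_algebraMap, aeval_map_algebraMap]
      exact h2
  have h1 := hsp.mem_lift_of_roots_mem_range hm (algebraMap M Ω) hroots
  rw [Polynomial.lifts_iff_coeff_lifts] at h1
  obtain ⟨m, hm⟩ := h1 i
  rw [hp, coeff_map] at hm
  have h2 : (algebraMap E Ω) ((minpoly E (z : Ω)).coeff i) = ((minpoly E (z : Ω)).coeff i : Ω) := rfl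
  rw [← h2, ← hm]
  exact m.2

theorem aeval_minpoly_eq_zero {E : IntermediateField F Ω} {σ : M ≃ₐ[F] M} (hσ : σ ∈ NN M E)
    (z : M) : aeval (σ z : Ω) (minpoly E (z : Ω)) = 0 := by
  have h1 := minpoly.aeval E (z : Ω)
  rw [aeval_eq_sum_range] at h1 ⊢
  have h2 : ∀ i, ∃ m : M, (m : Ω) = ((minpoly E (z : Ω)).coeff i : Ω) := fun i =>
    ⟨⟨_, coeff_minpoly_mem E z i⟩, rfl⟩
  choose m hm using h2
  have h3 : ∑ i ∈ Finset.range ((minpoly E (z : Ω)).natDegree + 1), m i * z ^ i = 0 := by
    apply Subtype.ext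
    rw [ZeroMemClass.coe_zero, ← h1]
    refine (map_sum M.val _ _).trans ?_
    refine Finset.sum_congr rfl fun i _ => ?_
    rw [map_mul, map_pow, Algebra.smul_def]
    exact congrArg (· * (z : Ω) ^ i) (hm i)
  have h4 := congrArg σ h3
  rw [map_sum, map_zero] at h4
  have h5 := congrArg M.val h4
  rw [map_sum, map_zero] at h5
  rw [← h5]
  refine Finset.sum_congr rfl fun i _ => ?_
  have h6 : (m i : Ω) ∈ E := by
    rw [hm]
    exact ((minpoly E (z : Ω)).coeff i).2
  rw [map_mul σ, map_pow σ, map_mul M.val, map_pow M.val, hσ (m i) h6, Algebra.smul_def]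
  exact congrArg (· * (σ z : Ω) ^ i) (hm i).symm

variable [CharZero F]

/-- extension of automorphisms in `NN M E` to the algebraic closure of `E` -/
theorem exists_lift {E : IntermediateField F Ω} {σ : M ≃ₐ[F] M} (hσ : σ ∈ NN M E) :
    ∃ s : (algebraicClosure E Ω) ≃ₐ[E] (algebraicClosure E Ω),
      ∀ (z : M) (w : algebraicClosure E Ω), (w : Ω) = z → (s w : Ω) = σ z := by
  obtain ⟨θ, hθ⟩ := Field.exists_primitive_element F M
  have hint : ∀ z : M, IsIntegral E (z : Ω) := by
    intro z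
    have := IsIntegral.of_finite F z
    exact (this.map M.val).tower_top
  let j : M → algebraicClosure E Ω := fun z => ⟨z, mem_algebraicClosure_iff'.mpr (hint z)⟩
  have hmin : ∀ w : algebraicClosure E Ω, minpoly E w = minpoly E (w : Ω) := fun w =>
    (minpoly.algHom_eq (algebraicClosure E Ω).val (algebraicClosure E Ω).val.injective w).symm
  have h1 : minpoly E (j (σ θ)) = minpoly E (j θ) := by
    rw [hmin, hmin]
    symm
    apply minpoly.eq_of_irreducible_of_monic (minpoly.irreducible (hint θ))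
    · exact aeval_minpoly_eq_zero hσ θ
    · exact minpoly.monic (hint θ)
  have : Normal E (algebraicClosure E Ω) := inferInstance
  obtain ⟨s, hs⟩ := (Normal.minpoly_eq_iff_mem_orbit (algebraicClosure E Ω)).mp h1
  refine ⟨s, ?_⟩
  have hs' : s (j θ) = j (σ θ) := hs
  let j' : M →ₐ[F] algebraicClosure E Ω :=
    { toFun := j
      map_one' := rfl
      map_mul' := fun _ _ => rfl
      map_zero' := rfl
      map_add' := fun _ _ => rfl
      commutes' := fun _ => rfl }
  let f1 : M →ₐ[F] Ω := ((algebraicClosure E Ω).val.restrictScalars F).comp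
    ((s.toAlgHom.restrictScalars F).comp j')
  let f2 : M →ₐ[F] Ω := M.val.comp σ.toAlgHom
  have h2 : f1 = f2 := by
    apply AlgHom.ext
    intro z
    have hz : z ∈ F⟮θ⟯ := by rw [hθ]; trivial
    obtain ⟨r, q, rfl⟩ := (mem_adjoin_simple_iff F z).mp hz
    have h3 : f1 θ = f2 θ := congrArg (fun w : algebraicClosure E Ω => (w : Ω)) hs'
    rw [map_div₀, map_div₀, ← aeval_algHom_apply, ← aeval_algHom_apply, ← aeval_algHom_apply,
      ← aeval_algHom_apply, h3]
  intro z w hw
  have h3 : w = j z := Subtype.ext hw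
  rw [h3]
  exact congrArg (fun f : M →ₐ[F] Ω => f z) h2

/-- a radical extension is abelian -/
theorem NN_comm {E : IntermediateField F Ω} {t : Ω} {n : ℕ} (hn : 0 < n)
    (ht : t ^ n ∈ E) (hroot : ∀ ζ : Ω, ζ ^ n = 1 → ζ ∈ E) {σ τ : M ≃ₐ[F] M}
    (hσ : σ ∈ NN M E) (hτ : τ ∈ NN M E) {z : M} (hz : (z : Ω) ∈ E ⊔ F⟮t⟯) :
    σ (τ z) = τ (σ z) := by
  obtain ⟨s, hs⟩ := exists_lift hσ
  obtain ⟨r, hr⟩ := exists_lift hτ
  have htint : IsIntegral E t := by
    have h1 : IsIntegral E (t ^ n) := isIntegral_algebraMap (x := (⟨t ^ n, ht⟩ : E))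
    exact IsIntegral.of_pow hn h1
  set u : algebraicClosure E Ω := ⟨t, mem_algebraicClosure_iff'.mpr htint⟩ with hu
  -- `s` and `r` multiply `u` by elements of `E`
  have hmul : ∀ s : (algebraicClosure E Ω) ≃ₐ[E] (algebraicClosure E Ω),
      ∃ ζ : E, s u = algebraMap E _ ζ * u := by
    intro s
    by_cases h0 : t = 0
    · refine ⟨0, ?_⟩
      have : u = 0 := Subtype.ext h0
      rw [this, map_zero, mul_zero]
    · have hu0 : u ≠ 0 := fun h => h0 (congrArg (fun w : algebraicClosure E Ω => (w : Ω)) h)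
      have h1 : (s u / u) ^ n = 1 := by
        have h2 : u ^ n = algebraMap E (algebraicClosure E Ω) ⟨t ^ n, ht⟩ := Subtype.ext rfl
        rw [div_pow, ← map_pow, h2, AlgEquiv.commutes, ← h2, div_self (pow_ne_zero n hu0)]
      have h2 : ((s u / u : algebraicClosure E Ω) : Ω) ^ n = 1 := by
        have := congrArg (fun w : algebraicClosure E Ω => (w : Ω)) h1
        simpa using this
      refine ⟨⟨_, hroot _ h2⟩, ?_⟩
      have h3 : algebraMap E (algebraicClosure E Ω) ⟨_, hroot _ h2⟩ = s u / u := Subtype.ext rfl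
      rw [h3, div_mul_cancel₀ _ hu0]
  obtain ⟨ζ, hζ⟩ := hmul s
  obtain ⟨ξ, hξ⟩ := hmul r
  have hcomm : s (r u) = r (s u) := by
    rw [hζ, hξ, map_mul, map_mul, hζ, hξ, AlgEquiv.commutes, AlgEquiv.commutes]
    ring
  have hz' : (z : Ω) ∈ E⟮t⟯ := by
    have h1 : (z : Ω) ∈ (E⟮t⟯).restrictScalars F := by
      rw [restrictScalars_adjoin_eq_sup]
      exact hz
    exact h1
  obtain ⟨p, q, hpq⟩ := (mem_adjoin_simple_iff E (z : Ω)).mp hz'
  have hzw : ∀ w : algebraicClosure E Ω, (w : Ω) = z → s (r w) = r (s w) := by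
    intro w hw
    have h1 : w = aeval u p / aeval u q := by
      apply Subtype.ext
      rw [hw, hpq]
      have h2 : ∀ p : E[X], ((aeval u p : algebraicClosure E Ω) : Ω) = aeval t p := by
        intro p
        exact (aeval_algHom_apply (algebraicClosure E Ω).val u p).symm
      rw [IntermediateField.coe_div, h2, h2]
    rw [h1, map_div₀, map_div₀, map_div₀, map_div₀]
    have h3 : ∀ p : E[X], s (r (aeval u p)) = r (s (aeval u p)) := by
      intro p
      have h4 : ∀ s : (algebraicClosure E Ω) ≃ₐ[E] (algebraicClosure E Ω), ∀ w : algebraicClosure E Ω,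
          s (aeval w p) = aeval (s w) p := fun s w => (aeval_algHom_apply s.toAlgHom w p).symm
      rw [h4, h4, h4, h4, hcomm]
    rw [h3, h3]
  have hint : IsIntegral E (z : Ω) := ((IsIntegral.of_finite F z).map M.val).tower_top
  have hzw' := hzw ⟨z, mem_algebraicClosure_iff'.mpr hint⟩ rfl
  apply Subtype.ext
  rw [← hs (τ z) _ (hr z ⟨z, mem_algebraicClosure_iff'.mpr hint⟩ rfl), hzw',
    hr (σ z) _ (hs z ⟨z, mem_algebraicClosure_iff'.mpr hint⟩ rfl)]

theorem commutator_NN_le {E : IntermediateField F Ω} {t : Ω} {n : ℕ} (hn : 0 < n)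
    (ht : t ^ n ∈ E) (hroot : ∀ ζ : Ω, ζ ^ n = 1 → ζ ∈ E) :
    ⁅NN M E, NN M E⁆ ≤ NN M (E ⊔ F⟮t⟯) := by
  rw [Subgroup.commutator_le]
  intro σ hσ τ hτ
  rw [mem_NN]
  intro z hz
  have h1 : ∀ (ρ : M ≃ₐ[F] M) (w : M), ρ (ρ⁻¹ w) = w := fun ρ w => by
    rw [← AlgEquiv.mul_apply, mul_inv_cancel]
    rfl
  have h2 : σ⁻¹ (τ⁻¹ z) = τ⁻¹ (σ⁻¹ z) := NN_comm hn ht hroot (inv_mem hσ) (inv_mem hτ) hz
  change σ (τ (σ⁻¹ (τ⁻¹ z))) = z
  rw [h2, h1, h1]

/-- an extension of degree at most `d` gives a subgroup of index at most `d` -/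
theorem relIndex_NN_le {E : IntermediateField F Ω} {t : Ω} {d : ℕ} {p : E[X]} (hp : p ≠ 0)
    (hpt : aeval t p = 0) (hd : p.natDegree ≤ d) :
    (NN M (E ⊔ F⟮t⟯)).relIndex (NN M E) ≤ d := by
  have hint : IsIntegral E t := (show IsAlgebraic E t from ⟨p, hp, hpt⟩).isIntegral
  have : FiniteDimensional F ↥(M ⊓ (E ⊔ F⟮t⟯)) :=
    FiniteDimensional.of_injective (inclusion (inf_le_left : M ⊓ (E ⊔ F⟮t⟯) ≤ M)).toLinearMap
      (inclusion_injective (inf_le_left : M ⊓ (E ⊔ F⟮t⟯) ≤ M))
  obtain ⟨α, hα⟩ := Field.exists_primitive_element F ↥(M ⊓ (E ⊔ F⟮t⟯))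
  set θ : M := ⟨α, α.2.1⟩ with hθ
  have hθE : (θ : Ω) ∈ E⟮t⟯ := by
    have h1 : (θ : Ω) ∈ (E⟮t⟯).restrictScalars F := by
      rw [restrictScalars_adjoin_eq_sup]
      exact α.2.2
    exact h1
  have hθint : IsIntegral E (θ : Ω) := ((IsIntegral.of_finite F θ).map M.val).tower_top
  -- the degree of `θ`
  have hdeg : (minpoly E (θ : Ω)).natDegree ≤ d := by
    have h1 : FiniteDimensional E E⟮t⟯ := adjoin.finiteDimensional hint
    have h2 : (minpoly E (⟨θ, hθE⟩ : E⟮t⟯)).natDegree ≤ Module.finrank E E⟮t⟯ :=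
      minpoly.natDegree_le _
    have h3 : minpoly E (θ : Ω) = minpoly E (⟨θ, hθE⟩ : E⟮t⟯) :=
      minpoly.algHom_eq (E⟮t⟯).val (E⟮t⟯).val.injective ⟨θ, hθE⟩
    rw [h3]
    refine h2.trans ?_
    rw [adjoin.finrank hint]
    exact (natDegree_le_natDegree (minpoly.degree_le_of_ne_zero E t hp hpt)).trans hd
  -- the stabilizer of `θ`
  have hstab : ∀ σ : M ≃ₐ[F] M, σ θ = θ → σ ∈ NN M (E ⊔ F⟮t⟯) := by
    intro σ hσ
    rw [mem_NN]
    intro z hz
    have h1 : (⟨z, z.2, hz⟩ : ↥(M ⊓ (E ⊔ F⟮t⟯))) ∈ F⟮α⟯ := by rw [hα]; trivial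
    obtain ⟨r, q, hrq⟩ := (mem_adjoin_simple_iff F _).mp h1
    have h2 : z = aeval θ r / aeval θ q := by
      have h3 := congrArg (inclusion (inf_le_left : M ⊓ (E ⊔ F⟮t⟯) ≤ M)) hrq
      rw [map_div₀, ← aeval_algHom_apply, ← aeval_algHom_apply] at h3
      exact h3
    have h3 : ∀ r : F[X], σ (aeval θ r) = aeval θ r := by
      intro r
      have := aeval_algHom_apply σ.toAlgHom θ r
      have h4 : σ.toAlgHom θ = θ := hσ
      rw [h4] at this
      exact this.symm
    rw [h2, map_div₀, h3, h3]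
  set S : Set Ω := ((minpoly E (θ : Ω)).rootSet Ω) with hS
  have hScard : S.ncard ≤ d := by
    classical
    rw [hS, rootSet_def, Set.ncard_coe_finset]
    refine (Multiset.toFinset_card_le _).trans ((card_roots' _).trans ?_)
    exact natDegree_map_le.trans hdeg
  rw [Subgroup.relIndex]
  let f : (NN M E) ⧸ ((NN M (E ⊔ F⟮t⟯)).subgroupOf (NN M E)) → S := by
    refine Quotient.lift (fun σ => ⟨(σ.1 θ : Ω), ?_⟩) ?_
    · rw [hS, mem_rootSet]
      exact ⟨minpoly.ne_zero hθint, aeval_minpoly_eq_zero σ.2 θ⟩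
    · intro σ τ h
      apply Subtype.ext
      have h1 : (σ⁻¹ * τ : NN M E).1 ∈ NN M (E ⊔ F⟮t⟯) := by
        have := QuotientGroup.leftRel_apply.mp h
        exact this
      have h2 := mem_NN.mp h1 θ α.2.2
      have h3 : (σ.1)⁻¹ (τ.1 θ) = θ := h2
      have h4 := congrArg σ.1 h3
      have h5 : σ.1 ((σ.1)⁻¹ (τ.1 θ)) = τ.1 θ := by
        rw [← AlgEquiv.mul_apply, mul_inv_cancel]
        rfl
      rw [h5] at h4
      exact (congrArg (fun w : M => (w : Ω)) h4).symm
  have hf : Function.Injective f := by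
    rintro ⟨σ⟩ ⟨τ⟩ h
    apply Quotient.sound
    apply QuotientGroup.leftRel_apply.mpr
    have h0 : (σ.1 θ : Ω) = τ.1 θ := congrArg (fun w : S => (w : Ω)) h
    have h1 : σ.1 θ = τ.1 θ := Subtype.ext h0
    have h2 : ((σ.1)⁻¹ * τ.1) θ = θ := by
      rw [AlgEquiv.mul_apply, ← h1, ← AlgEquiv.mul_apply, inv_mul_cancel]
      rfl
    exact hstab _ h2
  have : Finite S := (minpoly E (θ : Ω)).rootSet_finite Ω
  exact (Nat.card_le_card_of_injective f hf).trans hScard

end Field

end Pool.Agent.Helper19.LU
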