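import Pool.Agent.Helper19.LU.Full
import Pool.Agent.Helper19.LU.Gal

/-!
# The Galois group inside an arbitrary algebraically closed field
-/

open Polynomial IntermediateField
open scoped commutatorElement

namespace Pool.Agent.Helper19.LU

variable (Ω : Type*) [Field Ω] [Algebra FF Ω] [IsAlgClosed Ω]

/-- the field generated by the roots of `q^[n] Y = x` -/
noncomputable abbrev MM (n : ℕ) : IntermediateField FF Ω := adjoin FF ((Pn n).rootSet Ω)

instance MM_split (n : ℕ) : IsSplittingField FF (MM Ω n) (Pn n) :=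
  IntermediateField.adjoin_rootSet_isSplittingField (IsAlgClosed.splits _)

instance MM_fin (n : ℕ) : FiniteDimensional FF (MM Ω n) :=
  IsSplittingField.finiteDimensional (MM Ω n) (Pn n)

instance MM_normal (n : ℕ) : Normal FF (MM Ω n) := Normal.of_isSplittingField (Pn n)

variable {Ω}

theorem mem_MM {n : ℕ} {y : Ω} (hy : q^[n] y = algebraMap FF Ω RatFunc.X) : y ∈ MM Ω n := by
  apply subset_adjoin
  rw [mem_rootSet]
  refine ⟨Pn_ne_zero n, ?_⟩
  rw [aeval_Pn, hy, sub_self]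

/-- an embedding in `Z` and the restriction of automorphisms -/
theorem exists_restrict (n : ℕ) : ∃ (i : MM Ω n →ₐ[FF] Z) (ρ : GG →* (MM Ω n ≃ₐ[FF] MM Ω n)),
    Function.Surjective ρ ∧ ∀ σ y, i (ρ σ y) = σ (i y) := by
  let i : MM Ω n →ₐ[FF] Z := IsAlgClosed.lift
  let _ : Algebra (MM Ω n) Z := i.toRingHom.toAlgebra
  have : IsScalarTower FF (MM Ω n) Z := IsScalarTower.of_algebraMap_eq fun r => (i.commutes r).symm
  have : Normal FF Z := inferInstance
  refine ⟨i, AlgEquiv.restrictNormalHom (MM Ω n), AlgEquiv.restrictNormalHom_surjective Z, ?_⟩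
  intro σ y
  exact AlgEquiv.restrictNormal_commutes σ (MM Ω n) y

theorem map_root {n : ℕ} {y : MM Ω n} (hy : q^[n] (y : Ω) = algebraMap FF Ω RatFunc.X)
    (i : MM Ω n →ₐ[FF] Z) : q^[n] (i y) = xZ := by
  have h1 : q^[n] y = algebraMap FF (MM Ω n) RatFunc.X := by
    apply Subtype.ext
    have := iter_map ((MM Ω n).val : MM Ω n →+* Ω) n y
    exact this.trans hy
  have h2 := iter_map (i : MM Ω n →+* Z) n y
  have h3 : (i : MM Ω n →+* Z) (q^[n] y) = xZ := by
    rw [h1]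
    exact i.commutes _
  rw [← h3]
  exact h2.symm

/-- an automorphism which fixes the roots is trivial -/
theorem eq_one_of_fixes {n : ℕ} {i : MM Ω n →ₐ[FF] Z} {τ : MM Ω n ≃ₐ[FF] MM Ω n} {σ : GG}
    (hi : ∀ y, i (τ y) = σ (i y)) (h : ∀ z, q^[n] z = xZ → σ z = z) : τ = 1 := by
  -- the automorphism fixes all roots
  have h1 : ∀ y : Ω, ∀ hy : y ∈ (Pn n).rootSet Ω,
      τ ⟨y, subset_adjoin FF _ hy⟩ = ⟨y, subset_adjoin FF _ hy⟩ := by
    intro y hy
    have h0 : i (τ ⟨y, subset_adjoin FF _ hy⟩) = i ⟨y, subset_adjoin FF _ hy⟩ := by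
      rw [hi]
      apply h
      apply map_root
      rw [mem_rootSet, aeval_Pn] at hy
      exact sub_eq_zero.mp hy.2
    exact i.injective h0
  have h2 : ((MM Ω n).val.comp τ.toAlgHom) = (MM Ω n).val := by
    apply IntermediateField.algHom_ext_of_eq_adjoin FF (S := MM Ω n) rfl
    intro y hy
    exact congrArg (fun w : MM Ω n => (w : Ω)) (h1 y hy)
  apply AlgEquiv.ext
  intro y
  apply Subtype.ext
  exact congrArg (fun f : MM Ω n →ₐ[FF] Ω => f y) h2

instance MM_solvable (n : ℕ) : Group.IsSolvable (MM Ω n ≃ₐ[FF] MM Ω n) := by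
  obtain ⟨i, ρ, hρ, hi⟩ := exists_restrict (Ω := Ω) n
  refine ⟨n, ?_⟩
  rw [eq_bot_iff, ← map_derivedSeries_eq hρ n]
  rintro _ ⟨σ, hσ, rfl⟩
  rw [Subgroup.mem_bot]
  exact eq_one_of_fixes (hi σ) (derivedSeries_fixes n σ hσ)

theorem pow_fixes (n : ℕ) (σ : GG) : ∀ z, q^[n] z = xZ → (σ ^ (2 ^ n)) z = z := by
  induction n with
  | zero =>
    intro z hz
    rw [Function.iterate_zero, id] at hz
    rw [pow_zero, pow_one, hz, GG_x]
  | succ n ih =>
    intro z hz
    have h1 : σ ^ (2 ^ (n + 1)) = σ ^ (2 ^ n) * σ ^ (2 ^ n) := by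
      rw [← pow_add]
      congr 1
      ring
    rw [h1, AlgEquiv.mul_apply]
    have h2 := ih (q z) (by rw [← Function.iterate_succ_apply]; exact hz)
    have h3 := GG_iter (σ ^ (2 ^ n)) 1 z
    rw [Function.iterate_one, h2] at h3
    rcases q_eq_iff.mp h3.symm with h4 | h4
    · rw [h4, h4]
    · rw [h4, map_sub, map_one, h4]
      ring

theorem MM_pgroup (n : ℕ) : IsPGroup 2 (MM Ω n ≃ₐ[FF] MM Ω n) := by
  obtain ⟨i, ρ, hρ, hi⟩ := exists_restrict (Ω := Ω) n
  intro τ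
  obtain ⟨σ, rfl⟩ := hρ τ
  refine ⟨n, ?_⟩
  rw [← map_pow]
  exact eq_one_of_fixes (hi _) (pow_fixes n σ)

/-- deep elements of the derived series of the Galois group move every root -/
theorem le_of_derivedSeries_fixes {n c : ℕ} {y : MM Ω n}
    (hy : q^[n] (y : Ω) = algebraMap FF Ω RatFunc.X)
    (h : ∀ σ ∈ derivedSeries (MM Ω n ≃ₐ[FF] MM Ω n) c, σ y = y) : n ≤ c := by
  by_contra hc
  push Not at hc
  obtain ⟨m, rfl⟩ : ∃ m, n = m + 1 := ⟨n - 1, by omega⟩
  obtain ⟨i, ρ, hρ, hi⟩ := exists_restrict (Ω := Ω) (m + 1)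
  obtain ⟨σ, hσ, z, hz, hσz⟩ := exists_mem_derivedSeries m
  obtain ⟨g, hg⟩ := exists_conj (map_root hy i) hz
  have h1 : σ ∈ derivedSeries GG c := derivedSeries_antitone GG (by omega : c ≤ m) hσ
  have h2 : g⁻¹ * σ * g ∈ derivedSeries GG c := by
    have := (inferInstance : (derivedSeries GG c).Normal).conj_mem σ h1 g⁻¹
    rwa [inv_inv] at this
  have h3 := h _ (map_derivedSeries_le_derivedSeries ρ c ⟨_, h2, rfl⟩)
  have h4 := hi (g⁻¹ * σ * g) y
  rw [h3] at h4
  apply hσz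
  have h5 : g (i y) = g ((g⁻¹ * σ * g) (i y)) := congrArg g h4
  have h6 : g ((g⁻¹ * σ * g) (i y)) = σ (g (i y)) := by
    change g (g⁻¹ (σ (g (i y)))) = _
    rw [← AlgEquiv.mul_apply, mul_inv_cancel]
    rfl
  rw [h6, hg] at h5
  exact h5.symm

end Pool.Agent.Helper19.LU
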