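import Pool.Agent.Helper19.LU.NNS
import Pool.Agent.Helper19.LU.Ell

/-!
# Adjunction of algebraic solutions of Riccati and Weierstrass equations
-/

open Polynomial IntermediateField
open scoped commutatorElement

namespace Pool.Agent.Helper19.LU

section Step

variable {F Ω : Type*} [Field F] [Field Ω] [Algebra F Ω] [CharZero F]
  [Algebra ℂ Ω] {D : Derivation ℂ Ω Ω}

/-- the derivation on a finite extension of a differential field -/
theorem exists_DLam (hconst : ∀ x : Ω, D x = 0 → ∃ c : ℂ, algebraMap ℂ Ω c = x)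
    {E : IntermediateField F Ω} (hE : ∀ a ∈ E, D a ∈ E) (hC : ∀ c : ℂ, algebraMap ℂ Ω c ∈ E)
    (Λ : IntermediateField E Ω) [FiniteDimensional E Λ] :
    ∃ (_ : Algebra ℂ Λ) (DΛ : Derivation ℂ Λ Λ), (∀ x : Λ, ((DΛ x : Λ) : Ω) = D x) ∧
      (∀ c : ℂ, ((algebraMap ℂ Λ c : Λ) : Ω) = algebraMap ℂ Ω c) ∧
      (∀ x : Λ, DΛ x = 0 → ∃ c : ℂ, algebraMap ℂ Λ c = x) ∧
      (∀ (s : Λ ≃ₐ[E] Λ) (x : Λ), DΛ (s x) = s (DΛ x)) ∧
      ∀ (s : Λ ≃ₐ[E] Λ) (c : ℂ), s (algebraMap ℂ Λ c) = algebraMap ℂ Λ c := by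
  have hCΛ : ∀ c : ℂ, algebraMap ℂ Ω c ∈ Λ := fun c => Λ.algebraMap_mem ⟨_, hC c⟩
  let alg : Algebra ℂ Λ := (RingHom.codRestrict (algebraMap ℂ Ω) Λ hCΛ).toAlgebra
  have h1 : ∀ c : ℂ, ((algebraMap ℂ Λ c : Λ) : Ω) = algebraMap ℂ Ω c := fun c => rfl
  let d : E →+ E :=
    { toFun := fun a => ⟨D a, hE a a.2⟩
      map_zero' := by ext; simp
      map_add' := fun a b => by ext; simp }
  have hd : ∀ a, D (algebraMap E Ω a) = algebraMap E Ω (d a) := fun a => rfl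
  have hΛ : ∀ x ∈ Λ, D x ∈ Λ := by
    intro x hx
    have h2 : IsIntegral E x := (IsIntegral.of_finite E (⟨x, hx⟩ : Λ)).map Λ.val
    have h3 : E⟮x⟯ ≤ Λ := by
      rw [adjoin_simple_le_iff]
      exact hx
    exact h3 (D_mem_adjoin hd h2)
  let lin : Λ →ₗ[ℂ] Λ :=
    { toFun := fun x => ⟨D x, hΛ x x.2⟩
      map_add' := fun x y => Subtype.ext (map_add D (x : Ω) y)
      map_smul' := by
        intro c x
        apply Subtype.ext
        change D ((c • x : Λ) : Ω) = ((c • (⟨D x, hΛ x x.2⟩ : Λ) : Λ) : Ω)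
        rw [Algebra.smul_def, Algebra.smul_def]
        change D (algebraMap ℂ Ω c * (x : Ω)) = algebraMap ℂ Ω c * D (x : Ω)
        rw [Derivation.leibniz, Derivation.map_algebraMap, smul_zero, add_zero, smul_eq_mul] }
  let DΛ : Derivation ℂ Λ Λ := Derivation.mk' lin (by
    intro x y
    apply Subtype.ext
    change D ((x * y : Λ) : Ω) = (x : Ω) * D y + (y : Ω) * D x
    change D ((x : Ω) * y) = _
    rw [Derivation.leibniz]
    rfl)
  have h2 : ∀ x : Λ, ((DΛ x : Λ) : Ω) = D x := fun x => rfl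
  refine ⟨alg, DΛ, h2, h1, ?_, ?_, ?_⟩
  · intro x hx
    obtain ⟨c, hc⟩ := hconst x (by rw [← h2, hx]; rfl)
    exact ⟨c, Subtype.ext hc⟩
  · intro s x
    have hdΛ : ∀ a, DΛ (algebraMap E Λ a) = algebraMap E Λ (d a) := fun a => Subtype.ext rfl
    exact D_algEquiv hdΛ s (IsIntegral.of_finite E x)
  · intro s c
    exact s.commutes ⟨_, hC c⟩

variable [IsAlgClosed Ω] {M : IntermediateField F Ω} [FiniteDimensional F M] [Normal F M]

/-- a solution of a Riccati equation which is algebraic costs at most `2` -/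
theorem ric_NN_le (hp : IsPGroup 2 (M ≃ₐ[F] M))
    (hconst : ∀ x : Ω, D x = 0 → ∃ c : ℂ, algebraMap ℂ Ω c = x) {n : ℕ}
    {E : IntermediateField F Ω} (hE : ∀ a ∈ E, D a ∈ E) (hC : ∀ c : ℂ, algebraMap ℂ Ω c ∈ E)
    (hA : derivedSeries (M ≃ₐ[F] M) n ≤ NN M E) {t a b c : Ω} (ha : a ∈ E) (hb : b ∈ E)
    (hc : c ∈ E) (ht : IsIntegral E t) (hD : D t = a * t ^ 2 + b * t + c) :
    derivedSeries (M ≃ₐ[F] M) (n + 2) ≤ NN M (E ⊔ F⟮t⟯) := by
  obtain ⟨Λ, hfin, htΛ, hM, S, hS, hSf, ρ, hρ, hρ'⟩ := exists_sylow M hp ht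
  obtain ⟨alg, DΛ, h1, h2, h3, h4, h5⟩ := exists_DLam hconst hE hC Λ
  refine derivedSeries_le_NN_of_fix hA hρ hρ' fun s hs => sup_le (le_fixF Λ s.1) ?_
  rw [adjoin_simple_le_iff]
  refine ⟨htΛ, ?_⟩
  exact derivedSeries_two_fixes (S := S) hS h3 (fun s x => h4 s.1 x) (fun s c => h5 s.1 c)
    (a := algebraMap E Λ ⟨a, ha⟩) (b := algebraMap E Λ ⟨b, hb⟩) (c := algebraMap E Λ ⟨c, hc⟩)
    (t := ⟨t, htΛ⟩) (fun s => s.1.commutes _) (fun s => s.1.commutes _)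
    (fun s => s.1.commutes _) (Subtype.ext ((h1 ⟨t, htΛ⟩).trans hD)) s hs

/-- a solution of a Weierstrass equation which is algebraic costs at most `1` -/
theorem ell_NN_le (hp : IsPGroup 2 (M ≃ₐ[F] M))
    (hconst : ∀ x : Ω, D x = 0 → ∃ c : ℂ, algebraMap ℂ Ω c = x) {n : ℕ}
    {E : IntermediateField F Ω} (hE : ∀ a ∈ E, D a ∈ E) (hC : ∀ c : ℂ, algebraMap ℂ Ω c ∈ E)
    (hA : derivedSeries (M ≃ₐ[F] M) n ≤ NN M E) {t y a : Ω} {p q : ℂ} (ha : a ∈ E)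
    (ht : IsIntegral E t) (hy : y ^ 2 = t ^ 3 + algebraMap ℂ Ω p * t + algebraMap ℂ Ω q)
    (hD : D t = a * y) :
    derivedSeries (M ≃ₐ[F] M) (n + 1) ≤ NN M (E ⊔ F⟮t⟯ ⊔ F⟮y⟯) := by
  have h20 : (2 : Ω) ≠ 0 := by
    have : CharZero Ω := charZero_of_injective_algebraMap (algebraMap ℂ Ω).injective
    exact two_ne_zero
  by_cases ha0 : a = 0
  · have ht0 : D t = 0 := by rw [hD, ha0, zero_mul]
    have hy0 : D y = 0 := by
      have h1 := congrArg D hy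
      simp only [map_add, Derivation.leibniz, Derivation.leibniz_pow, smul_eq_mul, nsmul_eq_mul,
        ht0, Derivation.map_algebraMap] at h1
      push_cast at h1
      have h2 : (2 * y) * D y = 0 := by linear_combination h1
      rcases mul_eq_zero.mp h2 with h3 | h3
      · have h4 := (mul_eq_zero.mp h3).resolve_left h20
        rw [h4, map_zero]
      · exact h3
    have htE : t ∈ E := by
      obtain ⟨c, rfl⟩ := hconst t ht0
      exact hC c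
    have hyE : y ∈ E := by
      obtain ⟨c, rfl⟩ := hconst y hy0
      exact hC c
    have h3 : E ⊔ F⟮t⟯ ⊔ F⟮y⟯ = E := by
      rw [sup_assoc, sup_eq_left, sup_le_iff, adjoin_simple_le_iff, adjoin_simple_le_iff]
      exact ⟨htE, hyE⟩
    rw [h3]
    exact (derivedSeries_antitone _ (Nat.le_succ n)).trans hA
  obtain ⟨Λ, hfin, htΛ, hM, S, hS, hSf, ρ, hρ, hρ'⟩ := exists_sylow M hp ht
  obtain ⟨alg, DΛ, h1, h2, h3, h4, h5⟩ := exists_DLam hconst hE hC Λ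
  have hyΛ : y ∈ Λ := by
    have h6 : y = D t / a := by
      rw [hD, mul_div_cancel_left₀ _ ha0]
    rw [h6]
    refine div_mem ?_ (Λ.algebraMap_mem ⟨a, ha⟩)
    have h7 := h1 ⟨t, htΛ⟩
    rw [← h7]
    exact SetLike.coe_mem _
  refine derivedSeries_le_NN_of_fix hA hρ hρ' fun s hs => ?_
  have h6 := derivedSeries_one_fixes (S := S) h3 (fun s x => h4 s.1 x) (fun s c => h5 s.1 c)
    (a := algebraMap E Λ ⟨a, ha⟩) (t := ⟨t, htΛ⟩) (y := ⟨y, hyΛ⟩) (p := p) (q := q)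
    (fun s => s.1.commutes _) (Subtype.ext (by
      have h8 : (((⟨t, htΛ⟩ : Λ) ^ 3 + algebraMap ℂ Λ p * ⟨t, htΛ⟩ + algebraMap ℂ Λ q : Λ) : Ω) =
        t ^ 3 + algebraMap ℂ Ω p * t + algebraMap ℂ Ω q := by
        rw [← h2, ← h2]
        rfl
      exact hy.trans h8.symm)) (Subtype.ext ((h1 ⟨t, htΛ⟩).trans hD)) s hs
  refine sup_le (sup_le (le_fixF Λ s.1) ?_) ?_
  · rw [adjoin_simple_le_iff]
    exact ⟨htΛ, h6.1⟩
  · rw [adjoin_simple_le_iff]
    exact ⟨hyΛ, h6.2⟩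

end Step

end Pool.Agent.Helper19.LU
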