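import Pool.Agent.Helper19.LU.Fld

/-!
# Liouvillian towers inside `K`
-/

open Filter Topology IntermediateField Polynomial

namespace Pool.Agent.Helper19.LU

/-- the germ of the identity function, i.e. the variable -/
noncomputable def X : K := ofR (fun x => x) (Eventually.of_forall fun _ => analyticAt_id)

/-- Classical extensions of the field of rational functions, inside the field `K` of germs at `0+`
of meromorphic functions: start from `ℂ(x)` and adjoin successively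
* an algebraic function,
* a solution of a Riccati equation `t' = a t² + b t + c` (in particular a primitive or the
  exponential of a primitive), or
* a solution `t` of a Weierstrass equation `t'² = a² (t³ + p t + q)` together with `t'`. -/
inductive IsClassicalTower : IntermediateField ℂ K → Prop
  | base : IsClassicalTower ℂ⟮X⟯
  | alg (E : IntermediateField ℂ K) (t : K) : IsClassicalTower E → IsAlgebraic E t →
      IsClassicalTower (E ⊔ ℂ⟮t⟯)
  | ric (E : IntermediateField ℂ K) (t : K) : IsClassicalTower E →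
      (∃ a ∈ E, ∃ b ∈ E, ∃ c ∈ E, D t = a * t ^ 2 + b * t + c) → IsClassicalTower (E ⊔ ℂ⟮t⟯)
  | ell (E : IntermediateField ℂ K) (t : K) : IsClassicalTower E →
      (∃ a ∈ E, ∃ p q : ℂ, D t ^ 2 = a ^ 2 * (t ^ 3 + algebraMap ℂ K p * t + algebraMap ℂ K q)) →
      IsClassicalTower (E ⊔ ℂ⟮t⟯ ⊔ ℂ⟮D t⟯)

/-- Towers with a cost: an algebraic element of degree at most `d` costs `d!`, a solution of a
Riccati or Weierstrass equation costs `2`. -/
inductive Tower : ℕ → IntermediateField ℂ K → Prop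
  | base : Tower 0 ℂ⟮X⟯
  | alg (n d : ℕ) (E : IntermediateField ℂ K) (t : K) : Tower n E →
      (∃ p : E[X], p ≠ 0 ∧ aeval t p = 0 ∧ p.natDegree ≤ d) → Tower (n + d.factorial) (E ⊔ ℂ⟮t⟯)
  | ric (n : ℕ) (E : IntermediateField ℂ K) (t : K) : Tower n E →
      (∃ a ∈ E, ∃ b ∈ E, ∃ c ∈ E, D t = a * t ^ 2 + b * t + c) → Tower (n + 2) (E ⊔ ℂ⟮t⟯)
  | ell (n : ℕ) (E : IntermediateField ℂ K) (t y : K) : Tower n E → (∃ a ∈ E, D t = a * y) →
      (∃ p q : ℂ, y ^ 2 = t ^ 3 + algebraMap ℂ K p * t + algebraMap ℂ K q) →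
      Tower (n + 2) (E ⊔ ℂ⟮t⟯ ⊔ ℂ⟮y⟯)

theorem IsClassicalTower.exists_tower {E : IntermediateField ℂ K} (h : IsClassicalTower E) :
    ∃ n, Tower n E := by
  induction h with
  | base => exact ⟨0, .base⟩
  | alg E t _ ht ih =>
    obtain ⟨n, hn⟩ := ih
    obtain ⟨p, hp, hpt⟩ := ht
    exact ⟨_, .alg n p.natDegree E t hn ⟨p, hp, hpt, le_rfl⟩⟩
  | ric E t _ ht ih =>
    obtain ⟨n, hn⟩ := ih
    exact ⟨_, .ric n E t hn ht⟩
  | ell E t _ ht ih =>
    obtain ⟨n, hn⟩ := ih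
    obtain ⟨a, ha, p, q, h⟩ := ht
    by_cases ha0 : a = 0
    · refine ⟨n, ?_⟩
      have h1 : D t = 0 := by
        rw [ha0] at h
        have h2 : D t ^ 2 = 0 := by rw [h]; ring
        exact pow_eq_zero_iff two_ne_zero |>.mp h2
      obtain ⟨c, hc⟩ := const_of_D_eq_zero h1
      have h3 : E ⊔ ℂ⟮t⟯ ⊔ ℂ⟮D t⟯ = E := by
        rw [sup_assoc, sup_eq_left, sup_le_iff, adjoin_simple_le_iff, adjoin_simple_le_iff, h1, hc]
        exact ⟨E.algebraMap_mem c, zero_mem E⟩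
      rw [h3]
      exact hn
    · refine ⟨n + 2, ?_⟩
      have h1 : D t = a * (D t / a) := by field_simp
      have h2 : E ⊔ ℂ⟮t⟯ ⊔ ℂ⟮D t⟯ = E ⊔ ℂ⟮t⟯ ⊔ ℂ⟮D t / a⟯ := by
        have h3 : E ≤ E ⊔ ℂ⟮t⟯ := le_sup_left
        apply le_antisymm
        · refine sup_le le_sup_left ?_
          rw [adjoin_simple_le_iff, h1]
          have h4 : a * (D t / a) = a * (D t / a) := rfl
          refine mul_mem (le_sup_left (a := E ⊔ ℂ⟮t⟯) (h3 ha)) ?_
          have h5 : a * (D t / a) / a = D t / a := by field_simp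
          rw [h5]
          exact le_sup_right (a := E ⊔ ℂ⟮t⟯) (mem_adjoin_simple_self ℂ _)
        · refine sup_le le_sup_left ?_
          rw [adjoin_simple_le_iff]
          exact div_mem (le_sup_right (a := E ⊔ ℂ⟮t⟯) (mem_adjoin_simple_self ℂ _))
            (le_sup_left (a := E ⊔ ℂ⟮t⟯) (h3 ha))
      rw [h2]
      refine .ell n E t (D t / a) hn ⟨a, ha, h1⟩ ⟨p, q, ?_⟩
      rw [div_pow, h]
      field_simp

/-- closed under the derivation -/
def DClosed (E : IntermediateField ℂ K) : Prop := ∀ a ∈ E, D a ∈ E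

/-- the elements of `E` with derivative in `E` -/
noncomputable def Dpart (E : IntermediateField ℂ K) : IntermediateField ℂ K where
  carrier := {a | a ∈ E ∧ D a ∈ E}
  mul_mem' := by
    rintro a b ⟨h1, h2⟩ ⟨h3, h4⟩
    refine ⟨mul_mem h1 h3, ?_⟩
    rw [Derivation.leibniz]
    exact add_mem (mul_mem h1 h4) (mul_mem h3 h2)
  add_mem' := by
    rintro a b ⟨h1, h2⟩ ⟨h3, h4⟩
    refine ⟨add_mem h1 h3, ?_⟩
    rw [map_add]
    exact add_mem h2 h4
  algebraMap_mem' := by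
    intro c
    refine ⟨E.algebraMap_mem c, ?_⟩
    rw [Derivation.map_algebraMap]
    exact zero_mem E
  inv_mem' := by
    rintro a ⟨h1, h2⟩
    refine ⟨inv_mem h1, ?_⟩
    rw [Derivation.leibniz_inv]
    exact mul_mem (neg_mem (pow_mem (inv_mem h1) 2)) h2

theorem DClosed.adjoin {E : IntermediateField ℂ K} (hE : DClosed E) {t : K}
    (ht : D t ∈ E ⊔ ℂ⟮t⟯) : DClosed (E ⊔ ℂ⟮t⟯) := by
  have h1 : E ⊔ ℂ⟮t⟯ ≤ Dpart (E ⊔ ℂ⟮t⟯) := by
    apply sup_le
    · intro a ha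
      exact ⟨(le_sup_left : E ≤ E ⊔ ℂ⟮t⟯) ha, (le_sup_left : E ≤ E ⊔ ℂ⟮t⟯) (hE a ha)⟩
    · rw [adjoin_simple_le_iff]
      exact ⟨(le_sup_right : ℂ⟮t⟯ ≤ E ⊔ ℂ⟮t⟯) (mem_adjoin_simple_self ℂ t), ht⟩
  intro a ha
  exact (h1 ha).2

/-- the restriction of the derivation -/
noncomputable def DE {E : IntermediateField ℂ K} (hE : DClosed E) : E →+ E where
  toFun a := ⟨D a, hE a a.2⟩
  map_zero' := by ext; simp
  map_add' a b := by ext; simp

/-- derivative of the coefficients -/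
noncomputable def Dc {E : IntermediateField ℂ K} (hE : DClosed E) (p : E[X]) : E[X] :=
  ∑ i ∈ Finset.range (p.natDegree + 1), monomial i (DE hE (p.coeff i))

theorem Dc_coeff {E : IntermediateField ℂ K} (hE : DClosed E) (p : E[X]) (n : ℕ) :
    (Dc hE p).coeff n = DE hE (p.coeff n) := by
  rw [Dc, finsetSum_coeff]
  simp_rw [coeff_monomial]
  by_cases hn : n ≤ p.natDegree
  · rw [Finset.sum_ite_eq' (Finset.range (p.natDegree + 1)) n, if_pos]
    exact Finset.mem_range.mpr (by omega)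
  · rw [Finset.sum_ite_eq' (Finset.range (p.natDegree + 1)) n, if_neg,
      coeff_eq_zero_of_natDegree_lt (by omega), map_zero]
    rw [Finset.mem_range]
    omega

theorem Dc_add {E : IntermediateField ℂ K} (hE : DClosed E) (p q : E[X]) :
    Dc hE (p + q) = Dc hE p + Dc hE q := by
  ext n
  rw [Dc_coeff, coeff_add, coeff_add, Dc_coeff, Dc_coeff, map_add]

theorem Dc_monomial {E : IntermediateField ℂ K} (hE : DClosed E) (n : ℕ) (a : E) :
    Dc hE (monomial n a) = monomial n (DE hE a) := by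
  ext m
  rw [Dc_coeff, coeff_monomial, coeff_monomial]
  split_ifs
  · rfl
  · rw [map_zero]

theorem D_aeval {E : IntermediateField ℂ K} (hE : DClosed E) (t : K) (p : E[X]) :
    D (aeval t p) = aeval t (Dc hE p) + aeval t (derivative p) * D t := by
  induction p using Polynomial.induction_on' with
  | add p q hp hq =>
    rw [map_add, map_add, hp, hq, Dc_add, derivative_add, map_add, map_add]
    ring
  | monomial n a =>
    rw [Dc_monomial, derivative_monomial, aeval_monomial, aeval_monomial, aeval_monomial,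
      Derivation.leibniz, Derivation.leibniz_pow]
    have h1 : D (algebraMap E K a) = algebraMap E K (DE hE a) := rfl
    rw [h1, map_mul, map_natCast]
    simp only [smul_eq_mul, nsmul_eq_mul]
    ring

theorem aeval_mem {E : IntermediateField ℂ K} (t : K) (p : E[X]) : aeval t p ∈ E ⊔ ℂ⟮t⟯ := by
  rw [aeval_eq_sum_range]
  refine sum_mem fun i _ => ?_
  rw [Algebra.smul_def]
  refine mul_mem ?_ (pow_mem ?_ i)
  · exact (le_sup_left : E ≤ E ⊔ ℂ⟮t⟯) (p.coeff i).2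
  · exact (le_sup_right : ℂ⟮t⟯ ≤ E ⊔ ℂ⟮t⟯) (mem_adjoin_simple_self ℂ t)

/-- the derivative of an algebraic element -/
theorem D_mem_of_algebraic {E : IntermediateField ℂ K} (hE : DClosed E) {t : K}
    (ht : IsAlgebraic E t) : D t ∈ E ⊔ ℂ⟮t⟯ := by
  have hint : IsIntegral E t := ht.isIntegral
  have h1 := D_aeval hE t (minpoly E t)
  rw [minpoly.aeval, map_zero] at h1
  have h2 : aeval t (derivative (minpoly E t)) ≠ 0 :=
    (minpoly.irreducible hint).separable.aeval_derivative_ne_zero (minpoly.aeval E t)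
  have h3 : D t = -aeval t (Dc hE (minpoly E t)) / aeval t (derivative (minpoly E t)) := by
    rw [eq_div_iff h2]
    linear_combination -h1
  rw [h3]
  exact div_mem (neg_mem (aeval_mem t _)) (aeval_mem t _)

theorem D_X : D X = 1 := by
  rw [X, ofR, D_mk, ← mk_one, mk_eq]
  refine Eventually.of_forall fun x => ?_
  have h4 : HasDerivAt (fun x : ℝ => (x : ℂ)) ((1 : ℝ) : ℂ) x := (hasDerivAt_id x).ofReal_comp
  rw [h4.deriv]
  simp

theorem DClosed.adjoin2 {E : IntermediateField ℂ K} (hE : DClosed E) {t y : K}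
    (ht : D t ∈ E ⊔ ℂ⟮t⟯ ⊔ ℂ⟮y⟯) (hy : D y ∈ E ⊔ ℂ⟮t⟯ ⊔ ℂ⟮y⟯) : DClosed (E ⊔ ℂ⟮t⟯ ⊔ ℂ⟮y⟯) := by
  have h1 : E ⊔ ℂ⟮t⟯ ⊔ ℂ⟮y⟯ ≤ Dpart (E ⊔ ℂ⟮t⟯ ⊔ ℂ⟮y⟯) := by
    refine sup_le (sup_le ?_ ?_) ?_
    · intro a ha
      have h2 : E ≤ E ⊔ ℂ⟮t⟯ ⊔ ℂ⟮y⟯ := le_sup_left.trans le_sup_left
      exact ⟨h2 ha, h2 (hE a ha)⟩
    · rw [adjoin_simple_le_iff]
      have h2 : ℂ⟮t⟯ ≤ E ⊔ ℂ⟮t⟯ ⊔ ℂ⟮y⟯ := le_sup_right.trans le_sup_left
      exact ⟨h2 (mem_adjoin_simple_self ℂ t), ht⟩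
    · rw [adjoin_simple_le_iff]
      have h2 : ℂ⟮y⟯ ≤ E ⊔ ℂ⟮t⟯ ⊔ ℂ⟮y⟯ := le_sup_right
      exact ⟨h2 (mem_adjoin_simple_self ℂ y), hy⟩
  intro a ha
  exact (h1 ha).2

theorem Tower.dclosed {c : ℕ} {E : IntermediateField ℂ K} (h : Tower c E) : DClosed E := by
  induction h with
  | base =>
    have h1 : DClosed (⊥ : IntermediateField ℂ K) := by
      intro a ha
      rw [IntermediateField.mem_bot] at ha
      obtain ⟨c, rfl⟩ := ha
      rw [Derivation.map_algebraMap]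
      exact zero_mem _
    have h2 := h1.adjoin (t := X) (by rw [D_X]; exact one_mem _)
    rwa [bot_sup_eq] at h2
  | alg n d E t _ ht ih =>
    obtain ⟨p, hp, hpt, _⟩ := ht
    exact ih.adjoin (D_mem_of_algebraic ih ⟨p, hp, hpt⟩)
  | ric n E t _ ht ih =>
    obtain ⟨a, ha, b, hb, c, hc, hD⟩ := ht
    apply ih.adjoin
    rw [hD]
    have h1 : E ≤ E ⊔ ℂ⟮t⟯ := le_sup_left
    have h2 : t ∈ E ⊔ ℂ⟮t⟯ := le_sup_right (a := E) (mem_adjoin_simple_self ℂ t)
    exact add_mem (add_mem (mul_mem (h1 ha) (pow_mem h2 2)) (mul_mem (h1 hb) h2)) (h1 hc)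
  | ell n E t y _ ht hy ih =>
    obtain ⟨a, ha, hD⟩ := ht
    obtain ⟨p, q, hy⟩ := hy
    have h1 : E ≤ E ⊔ ℂ⟮t⟯ ⊔ ℂ⟮y⟯ := le_sup_left.trans le_sup_left
    have h2 : t ∈ E ⊔ ℂ⟮t⟯ ⊔ ℂ⟮y⟯ :=
      le_sup_left (b := ℂ⟮y⟯) (le_sup_right (a := E) (mem_adjoin_simple_self ℂ t))
    have h3 : y ∈ E ⊔ ℂ⟮t⟯ ⊔ ℂ⟮y⟯ := le_sup_right (a := E ⊔ ℂ⟮t⟯) (mem_adjoin_simple_self ℂ y)
    apply ih.adjoin2
    · rw [hD]
      exact mul_mem (h1 ha) h3
    · by_cases hy0 : y = 0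
      · rw [hy0, map_zero]
        exact zero_mem _
      · have h4 := congrArg D hy
        simp only [map_add, Derivation.leibniz, Derivation.leibniz_pow, smul_eq_mul,
          nsmul_eq_mul, Derivation.map_algebraMap, hD] at h4
        push_cast at h4
        have h5 : D y = a * (3 * t ^ 2 + algebraMap ℂ K p) / 2 := by
          rw [eq_div_iff two_ne_zero]
          apply mul_right_cancel₀ hy0
          linear_combination h4
        rw [h5]
        refine div_mem (mul_mem (h1 ha) (add_mem (mul_mem ?_ (pow_mem h2 2)) ?_)) ?_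
        · exact ofNat_mem _ 3
        · exact IntermediateField.algebraMap_mem _ p
        · exact ofNat_mem _ 2

theorem pull_X {t : ℝ → ℝ} (ht : Adm t) : pull ht X = ofR t ht.analytic := by
  rw [X, ofR, pull_mk]
  rfl

theorem pull_adjoin {t : ℝ → ℝ} (ht : Adm t) {E E' : IntermediateField ℂ K} {u : K}
    (h : ∀ a ∈ E, pull ht a ∈ E') : ∀ a ∈ E ⊔ ℂ⟮u⟯, pull ht a ∈ E' ⊔ ℂ⟮pull ht u⟯ := by
  have h1 : E ⊔ ℂ⟮u⟯ ≤ (E' ⊔ ℂ⟮pull ht u⟯).comap (pull ht) := by
    apply sup_le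
    · intro a ha
      exact (le_sup_left : E' ≤ E' ⊔ ℂ⟮pull ht u⟯) (h a ha)
    · rw [adjoin_simple_le_iff]
      exact (le_sup_right : ℂ⟮pull ht u⟯ ≤ E' ⊔ ℂ⟮pull ht u⟯) (mem_adjoin_simple_self ℂ _)
  exact fun a ha => h1 ha

/-- the cost of a composition is at most the sum of the costs -/
theorem Tower.comp {c c' : ℕ} {E E' : IntermediateField ℂ K} (hE : Tower c E) {t : ℝ → ℝ}
    (ht : Adm t) (htE : ofR t ht.analytic ∈ E) (hE' : Tower c' E') :
    ∃ E'', Tower (c + c') E'' ∧ E ≤ E'' ∧ ∀ a ∈ E', pull ht a ∈ E'' := by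
  induction hE' with
  | base =>
    refine ⟨E, hE, le_rfl, ?_⟩
    have h1 : ℂ⟮X⟯ ≤ E.comap (pull ht) := by
      rw [adjoin_simple_le_iff]
      have h2 : pull ht X ∈ E := by rw [pull_X]; exact htE
      exact h2
    exact fun a ha => h1 ha
  | alg c' d E' u _ hu ih =>
    obtain ⟨E'', h1, h2, h3⟩ := ih
    refine ⟨E'' ⊔ ℂ⟮pull ht u⟯, ?_, h2.trans le_sup_left, pull_adjoin ht h3⟩
    rw [← add_assoc]
    refine .alg _ _ _ _ h1 ?_
    obtain ⟨p, hp, hpu, hd⟩ := hu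
    let φ : E' →+* E'' := ((pull ht).toRingHom.comp E'.toSubfield.subtype).codRestrict
      E''.toSubfield (fun a => h3 a a.2)
    refine ⟨p.map φ, ?_, ?_, natDegree_map_le.trans hd⟩
    · rwa [Ne, Polynomial.map_eq_zero_iff φ.injective]
    · have h4 := congrArg (pull ht) hpu
      rw [map_zero, aeval_def, eval₂_eq_sum_range, map_sum] at h4
      rw [aeval_def, eval₂_map, eval₂_eq_sum_range, ← h4]
      refine Finset.sum_congr rfl fun i _ => ?_
      rw [map_mul, map_pow]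
      rfl
  | ric c' E' u _ hu ih =>
    obtain ⟨E'', h1, h2, h3⟩ := ih
    refine ⟨E'' ⊔ ℂ⟮pull ht u⟯, ?_, h2.trans le_sup_left, pull_adjoin ht h3⟩
    rw [← add_assoc]
    refine .ric _ _ _ h1 ?_
    obtain ⟨a, ha, b, hb, c, hc, hD⟩ := hu
    have hw := h2 (hE.dclosed _ htE)
    refine ⟨pull ht a * D (ofR t ht.analytic), mul_mem (h3 _ ha) hw,
      pull ht b * D (ofR t ht.analytic), mul_mem (h3 _ hb) hw,
      pull ht c * D (ofR t ht.analytic), mul_mem (h3 _ hc) hw, ?_⟩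
    rw [D_pull, hD, map_add, map_add, map_mul, map_mul, map_pow]
    ring
  | ell c' E' u y _ hu hy ih =>
    obtain ⟨E'', h1, h2, h3⟩ := ih
    refine ⟨E'' ⊔ ℂ⟮pull ht u⟯ ⊔ ℂ⟮pull ht y⟯, ?_, (h2.trans le_sup_left).trans le_sup_left,
      pull_adjoin ht (pull_adjoin ht h3)⟩
    rw [← add_assoc]
    obtain ⟨a, ha, hD⟩ := hu
    obtain ⟨p, q, hy⟩ := hy
    refine .ell _ _ _ _ h1 ⟨pull ht a * D (ofR t ht.analytic),
      mul_mem (h3 _ ha) (h2 (hE.dclosed _ htE)), ?_⟩ ⟨p, q, ?_⟩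
    · rw [D_pull, hD, map_mul]
      ring
    · rw [← map_pow, hy, map_add, map_add, map_pow, map_mul, AlgHom.commutes, AlgHom.commutes]

end Pool.Agent.Helper19.LU
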