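import Pool.Agent.Helper19.LU.GalM
import Pool.Agent.Helper19.LU.Tower
import Pool.Agent.Helper19.LU.Step

/-!
# The cost of a tower which contains a solution of `q^[n] Y = x`
-/

open Polynomial IntermediateField
open scoped commutatorElement

namespace Pool.Agent.Helper19.LU

section Transcendental

variable {F Ω : Type*} [Field F] [Field Ω] [Algebra F Ω]

/-- a purely transcendental extension has no new algebraic elements -/
theorem mem_of_transcendental {E : IntermediateField F Ω} {t z : Ω} (ht : Transcendental E t)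
    (hz : z ∈ E ⊔ F⟮t⟯) (hza : IsAlgebraic E z) : z ∈ E := by
  have hz' : z ∈ E⟮t⟯ := by
    have h1 : z ∈ (E⟮t⟯).restrictScalars F := by
      rw [restrictScalars_adjoin_eq_sup]
      exact hz
    exact h1
  set e := RatFunc.algEquivOfTranscendental t ht with he
  obtain ⟨r, hr⟩ := e.surjective ⟨z, hz'⟩
  have h1 : IsAlgebraic E (⟨z, hz'⟩ : E⟮t⟯) :=
    (isAlgebraic_algHom_iff (E⟮t⟯).val (E⟮t⟯).val.injective (a := ⟨z, hz'⟩)).mp hza
  have h2 : IsAlgebraic E r := by
    rw [← hr] at h1
    exact (isAlgebraic_algHom_iff e.toAlgHom e.injective (a := r)).mp h1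
  by_cases h3 : ∃ c, r = RatFunc.C c
  · obtain ⟨c, rfl⟩ := h3
    have h4 : e (RatFunc.C c) = algebraMap E _ c := by
      rw [← RatFunc.algebraMap_eq_C]
      exact e.commutes c
    rw [h4] at hr
    have h5 : (c : Ω) = z := congrArg (fun w : E⟮t⟯ => (w : Ω)) hr
    rw [← h5]
    exact c.2
  · exact absurd h2 (RatFunc.transcendental_of_ne_C r h3)

end Transcendental

theorem X_transcendental : Transcendental ℂ X := by
  intro h
  obtain ⟨c, hc⟩ := eq_const_of_algebraic h
  have h1 := D_X
  rw [← hc, Derivation.map_algebraMap] at h1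
  exact zero_ne_one h1

noncomputable instance algFFK : Algebra FF K := (ev X X_transcendental).toRingHom.toAlgebra

theorem algebraMap_X : algebraMap FF K RatFunc.X = X := ev_X X X_transcendental

instance towerFFK : IsScalarTower ℂ FF K :=
  IsScalarTower.of_algebraMap_eq fun c => ((ev X X_transcendental).commutes c).symm

theorem algebraMap_mem_adjoin (r : FF) : algebraMap FF K r ∈ ℂ⟮X⟯ :=
  (RatFunc.algEquivOfTranscendental X X_transcendental r).2

/-- an algebraic closure of `K` -/
abbrev Om := AlgebraicClosure K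

instance : IsScalarTower FF K Om := inferInstance
instance : IsScalarTower ℂ FF Om := inferInstance

/-- the field `E` as an extension of `ℂ(x)` inside the algebraic closure of `K` -/
noncomputable def up (E : IntermediateField ℂ K) : IntermediateField FF Om :=
  adjoin FF ((algebraMap K Om) '' (E : Set K))

/-- the elements of `K` in a subfield of the algebraic closure -/
noncomputable def down (S : IntermediateField FF Om) : IntermediateField ℂ K :=
  (S.restrictScalars ℂ).comap (IsScalarTower.toAlgHom ℂ K Om)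

theorem mem_down {S : IntermediateField FF Om} {a : K} : a ∈ down S ↔ algebraMap K Om a ∈ S :=
  Iff.rfl

theorem up_le_iff {E : IntermediateField ℂ K} {S : IntermediateField FF Om} :
    up E ≤ S ↔ E ≤ down S := by
  rw [up, adjoin_le_iff, Set.image_subset_iff]
  exact Iff.rfl

theorem gc_up : GaloisConnection up down := fun _ _ => up_le_iff

theorem up_adjoin_simple (t : K) : up ℂ⟮t⟯ = FF⟮algebraMap K Om t⟯ := by
  apply eq_of_forall_ge_iff
  intro S
  rw [up_le_iff, adjoin_simple_le_iff, adjoin_simple_le_iff, mem_down]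

theorem up_sup (E : IntermediateField ℂ K) (t : K) :
    up (E ⊔ ℂ⟮t⟯) = up E ⊔ FF⟮algebraMap K Om t⟯ := by
  rw [gc_up.l_sup, up_adjoin_simple]

theorem up_X : up ℂ⟮X⟯ = ⊥ := by
  rw [up_adjoin_simple, adjoin_simple_eq_bot_iff, IntermediateField.mem_bot]
  refine ⟨RatFunc.X, ?_⟩
  rw [IsScalarTower.algebraMap_apply FF K Om, algebraMap_X]

theorem algebraMap_mem_up {E : IntermediateField ℂ K} {a : K} (ha : a ∈ E) :
    algebraMap K Om a ∈ up E := subset_adjoin _ _ ⟨a, ha, rfl⟩

theorem mem_up {E : IntermediateField ℂ K} (hX : ℂ⟮X⟯ ≤ E) {x : Om} (hx : x ∈ up E) :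
    ∃ a ∈ E, algebraMap K Om a = x := by
  have h1 : up E ≤ (E.toSubfield.map (algebraMap K Om)).toIntermediateField (K := FF) (fun r => by
      rw [IsScalarTower.algebraMap_apply FF K Om]
      exact ⟨_, hX (algebraMap_mem_adjoin r), rfl⟩) := by
    rw [up, adjoin_le_iff]
    rintro _ ⟨a, ha, rfl⟩
    exact ⟨a, ha, rfl⟩
  exact h1 hx

/-- the isomorphism of `E` with its image -/
noncomputable def upHom (E : IntermediateField ℂ K) : E →+* up E :=
  RingHom.codRestrict ((algebraMap K Om).comp (algebraMap E K)) (up E)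
    (fun x => algebraMap_mem_up x.2)

theorem isAlgebraic_of_up {E : IntermediateField ℂ K} (hX : ℂ⟮X⟯ ≤ E) {t : K}
    (h : IsAlgebraic (up E) (algebraMap K Om t)) : IsAlgebraic E t := by
  refine IsAlgebraic.of_ringHom_of_comp_eq (upHom E) (algebraMap K Om) h ?_
    (algebraMap K Om).injective ?_
  · rintro ⟨x, hx⟩
    obtain ⟨a, ha, rfl⟩ := mem_up hX hx
    exact ⟨⟨a, ha⟩, rfl⟩
  · rfl

theorem Tower.X_le {c : ℕ} {E : IntermediateField ℂ K} (h : Tower c E) : ℂ⟮X⟯ ≤ E := by
  induction h with
  | base => exact le_rfl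
  | alg n d E t _ _ ih => exact ih.trans le_sup_left
  | ric n E t _ _ ih => exact ih.trans le_sup_left
  | ell n E t y _ _ _ ih => exact ih.trans (le_sup_left.trans le_sup_left)

theorem NN_up_le {E : IntermediateField ℂ K} (hX : ℂ⟮X⟯ ≤ E) {t : K} (ht : Transcendental E t)
    (n : ℕ) : NN (MM Om n) (up E) ≤ NN (MM Om n) (up (E ⊔ ℂ⟮t⟯)) := by
  apply NN_le_of_forall
  intro z hz
  rw [up_sup] at hz
  refine mem_of_transcendental (fun h => ht (isAlgebraic_of_up hX h)) hz ?_
  exact ((IsIntegral.of_finite FF z).map (MM Om n).val).tower_top.isAlgebraic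

theorem up_closed {E : IntermediateField ℂ K} (hX : ℂ⟮X⟯ ≤ E) (hE : DClosed E)
    {D' : Derivation ℂ Om Om} (hD' : ∀ a : K, D' (algebraMap K Om a) = algebraMap K Om (D a)) :
    ∀ x ∈ up E, D' x ∈ up E := by
  intro x hx
  obtain ⟨a, ha, rfl⟩ := mem_up hX hx
  rw [hD']
  exact algebraMap_mem_up (hE a ha)

theorem const_mem_up (E : IntermediateField ℂ K) (c : ℂ) : algebraMap ℂ Om c ∈ up E := by
  rw [IsScalarTower.algebraMap_apply ℂ K Om]
  exact algebraMap_mem_up (E.algebraMap_mem c)

theorem isAlgebraic_up {E : IntermediateField ℂ K} {t : K} (h : IsAlgebraic E t) :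
    IsIntegral (up E) (algebraMap K Om t) := by
  obtain ⟨p, hp, hpt⟩ := h
  have h1 : IsAlgebraic (up E) (algebraMap K Om t) := by
    refine ⟨p.map (upHom E), ?_, ?_⟩
    · rwa [Ne, Polynomial.map_eq_zero_iff (upHom E).injective]
    · have h4 := congrArg (algebraMap K Om) hpt
      rw [map_zero, aeval_def, eval₂_eq_sum_range, map_sum] at h4
      rw [aeval_def, eval₂_map, eval₂_eq_sum_range, ← h4]
      refine Finset.sum_congr rfl fun i _ => ?_
      rw [map_mul, map_pow]
      rfl
  exact h1.isIntegral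

theorem derivedSeries_le_NN {c : ℕ} {E : IntermediateField ℂ K} (h : Tower c E) (n : ℕ) :
    derivedSeries (MM Om n ≃ₐ[FF] MM Om n) c ≤ NN (MM Om n) (up E) := by
  obtain ⟨D', hD'⟩ := exists_extend (Ω := Om) D
  have hconst : ∀ x : Om, D' x = 0 → ∃ c : ℂ, algebraMap ℂ Om c = x := by
    intro x hx
    refine const_of_algebraic (d := D.toLinearMap.toAddMonoidHom) (fun a => hD' a) ?_
      (Algebra.IsIntegral.isIntegral (R := K) x) hx
    intro a ha
    obtain ⟨c, hc⟩ := const_of_D_eq_zero (a := a) ha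
    exact ⟨c, hc.symm⟩
  induction h with
  | base =>
    intro σ _
    rw [mem_NN]
    intro z hz
    rw [up_X, IntermediateField.mem_bot] at hz
    obtain ⟨r, hr⟩ := hz
    have h1 : z = algebraMap FF (MM Om n) r := Subtype.ext hr.symm
    rw [h1, AlgEquiv.commutes]
  | alg c d E t hE ht ih =>
    obtain ⟨p, hp, hpt, hd⟩ := ht
    apply derivedSeries_le_of_relIndex ih
    rw [up_sup]
    refine relIndex_NN_le (p := p.map (upHom E)) ?_ ?_ (natDegree_map_le.trans hd)
    · rwa [Ne, Polynomial.map_eq_zero_iff (upHom E).injective]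
    · have h4 := congrArg (algebraMap K Om) hpt
      rw [map_zero, aeval_def, eval₂_eq_sum_range, map_sum] at h4
      rw [aeval_def, eval₂_map, eval₂_eq_sum_range, ← h4]
      refine Finset.sum_congr rfl fun i _ => ?_
      rw [map_mul, map_pow]
      rfl
  | ric c E t hE ht ih =>
    by_cases h1 : IsAlgebraic E t
    · obtain ⟨a, ha, b, hb, e, he, hD⟩ := ht
      rw [up_sup]
      refine ric_NN_le (MM_pgroup n) hconst (up_closed hE.X_le hE.dclosed hD') (const_mem_up E)
        ih (algebraMap_mem_up ha) (algebraMap_mem_up hb) (algebraMap_mem_up he)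
        (isAlgebraic_up h1) ?_
      rw [hD', hD, map_add, map_add, map_mul, map_mul, map_pow]
    · exact (derivedSeries_antitone _ (Nat.le_add_right c 2)).trans
        (ih.trans (NN_up_le hE.X_le h1 n))
  | ell c E t y hE ht hy ih =>
    obtain ⟨p, q, hy⟩ := hy
    rw [up_sup, up_sup]
    by_cases h1 : IsAlgebraic E t
    · obtain ⟨a, ha, hD⟩ := ht
      refine (derivedSeries_antitone _ (Nat.le_succ (c + 1))).trans ?_
      refine ell_NN_le (p := p) (q := q) (MM_pgroup n) hconst
        (up_closed hE.X_le hE.dclosed hD') (const_mem_up E) ih (algebraMap_mem_up ha)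
        (isAlgebraic_up h1) ?_ ?_
      · rw [← map_pow, hy, map_add, map_add, map_pow, map_mul,
          ← IsScalarTower.algebraMap_apply ℂ K Om, ← IsScalarTower.algebraMap_apply ℂ K Om]
      · rw [hD', hD, map_mul]
    · have h2 := ih.trans (NN_up_le hE.X_le h1 n)
      have h3 : (2 : ℕ).factorial = 2 := rfl
      rw [← h3]
      apply derivedSeries_le_of_relIndex h2
      rw [up_sup]
      set E1 := up E ⊔ FF⟮algebraMap K Om t⟯ with hE1
      have htE : algebraMap K Om t ∈ E1 := le_sup_right (a := up E) (mem_adjoin_simple_self FF _)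
      have hCE : ∀ c : ℂ, algebraMap ℂ Om c ∈ E1 := fun c =>
        (le_sup_left : up E ≤ E1) (const_mem_up E c)
      set P : E1 := ⟨algebraMap K Om t, htE⟩ ^ 3 + ⟨algebraMap ℂ Om p, hCE p⟩ *
        ⟨algebraMap K Om t, htE⟩ + ⟨algebraMap ℂ Om q, hCE q⟩ with hP
      refine relIndex_NN_le (p := Polynomial.X ^ 2 - C P) (monic_X_pow_sub_C P two_ne_zero).ne_zero
        ?_ (natDegree_X_pow_sub_C (n := 2) (r := P)).le
      rw [map_sub, map_pow, aeval_X, aeval_C, sub_eq_zero, ← map_pow, hy]
      have h4 : algebraMap E1 Om P = algebraMap K Om t ^ 3 + algebraMap ℂ Om p *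
        algebraMap K Om t + algebraMap ℂ Om q := rfl
      rw [h4, map_add, map_add, map_pow, map_mul, ← IsScalarTower.algebraMap_apply ℂ K Om,
        ← IsScalarTower.algebraMap_apply ℂ K Om]

/-- the iterates of `q` have large cost -/
theorem Tower.le_cost {c n : ℕ} {E : IntermediateField ℂ K} (h : Tower c E) {y : K} (hy : y ∈ E)
    (hq : q^[n] y = X) : n ≤ c := by
  have h1 : q^[n] (algebraMap K Om y) = algebraMap FF Om RatFunc.X := by
    rw [← iter_map, hq, IsScalarTower.algebraMap_apply FF K Om, algebraMap_X]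
  refine le_of_derivedSeries_fixes (y := ⟨algebraMap K Om y, mem_MM h1⟩) h1 fun σ hσ => ?_
  exact derivedSeries_le_NN h n hσ _ (algebraMap_mem_up hy)

end Pool.Agent.Helper19.LU
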