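import Pool.Agent.Helper19.LU.Dif

/-!
# Finite `2`-groups of automorphisms above the group of automorphisms of `M` over `M ∩ E`
-/

open Polynomial IntermediateField
open scoped commutatorElement

namespace Pool.Agent.Helper19.LU

section NNS

variable {F Ω : Type*} [Field F] [Field Ω] [Algebra F Ω] [IsAlgClosed Ω] [CharZero F]
  {M : IntermediateField F Ω} [FiniteDimensional F M] [Normal F M]

variable (M) in
/-- a finite normal extension of `E` which contains `M` and `t` -/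
theorem exists_Lam (E : IntermediateField F Ω) {t : Ω} (ht : IsIntegral E t) :
    ∃ Λ : IntermediateField E Ω, FiniteDimensional E Λ ∧ Normal E Λ ∧ t ∈ Λ ∧
      ∀ z : M, (z : Ω) ∈ Λ := by
  obtain ⟨θ, hθ⟩ := Field.exists_primitive_element F M
  have hθi : IsIntegral E (θ : Ω) := ((IsIntegral.of_finite F θ).map M.val).tower_top
  set g : E[X] := minpoly E (θ : Ω) * minpoly E t with hg
  have hg0 : g ≠ 0 := mul_ne_zero (minpoly.ne_zero hθi) (minpoly.ne_zero ht)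
  have hsp : IsSplittingField E (adjoin E (g.rootSet Ω)) g :=
    adjoin_rootSet_isSplittingField (IsAlgClosed.splits _)
  have hθΛ : (θ : Ω) ∈ adjoin E (g.rootSet Ω) := by
    apply subset_adjoin
    rw [mem_rootSet]
    refine ⟨hg0, ?_⟩
    rw [hg, map_mul, minpoly.aeval, zero_mul]
  refine ⟨adjoin E (g.rootSet Ω), IsSplittingField.finiteDimensional _ g,
    Normal.of_isSplittingField g, ?_, ?_⟩
  · apply subset_adjoin
    rw [mem_rootSet]
    refine ⟨hg0, ?_⟩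
    rw [hg, map_mul, minpoly.aeval, mul_zero]
  · intro z
    have hz : z ∈ F⟮θ⟯ := by rw [hθ]; trivial
    have h1 : F⟮θ⟯ ≤ ((adjoin E (g.rootSet Ω)).restrictScalars F).comap M.val := by
      rw [adjoin_simple_le_iff]
      exact hθΛ
    exact h1 hz

theorem exists_rho {E : IntermediateField F Ω} {Λ : IntermediateField E Ω}
    (hM : ∀ z : M, (z : Ω) ∈ Λ) : ∃ ρ : (Λ ≃ₐ[E] Λ) →* (M ≃ₐ[F] M),
      ∀ (s : Λ ≃ₐ[E] Λ) (z : M), ((ρ s z : M) : Ω) = ((s ⟨z, hM z⟩ : Λ) : Ω) := by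
  let i : M →ₐ[F] Λ :=
    { toFun := fun z => ⟨z, hM z⟩
      map_one' := rfl
      map_mul' := fun _ _ => rfl
      map_zero' := rfl
      map_add' := fun _ _ => rfl
      commutes' := fun _ => rfl }
  let _ : Algebra M Λ := i.toRingHom.toAlgebra
  have : IsScalarTower F M Λ := IsScalarTower.of_algebraMap_eq fun r => (i.commutes r).symm
  let r : (Λ ≃ₐ[E] Λ) → (M ≃ₐ[F] M) := fun s => AlgEquiv.restrictNormal (s.restrictScalars F) M
  have hr : ∀ (s : Λ ≃ₐ[E] Λ) (z : M), i (r s z) = s (i z) := fun s z =>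
    AlgEquiv.restrictNormal_commutes (s.restrictScalars F) M z
  refine ⟨⟨⟨r, ?_⟩, ?_⟩, fun s z => ?_⟩
  · apply AlgEquiv.ext
    intro z
    have h1 : i (r 1 z) = i z := hr 1 z
    exact i.injective h1
  · intro s s'
    apply AlgEquiv.ext
    intro z
    have h1 : i (r (s * s') z) = i (r s (r s' z)) := by
      rw [hr, hr, hr, AlgEquiv.mul_apply]
    exact i.injective h1
  · exact congrArg (fun w : Λ => (w : Ω)) (hr s z)

theorem exists_lift_Lam {E : IntermediateField F Ω} {Λ : IntermediateField E Ω}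
    [FiniteDimensional E Λ] [Normal E Λ] (hM : ∀ z : M, (z : Ω) ∈ Λ) {σ : M ≃ₐ[F] M}
    (hσ : σ ∈ NN M E) : ∃ s : Λ ≃ₐ[E] Λ, ∀ z : M, ((s ⟨z, hM z⟩ : Λ) : Ω) = (σ z : Ω) := by
  obtain ⟨s0, hs0⟩ := exists_lift hσ
  have hle : ∀ z : Λ, (z : Ω) ∈ algebraicClosure E Ω := fun z =>
    mem_algebraicClosure_iff'.mpr ((IsIntegral.of_finite E z).map Λ.val)
  let j : Λ →ₐ[E] algebraicClosure E Ω :=
    { toFun := fun z => ⟨z, hle z⟩
      map_one' := rfl
      map_mul' := fun _ _ => rfl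
      map_zero' := rfl
      map_add' := fun _ _ => rfl
      commutes' := fun _ => rfl }
  let _ : Algebra Λ (algebraicClosure E Ω) := j.toRingHom.toAlgebra
  have : IsScalarTower E Λ (algebraicClosure E Ω) :=
    IsScalarTower.of_algebraMap_eq fun r => (j.commutes r).symm
  refine ⟨s0.restrictNormal Λ, fun z => ?_⟩
  have h1 : j (s0.restrictNormal Λ ⟨z, hM z⟩) = s0 (j ⟨z, hM z⟩) :=
    AlgEquiv.restrictNormal_commutes s0 Λ _
  have h2 := congrArg (fun w : algebraicClosure E Ω => (w : Ω)) h1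
  have h3 : ((s0.restrictNormal Λ ⟨z, hM z⟩ : Λ) : Ω) = (s0 (j ⟨z, hM z⟩) : Ω) := h2
  rw [h3]
  exact hs0 z _ rfl

variable (M) in
/-- a finite `2`-group of automorphisms which maps onto `NN M E` -/
theorem exists_sylow (hp : IsPGroup 2 (M ≃ₐ[F] M)) {E : IntermediateField F Ω} {t : Ω}
    (ht : IsIntegral E t) : ∃ Λ : IntermediateField E Ω, FiniteDimensional E Λ ∧ t ∈ Λ ∧
      ∃ hM : ∀ z : M, (z : Ω) ∈ Λ, ∃ S : Subgroup (Λ ≃ₐ[E] Λ), IsPGroup 2 S ∧ Finite S ∧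
        ∃ ρ : S →* NN M E, Function.Surjective ρ ∧
          ∀ (s : S) (z : M), (((ρ s).1 z : M) : Ω) = ((s.1 ⟨z, hM z⟩ : Λ) : Ω) := by
  obtain ⟨Λ, h1, h2, htΛ, hM⟩ := exists_Lam M E ht
  obtain ⟨ρ0, hρ0⟩ := exists_rho (M := M) hM
  have hmem : ∀ s, ρ0 s ∈ NN M E := by
    intro s
    rw [mem_NN]
    intro z hz
    apply Subtype.ext
    rw [hρ0]
    have h3 : (⟨z, hM z⟩ : Λ) = algebraMap E Λ ⟨z, hz⟩ := rfl
    rw [h3, AlgEquiv.commutes]
    rfl
  let ρ1 : (Λ ≃ₐ[E] Λ) →* NN M E := ρ0.codRestrict _ hmem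
  have hsurj : Function.Surjective ρ1 := by
    rintro ⟨σ, hσ⟩
    obtain ⟨s, hs⟩ := exists_lift_Lam hM hσ
    refine ⟨s, Subtype.ext (AlgEquiv.ext fun z => Subtype.ext ?_)⟩
    have h3 := hρ0 s z
    exact h3.trans (hs z)
  have hfin : Finite (Λ ≃ₐ[E] Λ) := inferInstance
  have : Fact (Nat.Prime 2) := ⟨Nat.prime_two⟩
  let P : Sylow 2 (Λ ≃ₐ[E] Λ) := default
  have htop : (P.mapSurjective hsurj : Subgroup (NN M E)) = ⊤ := by
    have h3 : IsPGroup 2 (⊤ : Subgroup (NN M E)) := (hp.to_subgroup _).to_subgroup _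
    exact ((P.mapSurjective hsurj).3 h3 le_top).symm
  refine ⟨Λ, h1, htΛ, hM, P.1, P.2, inferInstance, ρ1.comp P.1.subtype, ?_, ?_⟩
  · intro σ
    have h3 : σ ∈ (P.mapSurjective hsurj : Subgroup (NN M E)) := by rw [htop]; trivial
    obtain ⟨s, hs, hs'⟩ := h3
    exact ⟨⟨s, hs⟩, hs'⟩
  · intro s z
    exact hρ0 s.1 z

/-- the elements fixed by an automorphism -/
def fixF {E : IntermediateField F Ω} (Λ : IntermediateField E Ω) (s : Λ ≃ₐ[E] Λ) :
    IntermediateField F Ω where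
  carrier := {x | ∃ hx : x ∈ Λ, s ⟨x, hx⟩ = ⟨x, hx⟩}
  mul_mem' := by
    rintro a b ⟨ha, ha'⟩ ⟨hb, hb'⟩
    refine ⟨mul_mem ha hb, ?_⟩
    have h1 : (⟨a * b, mul_mem ha hb⟩ : Λ) = ⟨a, ha⟩ * ⟨b, hb⟩ := rfl
    rw [h1, map_mul, ha', hb']
  add_mem' := by
    rintro a b ⟨ha, ha'⟩ ⟨hb, hb'⟩
    refine ⟨add_mem ha hb, ?_⟩
    have h1 : (⟨a + b, add_mem ha hb⟩ : Λ) = ⟨a, ha⟩ + ⟨b, hb⟩ := rfl
    rw [h1, map_add, ha', hb']
  algebraMap_mem' := by
    intro c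
    have h1 : algebraMap F Ω c ∈ Λ := Λ.algebraMap_mem (algebraMap F E c)
    exact ⟨h1, s.commutes (algebraMap F E c)⟩
  inv_mem' := by
    rintro a ⟨ha, ha'⟩
    refine ⟨inv_mem ha, ?_⟩
    have h1 : (⟨a⁻¹, inv_mem ha⟩ : Λ) = (⟨a, ha⟩)⁻¹ := rfl
    rw [h1, map_inv₀, ha']

theorem le_fixF {E : IntermediateField F Ω} (Λ : IntermediateField E Ω) (s : Λ ≃ₐ[E] Λ) :
    E ≤ fixF Λ s := by
  intro x hx
  exact ⟨Λ.algebraMap_mem ⟨x, hx⟩, s.commutes ⟨x, hx⟩⟩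

theorem derivedSeries_add_le' {G : Type*} [Group G] {c : ℕ} {A : Subgroup G}
    (hA : derivedSeries G c ≤ A) (m : ℕ) :
    derivedSeries G (c + m) ≤ (derivedSeries A m).map A.subtype := by
  induction m with
  | zero =>
    rw [add_zero, derivedSeries_zero, ← MonoidHom.range_eq_map, Subgroup.range_subtype]
    exact hA
  | succ m ih =>
    rw [← add_assoc, derivedSeries_succ, derivedSeries_succ, Subgroup.map_commutator]
    exact Subgroup.commutator_mono ih ih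

theorem derivedSeries_le_NN_of_fix {c m : ℕ} {E E' : IntermediateField F Ω}
    (hA : derivedSeries (M ≃ₐ[F] M) c ≤ NN M E) {Λ : IntermediateField E Ω}
    {hM : ∀ z : M, (z : Ω) ∈ Λ} {S : Subgroup (Λ ≃ₐ[E] Λ)} {ρ : S →* NN M E}
    (hρ : Function.Surjective ρ)
    (hρ' : ∀ (s : S) (z : M), (((ρ s).1 z : M) : Ω) = ((s.1 ⟨z, hM z⟩ : Λ) : Ω))
    (hfix : ∀ s ∈ derivedSeries S m, E' ≤ fixF Λ s.1) :
    derivedSeries (M ≃ₐ[F] M) (c + m) ≤ NN M E' := by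
  intro σ hσ
  obtain ⟨τ, hτ, hτσ⟩ := derivedSeries_add_le' hA m hσ
  rw [← map_derivedSeries_eq hρ m] at hτ
  obtain ⟨s, hs, rfl⟩ := hτ
  rw [mem_NN]
  intro z hz
  obtain ⟨h1, h2⟩ := hfix s hs hz
  apply Subtype.ext
  rw [← hτσ]
  have h3 := hρ' s z
  rw [h2] at h3
  exact h3

end NNS

end Pool.Agent.Helper19.LU
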