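import Mathlib

/-!
# Roots of `q^[n] Y = v_n + t²` in the ring of power series
-/

open PowerSeries

namespace Pool.Agent.Helper19.LU

/-- the map `z ↦ z - z²` -/
def q {R : Type*} [Ring R] (z : R) : R := z - z ^ 2

theorem q_map {R S : Type*} [Ring R] [Ring S] (f : R →+* S) (z : R) : f (q z) = q (f z) := by
  simp [q]

theorem iter_map {R S : Type*} [Ring R] [Ring S] (f : R →+* S) (n : ℕ) (z : R) :
    f (q^[n] z) = q^[n] (f z) :=
  (Function.Semiconj.iterate_right (fun z => q_map f z : Function.Semiconj f q q) n) z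

theorem q_eq_iff {R : Type*} [CommRing R] [IsDomain R] {a b : R} :
    q a = q b ↔ a = b ∨ a = 1 - b := by
  have h : q a = q b ↔ (a - b) * (1 - a - b) = 0 := by
    rw [← sub_eq_zero, q, q]
    ring_nf
  rw [h, mul_eq_zero, sub_eq_zero, sub_eq_zero]
  constructor
  · rintro (h | h)
    · exact Or.inl h
    · right
      rw [← h]
      ring
  · rintro (h | h)
    · exact Or.inl h
    · right
      rw [h]
      ring

theorem q_one_sub {R : Type*} [CommRing R] (a : R) : q (1 - a) = q a := by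
  rw [q, q]
  ring

/-- the critical orbit -/
noncomputable def v (n : ℕ) : ℂ := q^[n] (1 / 2)

theorem v_succ (n : ℕ) : v (n + 1) = q (v n) := by
  rw [v, Function.iterate_succ_apply']
  rfl

/-- the critical orbit, real version -/
noncomputable def vr (n : ℕ) : ℝ := q^[n] (1 / 2)

theorem vr_pos (n : ℕ) : 0 < vr n ∧ vr n ≤ 1 / 2 := by
  induction n with
  | zero => norm_num [vr]
  | succ n ih =>
    have h : vr (n + 1) = vr n - vr n ^ 2 := by
      rw [vr, Function.iterate_succ_apply']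
      rfl
    rw [h]
    constructor <;> nlinarith [ih.1, ih.2]

theorem vr_anti : StrictAnti vr := by
  apply strictAnti_nat_of_succ_lt
  intro n
  have h : vr (n + 1) = vr n - vr n ^ 2 := by
    rw [vr, Function.iterate_succ_apply']
    rfl
  rw [h]
  nlinarith [(vr_pos n).1, pow_pos (vr_pos n).1 2]

theorem v_eq (n : ℕ) : v n = (vr n : ℂ) := by
  rw [v, vr]
  have := iter_map (Complex.ofRealHom) n (1 / 2 : ℝ)
  rw [Complex.ofRealHom_eq_coe] at this
  rw [this]
  congr 1
  simp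

theorem v_inj {m n : ℕ} (h : v m = v n) : m = n := by
  rw [v_eq, v_eq] at h
  exact vr_anti.injective (by exact_mod_cast h)

theorem v_zero : v 0 = 1 / 2 := rfl

theorem v_one : v 1 = 1 / 4 := by
  rw [v_succ, v_zero, q]
  norm_num

theorem iter_quarter (j : ℕ) : q^[j] (1 / 4 : ℂ) = v (j + 1) := by
  rw [← v_one, v, v, ← Function.iterate_add_apply]

theorem one_sub_two_v (i : ℕ) : (1 : ℂ) - 2 * v (i + 1) ≠ 0 := by
  intro h
  have h1 : v (i + 1) = v 0 := by
    rw [v_zero]
    linear_combination (-1 / 2 : ℂ) * h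
  exact absurd (v_inj h1) (by omega)

/-- square roots of power series with non zero constant coefficient -/
theorem exists_sqrt (φ : ℂ⟦X⟧) (h : constantCoeff φ ≠ 0) : ∃ ψ : ℂ⟦X⟧, ψ ^ 2 = φ := by
  obtain ⟨r, hr⟩ := IsAlgClosed.exists_pow_nat_eq (constantCoeff φ) (n := 2) (by norm_num)
  have hr0 : r ≠ 0 := by
    rintro rfl
    apply h
    rw [← hr]
    norm_num
  have H := HenselianRing.is_henselian (I := Ideal.span {(X : ℂ⟦X⟧)})
    (Polynomial.X ^ 2 - Polynomial.C φ)
    (Polynomial.monic_X_pow_sub_C φ (by norm_num)) (C r) (by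
      rw [Ideal.mem_span_singleton, X_dvd_iff]
      simp [hr]) (by
      apply IsUnit.map
      rw [isUnit_iff_constantCoeff]
      simp [hr0])
  obtain ⟨a, ha, -⟩ := H
  refine ⟨a, ?_⟩
  simp only [Polynomial.IsRoot.def, Polynomial.eval_sub, Polynomial.eval_pow, Polynomial.eval_X,
    Polynomial.eval_C] at ha
  exact sub_eq_zero.mp ha

theorem iter_diff (j : ℕ) (b : ℂ) (β : ℂ⟦X⟧) (hb : constantCoeff β = b) :
    ∃ w : ℂ⟦X⟧, q^[j] β - C (q^[j] b) = (β - C b) * w ∧
      constantCoeff w = ∏ i ∈ Finset.range j, (1 - 2 * q^[i] b) := by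
  induction j with
  | zero => exact ⟨1, by simp, by simp⟩
  | succ j ih =>
    obtain ⟨w, h1, h2⟩ := ih
    refine ⟨w * (1 - q^[j] β - C (q^[j] b)), ?_, ?_⟩
    · rw [Function.iterate_succ_apply', Function.iterate_succ_apply', ← mul_assoc, ← h1, q, q,
        map_sub, map_pow]
      ring
    · have h3 : constantCoeff (q^[j] β) = q^[j] b := by
        rw [iter_map, hb]
      rw [map_mul, map_sub, map_sub, map_one, h3, h2, Finset.prod_range_succ,
        constantCoeff_C]
      ring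

/-- the discriminant is a square -/
theorem exists_sqrt_disc {n j : ℕ} (hj : j < n) (β : ℂ⟦X⟧) (hβ : q^[j] β = C (v n) + X ^ 2) :
    ∃ γ : ℂ⟦X⟧, γ ^ 2 = 1 - 4 * β := by
  have h4 : constantCoeff (4 : ℂ⟦X⟧) = 4 := map_ofNat _ 4
  by_cases hb : constantCoeff β = 1 / 4
  · have h1 : q^[j] (1 / 4 : ℂ) = v n := by
      have h2 := congrArg constantCoeff hβ
      rw [iter_map, hb] at h2
      rw [h2]
      simp
    have hn : n = j + 1 := by
      rw [iter_quarter] at h1
      exact (v_inj h1).symm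
    obtain ⟨w, hw1, hw2⟩ := iter_diff j (1 / 4) β hb
    have hw0 : constantCoeff w ≠ 0 := by
      rw [hw2, Finset.prod_ne_zero_iff]
      intro i _
      rw [iter_quarter]
      exact one_sub_two_v i
    have hwu : IsUnit w := by
      rw [isUnit_iff_constantCoeff]
      exact isUnit_iff_ne_zero.mpr hw0
    obtain ⟨u, hu⟩ := hwu.exists_right_inv
    have h2 : β - C (1 / 4) = X ^ 2 * u := by
      rw [hβ, h1] at hw1
      have h3 : (X : ℂ⟦X⟧) ^ 2 = (β - C (1 / 4)) * w := by
        rw [← hw1]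
        ring
      calc β - C (1 / 4) = (β - C (1 / 4)) * (w * u) := by rw [hu, mul_one]
        _ = X ^ 2 * u := by rw [h3]; ring
    have hu0 : constantCoeff u ≠ 0 := by
      intro h
      have := congrArg constantCoeff hu
      rw [map_mul, h, mul_zero, map_one] at this
      exact zero_ne_one this
    obtain ⟨ψ, hψ⟩ := exists_sqrt (-4 * u) (by
      rw [map_mul, map_neg, h4]
      exact mul_ne_zero (by norm_num) hu0)
    refine ⟨X * ψ, ?_⟩
    rw [mul_pow, hψ]
    have h5 : β = C (1 / 4) + X ^ 2 * u := by rw [← h2]; ring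
    have h6 : (4 : ℂ⟦X⟧) * C (1 / 4 : ℂ) = 1 := by
      have : (4 : ℂ⟦X⟧) = C (4 : ℂ) := (map_ofNat _ 4).symm
      rw [this, ← map_mul]
      norm_num
    rw [h5, mul_add, h6]
    ring
  · refine exists_sqrt _ ?_
    rw [map_sub, map_one, map_mul, h4]
    intro h
    apply hb
    linear_combination (-1 / 4 : ℂ) * h

theorem iter_root {n j : ℕ} {α : ℂ⟦X⟧} (h : q^[j] α = C (v n) + X ^ 2) :
    q^[j] (constantCoeff α) = v n := by
  have h2 := congrArg constantCoeff h
  rw [iter_map] at h2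
  rw [h2]
  simp

/-- all roots are power series -/
theorem root_mem {B : Type*} [Field B] [Algebra ℂ⟦X⟧ B]
    (hinj : Function.Injective (algebraMap ℂ⟦X⟧ B)) {n : ℕ} :
    ∀ j ≤ n, ∀ a : B, q^[j] a = algebraMap ℂ⟦X⟧ B (C (v n) + X ^ 2) →
      ∃ α : ℂ⟦X⟧, algebraMap ℂ⟦X⟧ B α = a := by
  intro j
  induction j with
  | zero => exact fun _ a ha => ⟨_, ha.symm⟩
  | succ j ih =>
    intro hj a ha
    rw [Function.iterate_succ_apply] at ha
    obtain ⟨β, hβ⟩ := ih (by omega) (q a) ha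
    have h1 : q^[j] β = C (v n) + X ^ 2 := by
      apply hinj
      rw [iter_map, hβ, ha]
    obtain ⟨γ, hγ⟩ := exists_sqrt_disc (by omega) β h1
    have h2 : (algebraMap ℂ⟦X⟧ B γ) ^ 2 = (1 - 2 * a) ^ 2 := by
      rw [← map_pow, hγ, map_sub, map_one, map_mul, hβ, map_ofNat, q]
      ring
    have h2' : (2 : ℂ⟦X⟧) * C (1 / 2 : ℂ) = 1 := by
      have : (2 : ℂ⟦X⟧) = C (2 : ℂ) := (map_ofNat _ 2).symm
      rw [this, ← map_mul]
      norm_num
    have h3 : (2 : B) * algebraMap ℂ⟦X⟧ B (C (1 / 2 : ℂ)) = 1 := by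
      have := congrArg (algebraMap ℂ⟦X⟧ B) h2'
      rwa [map_mul, map_ofNat, map_one] at this
    rcases sq_eq_sq_iff_eq_or_eq_neg.mp h2 with h | h
    · refine ⟨C (1 / 2) * (1 - γ), ?_⟩
      rw [map_mul, map_sub, map_one, h]
      linear_combination a * h3
    · refine ⟨C (1 / 2) * (1 + γ), ?_⟩
      rw [map_mul, map_add, map_one, h]
      linear_combination a * h3

theorem root_unique {n : ℕ} : ∀ j ≤ n, ∀ α α' : ℂ⟦X⟧, q^[j] α = C (v n) + X ^ 2 →
    q^[j] α' = C (v n) + X ^ 2 → constantCoeff α = constantCoeff α' →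
      α = α' ∨ (j = n ∧ constantCoeff α = 1 / 2 ∧ α = 1 - α') := by
  intro j
  induction j with
  | zero =>
    intro _ α α' h h' _
    left
    exact h.trans h'.symm
  | succ j ih =>
    intro hj α α' h h' hc
    rw [Function.iterate_succ_apply] at h h'
    have h1 : q α = q α' := by
      rcases ih (by omega) (q α) (q α') h h' (by rw [q_map, q_map, hc]) with h2 | ⟨h2, -⟩
      · exact h2
      · omega
    rcases q_eq_iff.mp h1 with h2 | h2
    · exact Or.inl h2
    · right
      have h3 : constantCoeff α = 1 / 2 := by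
        have := congrArg constantCoeff h2
        rw [map_sub, map_one, ← hc] at this
        linear_combination (1 / 2 : ℂ) * this
      refine ⟨?_, h3, h2⟩
      have h4 := iter_root h
      rw [q_map, h3] at h4
      have h5 : q (1 / 2 : ℂ) = 1 / 4 := by rw [q]; norm_num
      rw [h5, iter_quarter] at h4
      exact v_inj h4

theorem exists_special (n : ℕ) : ∀ j ≤ n, ∃ α : ℂ⟦X⟧, q^[j] α = C (v n) + X ^ 2 ∧
    constantCoeff α = v (n - j) := by
  intro j
  induction j with
  | zero => exact fun _ => ⟨_, rfl, by simp⟩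
  | succ j ih =>
    intro hj
    obtain ⟨β, h1, h2⟩ := ih (by omega)
    obtain ⟨γ, hγ⟩ := exists_sqrt_disc (by omega) β h1
    have h2' : (2 : ℂ⟦X⟧) * C (1 / 2 : ℂ) = 1 := by
      have : (2 : ℂ⟦X⟧) = C (2 : ℂ) := (map_ofNat _ 2).symm
      rw [this, ← map_mul]
      norm_num
    have h4' : (4 : ℂ⟦X⟧) * C (1 / 2 : ℂ) ^ 2 = 1 := by
      linear_combination (2 * C (1 / 2 : ℂ) + 1) * h2'
    have hq : q (C (1 / 2) * (1 - γ)) = β := by
      rw [q]
      linear_combination (-(C (1 / 2 : ℂ) : ℂ⟦X⟧) * (1 - γ)) * h2' -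
        (C (1 / 2 : ℂ) : ℂ⟦X⟧) ^ 2 * hγ + β * h4'
    have hc : q (constantCoeff (C (1 / 2) * (1 - γ) : ℂ⟦X⟧)) = q (v (n - (j + 1))) := by
      rw [← q_map, hq, h2, ← v_succ]
      congr 1
      omega
    rcases q_eq_iff.mp hc with h | h
    · exact ⟨_, by rw [Function.iterate_succ_apply, hq, h1], h⟩
    · refine ⟨1 - C (1 / 2) * (1 - γ), by rw [Function.iterate_succ_apply, q_one_sub, hq, h1], ?_⟩
      rw [map_sub, map_one, h]
      ring

/-- the substitution `t ↦ -t` -/
noncomputable def sg : ℂ⟦X⟧ →+* ℂ⟦X⟧ := evalNegHom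

theorem coeff_sg (α : ℂ⟦X⟧) (n : ℕ) : coeff n (sg α) = (-1) ^ n * coeff n α := by
  rw [sg, evalNegHom, coeff_rescale]

theorem sg_root {n j : ℕ} {α : ℂ⟦X⟧} (h : q^[j] α = C (v n) + X ^ 2) :
    q^[j] (sg α) = C (v n) + X ^ 2 := by
  rw [← iter_map, h, map_add, map_pow]
  have h1 : sg X = -X := evalNegHom_X
  have h2 : ∀ c : ℂ, sg (C c) = C c := by
    intro c
    ext m
    rw [coeff_sg, coeff_C]
    split_ifs with hm
    · rw [hm]; simp
    · simp
  rw [h1, h2]
  ring

theorem constantCoeff_sg (α : ℂ⟦X⟧) : constantCoeff (sg α) = constantCoeff α := by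
  rw [← coeff_zero_eq_constantCoeff_apply, coeff_sg]
  simp

theorem sg_special {n : ℕ} (hn : 0 < n) {α : ℂ⟦X⟧} (h : q^[n] α = C (v n) + X ^ 2)
    (hc : constantCoeff α = 1 / 2) : sg α = 1 - α := by
  rcases root_unique n le_rfl (sg α) α (sg_root h) h (constantCoeff_sg α) with h1 | h1
  · exfalso
    have h2 : coeff 1 α = 0 := by
      have := congrArg (coeff 1) h1
      rw [coeff_sg] at this
      linear_combination (-1 / 2 : ℂ) * this
    -- `α - 1/2` is divisible by `X ^ 2`
    have h3 : (X : ℂ⟦X⟧) ^ 2 ∣ α - C (1 / 2) := by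
      rw [X_pow_dvd_iff]
      intro m hm
      interval_cases m
      · simp [hc]
      · rw [map_sub, h2, coeff_C]
        simp
    obtain ⟨δ, hδ⟩ := h3
    obtain ⟨k, rfl⟩ : ∃ k, n = k + 1 := ⟨n - 1, by omega⟩
    have h5 : q α - C (1 / 4) = - (X ^ 4 * δ ^ 2) := by
      have h6 : α = C (1 / 2) + X ^ 2 * δ := by rw [← hδ]; ring
      have h7 : (C (1 / 2 : ℂ) : ℂ⟦X⟧) * 2 = 1 := by
        have : (2 : ℂ⟦X⟧) = C (2 : ℂ) := (map_ofNat _ 2).symm
        rw [this, ← map_mul]
        norm_num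
      have h8 : (C (1 / 4 : ℂ) : ℂ⟦X⟧) = C (1 / 2) ^ 2 := by
        rw [← map_pow]
        norm_num
      rw [q, h6, h8]
      linear_combination (-X ^ 2 * δ - C (1 / 2 : ℂ)) * h7
    rw [Function.iterate_succ_apply] at h
    have hcq : constantCoeff (q α) = 1 / 4 := by
      rw [q_map, hc, q]
      norm_num
    obtain ⟨w, hw1, -⟩ := iter_diff k (1 / 4) (q α) hcq
    rw [h, iter_quarter, h5] at hw1
    have h9 : (X : ℂ⟦X⟧) ^ 2 * (1 + X ^ 2 * δ ^ 2 * w) = 0 := by
      linear_combination hw1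
    rcases mul_eq_zero.mp h9 with h10 | h10
    · exact pow_ne_zero 2 X_ne_zero h10
    · have := congrArg constantCoeff h10
      simp at this
  · exact h1.2.2

end Pool.Agent.Helper19.LU
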