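import Pool.Agent.Helper19.LU.PS

/-!
# A transposition in the Galois group of `q^[n] Y = x` over `ℂ(x)`
-/

open Polynomial IntermediateField

namespace Pool.Agent.Helper19.LU

/-- the base field `ℂ(x)` -/
abbrev FF := RatFunc ℂ

/-- an algebraic closure of `ℂ(x)` -/
abbrev Z := AlgebraicClosure FF

/-- the polynomial `q^[n] Y - x` -/
noncomputable def Pn (n : ℕ) : FF[X] := q^[n] Polynomial.X - C RatFunc.X

theorem aeval_Pn {A : Type*} [CommRing A] [Algebra FF A] (n : ℕ) (z : A) :
    aeval z (Pn n) = q^[n] z - algebraMap FF A RatFunc.X := by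
  rw [Pn, map_sub, aeval_C]
  congr 1
  have := iter_map (aeval (R := FF) z).toRingHom n (Polynomial.X : FF[X])
  rw [AlgHom.toRingHom_eq_coe, RingHom.coe_coe, aeval_X] at this
  exact this

theorem natDegree_iter (n : ℕ) : (q^[n] (Polynomial.X : FF[X])).natDegree = 2 ^ n := by
  induction n with
  | zero => simp
  | succ n ih =>
    rw [Function.iterate_succ_apply', q, natDegree_sub_eq_right_of_natDegree_lt, natDegree_pow, ih]
    · ring
    · rw [natDegree_pow, ih]
      have := Nat.pow_pos (n := n) (show 0 < 2 by norm_num)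
      omega

theorem Pn_ne_zero (n : ℕ) : Pn n ≠ 0 := by
  intro h
  have h1 : q^[n] (Polynomial.X : FF[X]) = C RatFunc.X := sub_eq_zero.mp h
  have h2 := natDegree_iter n
  rw [h1, natDegree_C] at h2
  exact absurd h2 (Nat.pow_pos (by norm_num)).ne

/-- the embedding of the polynomial ring in the ring of power series, `x ↦ v_n + t²` -/
noncomputable def rho0 (n : ℕ) : ℂ[X] →+* PowerSeries ℂ :=
  eval₂RingHom PowerSeries.C (PowerSeries.C (v n) + PowerSeries.X ^ 2)

theorem rho0_injective (n : ℕ) : Function.Injective (rho0 n) := by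
  rw [injective_iff_map_eq_zero]
  intro p hp
  by_contra h0
  have h1 := (IsAlgClosed.splits p).eq_prod_roots
  rw [h1, map_mul, map_multiset_prod] at hp
  rcases mul_eq_zero.mp hp with h | h
  · have h2 : rho0 n (C p.leadingCoeff) = PowerSeries.C p.leadingCoeff := eval₂_C _ _
    rw [h2] at h
    have h3 : p.leadingCoeff = 0 := by
      have := congrArg PowerSeries.constantCoeff h
      simpa using this
    exact h0 (leadingCoeff_eq_zero.mp h3)
  · rw [Multiset.prod_eq_zero_iff, Multiset.mem_map] at h
    obtain ⟨b, hb, hb0⟩ := h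
    rw [Multiset.mem_map] at hb
    obtain ⟨r, -, rfl⟩ := hb
    have h2 : rho0 n (X - C r) = PowerSeries.C (v n) + PowerSeries.X ^ 2 - PowerSeries.C r := by
      simp [rho0]
    rw [h2] at hb0
    have h3 := congrArg (PowerSeries.coeff 2) hb0
    rw [map_sub, map_add, PowerSeries.coeff_C, PowerSeries.coeff_C, PowerSeries.coeff_X_pow] at h3
    simp at h3

/-- fraction field of the ring of power series -/
abbrev LL := FractionRing (PowerSeries ℂ)

/-- the embedding `ℂ(x) → ℂ((t))`, `x ↦ v_n + t²` -/
noncomputable def rho (n : ℕ) : FF →+* LL :=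
  IsFractionRing.lift (A := ℂ[X]) (K := FF)
    (g := (algebraMap (PowerSeries ℂ) LL).comp (rho0 n))
    ((IsFractionRing.injective (PowerSeries ℂ) LL).comp (rho0_injective n))

theorem rho_X (n : ℕ) : rho n RatFunc.X =
    algebraMap (PowerSeries ℂ) LL (PowerSeries.C (v n) + PowerSeries.X ^ 2) := by
  have h1 : (RatFunc.X : FF) = algebraMap ℂ[X] FF X := RatFunc.algebraMap_X.symm
  rw [rho, h1, IsFractionRing.lift_algebraMap, RingHom.comp_apply]
  congr 1
  simp [rho0]

theorem rho_C (n : ℕ) (c : ℂ) : rho n (algebraMap ℂ FF c) =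
    algebraMap (PowerSeries ℂ) LL (PowerSeries.C c) := by
  have h1 : (algebraMap ℂ FF c : FF) = algebraMap ℂ[X] FF (C c) :=
    IsScalarTower.algebraMap_apply ℂ ℂ[X] FF c
  rw [rho, h1, IsFractionRing.lift_algebraMap, RingHom.comp_apply]
  congr 1
  simp [rho0]

theorem sg_injective : Function.Injective sg := by
  intro a b h
  ext m
  have h1 := congrArg (PowerSeries.coeff m) h
  rw [coeff_sg, coeff_sg] at h1
  exact mul_left_cancel₀ (pow_ne_zero m (by norm_num)) h1

/-- the automorphism `t ↦ -t` of `ℂ((t))` -/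
noncomputable def sL : LL →+* LL :=
  IsFractionRing.lift (A := PowerSeries ℂ) (K := LL) (g := (algebraMap (PowerSeries ℂ) LL).comp sg)
    ((IsFractionRing.injective (PowerSeries ℂ) LL).comp sg_injective)

theorem sL_algebraMap (α : PowerSeries ℂ) :
    sL (algebraMap (PowerSeries ℂ) LL α) = algebraMap (PowerSeries ℂ) LL (sg α) := by
  rw [sL, IsFractionRing.lift_algebraMap]
  rfl

theorem sg_C (c : ℂ) : sg (PowerSeries.C c) = PowerSeries.C c := by
  ext m
  rw [coeff_sg, PowerSeries.coeff_C]
  split_ifs with hm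
  · rw [hm]; simp
  · simp

theorem ratFunc_hom_ext {B : Type*} [Field B] {f g : FF →+* B}
    (hC : ∀ c : ℂ, f (algebraMap ℂ FF c) = g (algebraMap ℂ FF c))
    (hX : f RatFunc.X = g RatFunc.X) : f = g := by
  apply IsLocalization.ringHom_ext (nonZeroDivisors ℂ[X])
  apply Polynomial.ringHom_ext
  · intro c
    have h1 : (algebraMap ℂ FF c : FF) = algebraMap ℂ[X] FF (C c) :=
      IsScalarTower.algebraMap_apply ℂ ℂ[X] FF c
    have := hC c
    rw [h1] at this
    exact this
  · have h1 : (RatFunc.X : FF) = algebraMap ℂ[X] FF X := RatFunc.algebraMap_X.symm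
    rw [h1] at hX
    exact hX

theorem sL_rho (n : ℕ) (u : FF) : sL (rho n u) = rho n u := by
  have h : (sL.comp (rho n)) = rho n := by
    apply ratFunc_hom_ext
    · intro c
      rw [RingHom.comp_apply, rho_C, sL_algebraMap, sg_C]
    · rw [RingHom.comp_apply, rho_X, sL_algebraMap]
      congr 1
      have h1 : sg PowerSeries.X = -PowerSeries.X := PowerSeries.evalNegHom_X
      rw [map_add, map_pow, sg_C, h1]
      ring
  exact congrArg (fun f : FF →+* LL => f u) h

/-- the variable `x` in an algebraic closure -/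
noncomputable def xZ : Z := algebraMap FF Z RatFunc.X

theorem exists_transposition {n : ℕ} (hn : 0 < n) : ∃ (τ : Z ≃ₐ[FF] Z) (z₀ : Z),
    q^[n] z₀ = xZ ∧ τ z₀ = 1 - z₀ ∧
      ∀ z, q^[n] z = xZ → z ≠ z₀ → z ≠ 1 - z₀ → τ z = z := by
  let _ : Algebra FF LL := (rho n).toAlgebra
  have halg : ∀ u : FF, algebraMap FF LL u = rho n u := fun _ => rfl
  have hinj : Function.Injective (algebraMap (PowerSeries ℂ) LL) :=
    IsFractionRing.injective (PowerSeries ℂ) LL
  -- the polynomial splits in `ℂ((t))`
  have hsplit : ((Pn n).map (algebraMap FF LL)).Splits := by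
    refine Splits.of_splits_map (algebraMap LL (AlgebraicClosure LL)) (IsAlgClosed.splits _) ?_
    intro a ha
    have h1 := (mem_roots'.mp ha).2
    rw [IsRoot.def, Polynomial.map_map, eval_map] at h1
    have h2 : q^[n] a = algebraMap (PowerSeries ℂ) (AlgebraicClosure LL)
        (PowerSeries.C (v n) + PowerSeries.X ^ 2) := by
      rw [Pn, eval₂_sub, eval₂_C, RingHom.comp_apply, halg, rho_X] at h1
      have h3 : eval₂ ((algebraMap LL (AlgebraicClosure LL)).comp (algebraMap FF LL)) a
          (q^[n] (Polynomial.X : FF[X])) = q^[n] a := by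
        have := iter_map (eval₂RingHom ((algebraMap LL (AlgebraicClosure LL)).comp
          (algebraMap FF LL)) a) n (Polynomial.X : FF[X])
        rw [coe_eval₂RingHom, eval₂_X] at this
        exact this
      rw [h3] at h1
      rw [sub_eq_zero.mp h1]
      exact (IsScalarTower.algebraMap_apply (PowerSeries ℂ) LL (AlgebraicClosure LL) _).symm
    have hinj2 : Function.Injective (algebraMap (PowerSeries ℂ) (AlgebraicClosure LL)) := by
      rw [IsScalarTower.algebraMap_eq (PowerSeries ℂ) LL (AlgebraicClosure LL)]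
      exact (algebraMap LL (AlgebraicClosure LL)).injective.comp hinj
    obtain ⟨α, hα⟩ := root_mem hinj2 n le_rfl a h2
    refine ⟨algebraMap (PowerSeries ℂ) LL α, ?_⟩
    rw [← hα]
    exact (IsScalarTower.algebraMap_apply (PowerSeries ℂ) LL (AlgebraicClosure LL) _).symm
  set M : IntermediateField FF Z := IntermediateField.adjoin FF ((Pn n).rootSet Z) with hM
  have : IsSplittingField FF M (Pn n) :=
    adjoin_rootSet_isSplittingField (IsAlgClosed.splits _)
  have : Normal FF M := Normal.of_isSplittingField (Pn n)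
  set ι : M →ₐ[FF] LL := IsSplittingField.lift M (Pn n) hsplit with hι
  let sA : LL →ₐ[FF] LL := { sL with commutes' := fun u => sL_rho n u }
  let _ : Algebra M LL := ι.toRingHom.toAlgebra
  have : IsScalarTower FF M LL := IsScalarTower.of_algebraMap_eq fun u => (ι.commutes u).symm
  set τ₀ : M ≃ₐ[FF] M := Normal.algHomEquivAut FF LL M (sA.comp ι) with hτ₀
  have hτι : ∀ z : M, ι (τ₀ z) = sL (ι z) := by
    intro z
    have h1 := (Normal.algHomEquivAut FF LL M).symm_apply_apply (sA.comp ι)
    exact congrArg (fun f : M →ₐ[FF] LL => f z) h1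
  obtain ⟨τ, hτ⟩ := AlgEquiv.restrictNormalHom_surjective (F := FF) (K₁ := M) Z τ₀
  have hτM : ∀ z : M, τ z = (τ₀ z : Z) := by
    intro z
    rw [← hτ]
    exact (AlgEquiv.restrictNormal_commutes τ M z).symm
  -- roots in `Z` and power series
  have hroot : ∀ z : Z, q^[n] z = xZ → ∃ (w : M) (α : PowerSeries ℂ), (w : Z) = z ∧
      ι w = algebraMap (PowerSeries ℂ) LL α ∧
      q^[n] α = PowerSeries.C (v n) + PowerSeries.X ^ 2 := by
    intro z hz
    have h1 : z ∈ (Pn n).rootSet Z := by
      rw [mem_rootSet]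
      exact ⟨Pn_ne_zero n, by rw [aeval_Pn, hz]; exact sub_self _⟩
    have h2 : z ∈ M := subset_adjoin FF _ h1
    set w : M := ⟨z, h2⟩ with hw
    have h3 : q^[n] w = algebraMap FF M RatFunc.X := by
      apply (algebraMap M Z).injective
      rw [iter_map]
      exact hz
    have h4 : q^[n] (ι w) = algebraMap (PowerSeries ℂ) LL
        (PowerSeries.C (v n) + PowerSeries.X ^ 2) := by
      have := iter_map ι.toRingHom n w
      rw [h3] at this
      rw [← rho_X, ← halg]
      have h5 := ι.commutes RatFunc.X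
      rw [← h5]
      exact this.symm
    obtain ⟨α, hα⟩ := root_mem hinj n le_rfl _ h4
    refine ⟨w, α, rfl, hα.symm, ?_⟩
    apply hinj
    rw [iter_map, hα, h4]
  obtain ⟨α₀, hα₀, hc₀⟩ := exists_special n n le_rfl
  rw [Nat.sub_self, v_zero] at hc₀
  -- the special root
  obtain ⟨w₀, hw₀⟩ : ∃ w₀ : M, ι w₀ = algebraMap (PowerSeries ℂ) LL α₀ := by
    have h1 : ((Pn n).map (algebraMap FF M)).Splits := IsSplittingField.splits M (Pn n)
    have h2 := h1.mem_range_of_isRoot (Polynomial.map_ne_zero (Pn_ne_zero n))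
      (i := ι.toRingHom) (x := algebraMap (PowerSeries ℂ) LL α₀) (by
        rw [IsRoot.def, Polynomial.map_map]
        have h3 : ι.toRingHom.comp (algebraMap FF M) = algebraMap FF LL := ι.comp_algebraMap
        rw [h3, eval_map_algebraMap, aeval_Pn, ← iter_map, hα₀, halg, rho_X, sub_self])
    exact h2
  have hw₀' : q^[n] (w₀ : Z) = xZ := by
    have h1 : q^[n] w₀ = algebraMap FF M RatFunc.X := by
      apply ι.toRingHom.injective
      rw [iter_map]
      change q^[n] (ι w₀) = ι (algebraMap FF M RatFunc.X)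
      rw [hw₀, ι.commutes, halg, rho_X, ← iter_map, hα₀]
    have h2 := congrArg (algebraMap M Z) h1
    rw [iter_map] at h2
    exact h2
  refine ⟨τ, w₀, hw₀', ?_, ?_⟩
  · rw [hτM]
    have h1 : τ₀ w₀ = 1 - w₀ := by
      apply ι.toRingHom.injective
      change ι (τ₀ w₀) = ι (1 - w₀)
      rw [hτι, hw₀, sL_algebraMap, sg_special hn hα₀ hc₀, map_sub, map_sub, map_one, map_one, hw₀]
    rw [h1]
    rfl
  · intro z hz hne1 hne2
    obtain ⟨w, α, rfl, hwα, hα⟩ := hroot z hz
    have h1 : sg α = α := by
      rcases root_unique n le_rfl (sg α) α (sg_root hα) hα (constantCoeff_sg α) with h | h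
      · exact h
      · exfalso
        have hc : PowerSeries.constantCoeff α = 1 / 2 := by
          rw [← constantCoeff_sg]
          exact h.2.1
        rcases root_unique n le_rfl α α₀ hα hα₀ (by rw [hc, hc₀]) with h2 | h2
        · apply hne1
          have : w = w₀ := by
            apply ι.toRingHom.injective
            change ι w = ι w₀
            rw [hwα, hw₀, h2]
          rw [this]
        · apply hne2
          have : w = 1 - w₀ := by
            apply ι.toRingHom.injective
            change ι w = ι (1 - w₀)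
            rw [hwα, map_sub, map_one, hw₀, h2.2.2, map_sub, map_one]
          rw [this]
          rfl
    rw [hτM]
    have h2 : τ₀ w = w := by
      apply ι.toRingHom.injective
      change ι (τ₀ w) = ι w
      rw [hτι, hwα, sL_algebraMap, h1]
    rw [h2]

end Pool.Agent.Helper19.LU
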