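import Pool.Agent.Helper19.LU.Key

/-!
# Words in Liouvillian germs
-/

open Filter Topology Set

namespace Pool.Agent.Helper19.LU

/-- local homeomorphisms of `(ℝ, 0)` -/
structure Loc (f : ℝ → ℝ) : Prop where
  zero : f 0 = 0
  cont : ∀ᶠ x in 𝓝 (0:ℝ), ContinuousAt f x
  inj : ∃ U ∈ 𝓝 (0:ℝ), InjOn f U

theorem ofR_congr {f g : ℝ → ℝ} {hf : ∀ᶠ x in 𝓝[>] (0:ℝ), AnalyticAt ℝ f x}
    {hg : ∀ᶠ x in 𝓝[>] (0:ℝ), AnalyticAt ℝ g x} (h : f =ᶠ[𝓝[>] 0] g) : ofR f hf = ofR g hg := by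
  rw [ofR, ofR, mk_eq]
  apply eventually_nz_of
  filter_upwards [h] with x hx
  rw [hx]

theorem ofR_mul {f g : ℝ → ℝ} {hf : ∀ᶠ x in 𝓝[>] (0:ℝ), AnalyticAt ℝ f x}
    {hg : ∀ᶠ x in 𝓝[>] (0:ℝ), AnalyticAt ℝ g x}
    {hfg : ∀ᶠ x in 𝓝[>] (0:ℝ), AnalyticAt ℝ (fun x => f x * g x) x} :
    ofR (fun x => f x * g x) hfg = ofR f hf * ofR g hg := by
  rw [ofR, ofR, ofR, mk_mul, mk_eq]
  refine Eventually.of_forall fun x => ?_
  simp

theorem ofR_sub {f g : ℝ → ℝ} {hf : ∀ᶠ x in 𝓝[>] (0:ℝ), AnalyticAt ℝ f x}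
    {hg : ∀ᶠ x in 𝓝[>] (0:ℝ), AnalyticAt ℝ g x}
    {hfg : ∀ᶠ x in 𝓝[>] (0:ℝ), AnalyticAt ℝ (fun x => f x - g x) x} :
    ofR (fun x => f x - g x) hfg = ofR f hf - ofR g hg := by
  rw [eq_sub_iff_add_eq, ofR, ofR, ofR, mk_add, mk_eq]
  refine Eventually.of_forall fun x => ?_
  simp

theorem ofR_const (c : ℝ) : ofR (fun _ => c) (Eventually.of_forall fun _ => analyticAt_const) =
    algebraMap ℂ K c := rfl

/-- one half of a local homeomorphism -/
theorem exists_adm {φ : ℝ → ℝ} {ε : ℝ} (hε : 0 < ε)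
    (hana : ∀ᶠ x in 𝓝[>] (0:ℝ), AnalyticAt ℝ φ x) (hinj : InjOn φ (Ioo 0 ε))
    (hcont : ContinuousOn φ (Ioo 0 ε)) (hne : ∀ x ∈ Ioo 0 ε, φ x ≠ 0)
    (hlim : Tendsto φ (𝓝[>] 0) (𝓝 0)) :
    ∃ η : ℝ, (η = 1 ∨ η = -1) ∧ Adm (fun x => η * φ x) := by
  -- the sign
  have hsign : ∃ η : ℝ, (η = 1 ∨ η = -1) ∧ ∀ x ∈ Ioo 0 ε, 0 < η * φ x := by
    by_cases h : ∀ x ∈ Ioo 0 ε, 0 < φ x
    · exact ⟨1, Or.inl rfl, fun x hx => by rw [one_mul]; exact h x hx⟩
    · push Not at h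
      obtain ⟨a, ha, ha0⟩ := h
      refine ⟨-1, Or.inr rfl, fun x hx => ?_⟩
      by_contra hx0
      have h1 : 0 ≤ φ x := by linarith
      obtain ⟨c, hc, hc0⟩ := isPreconnected_Ioo.intermediate_value ha hx hcont ⟨ha0, h1⟩
      exact hne c hc hc0
  obtain ⟨η, hη, hpos⟩ := hsign
  have hη0 : η ≠ 0 := by rcases hη with rfl | rfl <;> norm_num
  have hI : ∀ᶠ x in 𝓝[>] (0:ℝ), x ∈ Ioo 0 ε := Ioo_mem_nhdsGT hε
  refine ⟨η, hη, ?_, ?_, ?_⟩
  · filter_upwards [hana] with x hx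
    exact analyticAt_const.mul hx
  · rw [tendsto_nhdsWithin_iff]
    refine ⟨?_, ?_⟩
    · have := hlim.const_mul η
      rwa [mul_zero] at this
    · filter_upwards [hI] with x hx using hpos x hx
  · filter_upwards [hI] with x hx
    rw [tendsto_nhdsWithin_iff]
    refine ⟨?_, ?_⟩
    · have h1 : ContinuousAt φ x := hcont.continuousAt (isOpen_Ioo.mem_nhds hx)
      exact (continuousAt_const.mul h1).tendsto.mono_left nhdsWithin_le_nhds
    · rw [eventually_nhdsWithin_iff]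
      filter_upwards [isOpen_Ioo.mem_nhds hx] with y hy hyx h
      exact hyx (hinj hy hx (mul_left_cancel₀ hη0 h))

theorem Adm.comp {s t : ℝ → ℝ} (hs : Adm s) (ht : Adm t) : Adm (fun x => s (t x)) where
  analytic := by
    filter_upwards [ht.tendsto.eventually hs.analytic, ht.analytic] with x h1 h2
    exact h1.comp h2
  tendsto := hs.tendsto.comp ht.tendsto
  inj := by
    filter_upwards [ht.tendsto.eventually hs.inj, ht.inj] with x h1 h2
    exact h1.comp h2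

theorem Adm.id : Adm (fun x : ℝ => x) where
  analytic := Eventually.of_forall fun _ => analyticAt_id
  tendsto := tendsto_id
  inj := Eventually.of_forall fun _ => tendsto_id

theorem Loc.exists_half {f : ℝ → ℝ} (hf : Loc f) {η : ℝ} (hη : η = 1 ∨ η = -1)
    (hana : ∀ᶠ x in 𝓝[>] (0:ℝ), AnalyticAt ℝ (fun x => f (η * x)) x) :
    ∃ η' : ℝ, (η' = 1 ∨ η' = -1) ∧ Adm (fun x => η' * f (η * x)) := by
  obtain ⟨U, hU, hinj⟩ := hf.inj
  obtain ⟨ε, hε, hball⟩ := Metric.mem_nhds_iff.mp (inter_mem hU hf.cont)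
  have hη0 : η ≠ 0 := by rcases hη with rfl | rfl <;> norm_num
  have habs : |η| = 1 := by rcases hη with rfl | rfl <;> simp
  have hmem : ∀ x ∈ Ioo 0 ε, η * x ∈ Metric.ball (0:ℝ) ε := by
    intro x hx
    rw [mem_ball_zero_iff, Real.norm_eq_abs, abs_mul, habs, one_mul, abs_of_pos hx.1]
    exact hx.2
  refine exists_adm hε hana ?_ ?_ ?_ ?_
  · intro x hx y hy h
    exact mul_left_cancel₀ hη0 (hinj (hball (hmem x hx)).1 (hball (hmem y hy)).1 h)
  · intro x hx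
    have h1 : ContinuousAt f (η * x) := (hball (hmem x hx)).2
    have h2 : ContinuousAt (fun x => f (η * x)) x :=
      ContinuousAt.comp (f := fun x => η * x) (g := f) h1 (by fun_prop)
    exact h2.continuousWithinAt
  · intro x hx h
    have h1 : f (η * x) = f 0 := by rw [h, hf.zero]
    have h2 := hinj (hball (hmem x hx)).1 (hball (Metric.mem_ball_self hε)).1 h1
    rw [mul_eq_zero] at h2
    exact h2.elim hη0 hx.1.ne'
  · have h1 : ContinuousAt f 0 := (hball (Metric.mem_ball_self hε)).2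
    have h2 : ContinuousAt (fun x => f (η * x)) 0 := by
      apply ContinuousAt.comp (f := fun x => η * x) (g := f) _ (by fun_prop)
      rw [mul_zero]
      exact h1
    have h3 := h2.tendsto
    rw [mul_zero, hf.zero] at h3
    exact h3.mono_left nhdsWithin_le_nhds

/-- the function `f` is in a tower of cost at most `C` -/
def InTower (C : ℕ) (f : ℝ → ℝ) : Prop :=
  ∃ h : ∀ᶠ x in 𝓝[>] (0:ℝ), AnalyticAt ℝ f x, ∃ c ≤ C, ∃ E, Tower c E ∧ ofR f h ∈ E

theorem exists_word_adm {P : (ℝ → ℝ) → Prop} {C : ℕ}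
    (hP : ∀ f, P f → Loc f ∧ ∀ η : ℝ, (η = 1 ∨ η = -1) → InTower C (fun x => f (η * x)))
    (l : List (ℝ → ℝ)) (hl : ∀ f ∈ l, P f) :
    ∃ η : ℝ, (η = 1 ∨ η = -1) ∧ ∃ A : ℝ → ℝ, ∃ hA : Adm A, (∀ x, A x = η * l.foldr (· ∘ ·) id x) ∧
      ∃ c ≤ C * l.length, ∃ E, Tower c E ∧ ofR A hA.analytic ∈ E := by
  induction l with
  | nil =>
    refine ⟨1, Or.inl rfl, fun x => x, Adm.id, fun x => by simp, 0, by simp, _, .base, ?_⟩
    exact IntermediateField.mem_adjoin_simple_self ℂ X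
  | cons f l ih =>
    obtain ⟨η, hη, A, hA, hAw, c, hc, E, hE, hAE⟩ :=
      ih fun g hg => hl g (List.mem_cons_of_mem _ hg)
    obtain ⟨hf, hft⟩ := hP f (hl f List.mem_cons_self)
    obtain ⟨hana, c', hc', E', hE', hfE⟩ := hft η hη
    obtain ⟨η', hη', hB⟩ := hf.exists_half hη hana
    have hη2 : η * η = 1 := by rcases hη with rfl | rfl <;> norm_num
    obtain ⟨E'', h1, h2, h3⟩ := hE.comp hA hAE hE'
    refine ⟨η', hη', fun x => η' * f (η * A x), hB.comp hA, ?_, c + c', ?_, E'', h1, ?_⟩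
    · intro x
      change η' * f (η * A x) = η' * f (l.foldr (· ∘ ·) id x)
      rw [hAw, ← mul_assoc, hη2, one_mul]
    · rw [List.length_cons, mul_add, mul_one]
      exact add_le_add hc hc'
    · have h4 : ofR (fun x => η' * f (η * x)) hB.analytic ∈ E' := by
        rw [ofR_mul (hf := Eventually.of_forall fun _ => analyticAt_const) (hg := hana), ofR_const]
        exact mul_mem (E'.algebraMap_mem _) hfE
      have h5 := h3 _ h4
      have h6 : pull hA (ofR (fun x => η' * f (η * x)) hB.analytic) =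
          ofR (fun x => η' * f (η * A x)) (hB.comp hA).analytic := by
        rw [ofR, pull_mk]
        rfl
      rwa [h6] at h5

theorem q_neg_of_neg {x : ℝ} (hx : x < 0) : q x < 0 := by
  rw [q]
  nlinarith [sq_nonneg x]

theorem iter_q_neg (n : ℕ) {x : ℝ} (hx : x < 0) : q^[n] x < 0 := by
  induction n generalizing x with
  | zero => exact hx
  | succ n ih =>
    rw [Function.iterate_succ_apply]
    exact ih (q_neg_of_neg hx)

theorem analyticAt_iter_q (n : ℕ) (x : ℝ) : AnalyticAt ℝ (fun y : ℝ => q^[n] y) x := by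
  induction n with
  | zero => exact analyticAt_id
  | succ n ih =>
    simp_rw [Function.iterate_succ_apply']
    exact ih.sub (ih.pow 2)

theorem ofR_iter {A : ℝ → ℝ} (hA : ∀ᶠ x in 𝓝[>] (0:ℝ), AnalyticAt ℝ A x) (n : ℕ) :
    ∃ h : ∀ᶠ x in 𝓝[>] (0:ℝ), AnalyticAt ℝ (fun x => q^[n] (A x)) x,
      ofR (fun x => q^[n] (A x)) h = q^[n] (ofR A hA) := by
  induction n with
  | zero => exact ⟨hA, rfl⟩
  | succ n ih =>
    obtain ⟨h, hh⟩ := ih
    have e1 : (fun x => q^[n + 1] (A x)) = fun x => q^[n] (A x) - q^[n] (A x) * q^[n] (A x) := by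
      funext x
      rw [Function.iterate_succ_apply', q, sq]
    have h2 : ∀ᶠ x in 𝓝[>] (0:ℝ), AnalyticAt ℝ (fun x => q^[n] (A x) * q^[n] (A x)) x := by
      filter_upwards [h] with x hx using hx.mul hx
    have h3 : ∀ᶠ x in 𝓝[>] (0:ℝ),
        AnalyticAt ℝ (fun x => q^[n] (A x) - q^[n] (A x) * q^[n] (A x)) x := by
      filter_upwards [h, h2] with x hx hx2 using hx.sub hx2
    have h4 : ∀ᶠ x in 𝓝[>] (0:ℝ), AnalyticAt ℝ (fun x => q^[n + 1] (A x)) x := by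
      rw [e1]
      exact h3
    refine ⟨h4, ?_⟩
    have h5 : ofR (fun x => q^[n + 1] (A x)) h4 =
        ofR (fun x => q^[n] (A x) - q^[n] (A x) * q^[n] (A x)) h3 := by
      congr 1
    rw [h5, ofR_sub (hf := h) (hg := h2), ofR_mul (hf := h) (hg := h), hh,
      Function.iterate_succ_apply', q, sq]

/-- the word length of the iterates of `q⁻¹` -/
theorem word_bound {P : (ℝ → ℝ) → Prop} {C : ℕ}
    (hP : ∀ f, P f → Loc f ∧ ∀ η : ℝ, (η = 1 ∨ η = -1) → InTower C (fun x => f (η * x)))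
    (l : List (ℝ → ℝ)) (hl : ∀ f ∈ l, P f) {n : ℕ}
    (hw : ∀ᶠ x in 𝓝[>] (0:ℝ), q^[n] (l.foldr (· ∘ ·) id x) = x) : n ≤ C * l.length := by
  obtain ⟨η, hη, A, hA, hAw, c, hc, E, hE, hAE⟩ := exists_word_adm hP l hl
  refine le_trans ?_ hc
  have hη2 : η * η = 1 := by rcases hη with rfl | rfl <;> norm_num
  have hw2 : ∀ x, l.foldr (· ∘ ·) id x = η * A x := fun x => by
    rw [hAw, ← mul_assoc, hη2, one_mul]
  have hpos : ∀ᶠ x in 𝓝[>] (0:ℝ), 0 < A x :=
    (tendsto_nhdsWithin_iff.mp hA.tendsto).2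
  have hpos' : ∀ᶠ x in 𝓝[>] (0:ℝ), 0 < x := eventually_mem_nhdsWithin
  have hη1 : η = 1 := by
    rcases hη with h | h
    · exact h
    · exfalso
      obtain ⟨x, ⟨h1, h2⟩, h3⟩ := ((hw.and hpos).and hpos').exists
      rw [hw2, h] at h1
      have h4 := iter_q_neg n (x := -1 * A x) (by linarith)
      rw [h1] at h4
      exact lt_asymm h3 h4
  have hw3 : ∀ᶠ x in 𝓝[>] (0:ℝ), q^[n] (A x) = x := by
    filter_upwards [hw] with x hx
    rw [hw2, hη1, one_mul] at hx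
    exact hx
  obtain ⟨h, hh⟩ := ofR_iter hA.analytic n
  refine hE.le_cost hAE ?_
  rw [← hh, X]
  exact ofR_congr hw3

end Pool.Agent.Helper19.LU
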